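import Pool.Agent.LibTK94.Cplx

/-!
# Row C1: complex Hessian of a function of the real parts

Plan.  `reV` is a continuous real-linear map `(Fin n → ℂ) → V n` (build it as a `ContinuousLinearMap` `Rl` with
`⇑Rl = reV`), so `fderiv (U ∘ Rl) w = (fderiv U (Rl w)).comp Rl` for all `w` and
`D2 (U ∘ Rl) w a b = D2 U (Rl w) (Rl a) (Rl b)` (`U` is `C²`: `fderiv U` is differentiable; `fderiv_comp`, and
`ContinuousLinearMap.compL`/`HasFDerivAt` of `c ↦ c.comp Rl`).  `Rl (Pi.single j 1) = EuclideanSpace.single j 1`,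
`Rl (Pi.single j I) = 0`.  Invariance: `F w = F (ofR (reV w))` (take `θ j = -(w j).im`).
-/

set_option autoImplicit false

open MeasureTheory
open scoped InnerProductSpace ComplexOrder

namespace Pool.Agent.LibTK94

private noncomputable def CHess_Rl (n : ℕ) : (Fin n → ℂ) →L[ℝ] V n :=
  LinearMap.toContinuousLinearMap
    { toFun := reV
      map_add' := fun w w' => by
        ext j
        simp [reV]
      map_smul' := fun c w => by
        ext j
        simp [reV] }

private theorem CHess_Rl_apply {n : ℕ} (w : Fin n → ℂ) : CHess_Rl n w = reV w := rfl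

private theorem CHess_one {n : ℕ} (j : Fin n) :
    reV (Pi.single j (1 : ℂ)) = (EuclideanSpace.single j (1 : ℝ) : V n) := by
  ext i
  by_cases h : i = j
  · subst h
    simp [reV]
  · simp [reV, h]

private theorem CHess_I {n : ℕ} (j : Fin n) : reV (Pi.single j Complex.I) = (0 : V n) := by
  ext i
  by_cases h : i = j
  · subst h
    simp [reV]
  · simp [reV, h]

theorem D2_comp_reV {n : ℕ} {U : V n → ℝ} (hU : ContDiff ℝ 2 U) (w a b : Fin n → ℂ) :
    D2 (fun w => U (reV w)) w a b = D2 U (reV w) (reV a) (reV b) := by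
  have h1 : Differentiable ℝ U := hU.differentiable (by norm_num)
  have h2 : Differentiable ℝ (fderiv ℝ U) :=
    (hU.fderiv_right (m := 1) (by norm_num)).differentiable (by norm_num)
  have e1 : fderiv ℝ (fun w : Fin n → ℂ => U (reV w)) =
      fun w => (fderiv ℝ U (CHess_Rl n w)).comp (CHess_Rl n) := by
    funext w
    have h3 : HasFDerivAt (fun w : Fin n → ℂ => U (CHess_Rl n w))
        ((fderiv ℝ U (CHess_Rl n w)).comp (CHess_Rl n)) w :=
      (h1 (CHess_Rl n w)).hasFDerivAt.comp w (CHess_Rl n).hasFDerivAt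
    exact h3.fderiv
  have h4 : HasFDerivAt (fun w : Fin n → ℂ => fderiv ℝ U (CHess_Rl n w))
      ((fderiv ℝ (fderiv ℝ U) (CHess_Rl n w)).comp (CHess_Rl n)) w :=
    (h2 (CHess_Rl n w)).hasFDerivAt.comp w (CHess_Rl n).hasFDerivAt
  have h5 := h4.clm_comp (hasFDerivAt_const (CHess_Rl n) w)
  unfold D2
  rw [e1, h5.fderiv]
  simp [CHess_Rl_apply]

theorem levi_comp_reV {n : ℕ} {U : V n → ℝ} (hU : ContDiff ℝ 2 U) (w : Fin n → ℂ) :
    levi (fun w => U (reV w)) w =
      (Hm U (reV w)).map (fun r => (((1 / 4 : ℝ) * r : ℝ) : ℂ)) := by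
  ext j k
  have z1 : ∀ b, D2 U (reV w) 0 b = 0 := by
    intro b
    unfold D2
    simp
  have z2 : ∀ a, D2 U (reV w) a 0 = 0 := by
    intro a
    unfold D2
    simp
  unfold levi Hm
  simp only [Matrix.of_apply, Matrix.map_apply, D2_comp_reV hU, CHess_one, CHess_I, z1, z2]
  push_cast
  ring

theorem eq_comp_reV {n : ℕ} {F : (Fin n → ℂ) → ℝ}
    (hinv : ∀ (w : Fin n → ℂ) (θ : Fin n → ℝ), F (fun j => w j + Complex.I * (θ j : ℂ)) = F w) :
    F = fun w => F (ofR (reV w)) := by
  funext w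
  have h := hinv w (fun j => -(w j).im)
  have e : (fun j => w j + Complex.I * ((-(w j).im : ℝ) : ℂ)) = ofR (reV w) := by
    funext j
    apply Complex.ext
    · simp [ofR, reV]
    · simp [ofR, reV]
  rw [e] at h
  exact h.symm

theorem contDiff_ofR {n : ℕ} {k : ℕ} {F : (Fin n → ℂ) → ℝ} (hF : ContDiff ℝ k F) :
    ContDiff ℝ k (fun x : V n => F (ofR x)) := by
  have h : ContDiff ℝ k (fun x : V n => (ofR x : Fin n → ℂ)) := by
    rw [contDiff_pi]
    intro j
    exact (Complex.ofRealCLM.comp (EuclideanSpace.proj (𝕜 := ℝ) j)).contDiff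
  exact hF.comp h

end Pool.Agent.LibTK94
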