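import Pool.Agent.LibTK94.Cplx

/-!
# Row C3: real matrices as complex matrices

Plan.  `Matrix.PosDef`: Hermitian and positive quadratic form; test on real vectors.
`A.map f = (1/4 : ℂ) • A.map (algebraMap ℝ ℂ)`, `Matrix.det_smul`, `RingHom.map_det`.
-/

set_option autoImplicit false

open MeasureTheory
open scoped InnerProductSpace ComplexOrder

namespace Pool.Agent.LibTK94

theorem posDef_of_map {n : ℕ} {A : Matrix (Fin n) (Fin n) ℝ}
    (h : (A.map (fun r => (((1 / 4 : ℝ) * r : ℝ) : ℂ))).PosDef) : A.PosDef := by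
  have hmap : A.map (fun r => (((1 / 4 : ℝ) * r : ℝ) : ℂ)) =
      ((1 / 4 : ℝ) • A).map (algebraMap ℝ ℂ) := by
    ext i j
    simp
  rw [hmap] at h
  have hH : A.IsHermitian := by
    have h1 := h.1
    ext i j
    have h2 := congrFun (congrFun h1 i) j
    simp only [Matrix.conjTranspose_apply, Matrix.map_apply, Matrix.smul_apply, smul_eq_mul,
      Complex.coe_algebraMap] at h2
    have h3 : ((1 / 4 * A j i : ℝ) : ℂ) = ((1 / 4 * A i j : ℝ) : ℂ) := by
      rw [← h2]
      exact (Complex.conj_ofReal _).symm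
    have h4 : 1 / 4 * A j i = 1 / 4 * A i j := Complex.ofReal_injective h3
    rw [Matrix.conjTranspose_apply, star_trivial]
    linarith
  refine Matrix.PosDef.of_dotProduct_mulVec_pos hH fun x hx => ?_
  have hx' : (fun i => (x i : ℂ)) ≠ 0 := by
    intro h0
    apply hx
    funext i
    have h8 : ((x i : ℝ) : ℂ) = 0 := congrFun h0 i
    exact Complex.ofReal_eq_zero.1 h8
  have h5 := h.dotProduct_mulVec_pos hx'
  have h6 : star (fun i => (x i : ℂ)) ⬝ᵥ (((1 / 4 : ℝ) • A).map (algebraMap ℝ ℂ)).mulVec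
      (fun i => (x i : ℂ)) = (((1 / 4) * (star x ⬝ᵥ A.mulVec x) : ℝ) : ℂ) := by
    simp only [dotProduct, Matrix.mulVec, Pi.star_apply, Matrix.map_apply, Matrix.smul_apply,
      smul_eq_mul, Complex.coe_algebraMap, star_trivial, Finset.mul_sum, Complex.ofReal_sum,
      Complex.ofReal_mul, RCLike.star_def, Complex.conj_ofReal]
    refine Finset.sum_congr rfl fun i _ => Finset.sum_congr rfl fun j _ => ?_
    ring
  rw [h6] at h5
  have h7 : 0 < (1 / 4) * (star x ⬝ᵥ A.mulVec x) := by exact_mod_cast h5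
  linarith

theorem det_map_re {n : ℕ} (A : Matrix (Fin n) (Fin n) ℝ) :
    (A.map (fun r => (((1 / 4 : ℝ) * r : ℝ) : ℂ))).det.re = (1 / 4) ^ n * A.det := by
  have hmap : A.map (fun r => (((1 / 4 : ℝ) * r : ℝ) : ℂ)) =
      ((1 / 4 : ℝ) • A).map (algebraMap ℝ ℂ) := by
    ext i j
    simp
  rw [hmap]
  have h1 : (((1 / 4 : ℝ) • A).map (algebraMap ℝ ℂ)).det =
      algebraMap ℝ ℂ ((1 / 4 : ℝ) • A).det :=
    (RingHom.map_det (algebraMap ℝ ℂ) ((1 / 4 : ℝ) • A)).symm
  rw [h1, Complex.coe_algebraMap, Complex.ofReal_re, Matrix.det_smul, Fintype.card_fin]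

end Pool.Agent.LibTK94
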