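import Pool.Agent.LibTK94.Cplx

/-!
# Row C4a: a function with vanishing second derivative is affine

Plan.  `D2 W x a b` is bilinear, so it vanishes for all `a, b` (expand `a`, `b` in the basis
`EuclideanSpace.single j 1`, e.g. with `EuclideanSpace.basisFun`); then `fderiv ℝ (fderiv ℝ W) x = 0`, so `fderiv ℝ W`
is constant (`is_const_of_fderiv_eq_zero`; `fderiv ℝ W` is differentiable as `W` is `C²`), `W x - fderiv W 0 x` has
derivative `0`, so it is constant; `b = (InnerProductSpace.toDual ℝ (V n)).symm (fderiv ℝ W 0)`.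
-/

set_option autoImplicit false

open MeasureTheory
open scoped InnerProductSpace ComplexOrder

namespace Pool.Agent.LibTK94

theorem affine_of_D2 {n : ℕ} {W : V n → ℝ} (hW : ContDiff ℝ 2 W)
    (h : ∀ x (j k : Fin n), D2 W x (EuclideanSpace.single j 1) (EuclideanSpace.single k 1) = 0) :
    ∃ (b : V n) (a : ℝ), ∀ x, W x = ⟪b, x⟫_ℝ + a := by
  have hb : ∀ {F : Type} [NormedAddCommGroup F] [NormedSpace ℝ F] (L : V n →L[ℝ] F),
      (∀ j : Fin n, L (EuclideanSpace.single j 1) = 0) → L = 0 := by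
    intro F _ _ L hL
    apply ContinuousLinearMap.coe_injective
    refine (EuclideanSpace.basisFun (Fin n) ℝ).toBasis.ext fun j => ?_
    rw [OrthonormalBasis.coe_toBasis, EuclideanSpace.basisFun_apply]
    exact hL j
  have h2 : ∀ x, fderiv ℝ (fderiv ℝ W) x = 0 := by
    intro x
    refine hb _ fun j => hb _ fun k => ?_
    exact h x j k
  have hd1 : ContDiff ℝ 1 (fderiv ℝ W) := hW.fderiv_right (by norm_num)
  have hc : ∀ x, fderiv ℝ W x = fderiv ℝ W 0 := fun x =>
    is_const_of_fderiv_eq_zero (hd1.differentiable (by norm_num)) h2 x 0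
  have hWd : Differentiable ℝ W := hW.differentiable (by norm_num)
  have hdiff : Differentiable ℝ (fun x => W x - fderiv ℝ W 0 x) :=
    hWd.sub (fderiv ℝ W 0).differentiable
  have hz : ∀ x, fderiv ℝ (fun x => W x - fderiv ℝ W 0 x) x = 0 := by
    intro x
    have e1 : HasFDerivAt (fun x => W x - fderiv ℝ W 0 x) (fderiv ℝ W x - fderiv ℝ W 0) x :=
      (hWd x).hasFDerivAt.sub (fderiv ℝ W 0).hasFDerivAt
    rw [e1.fderiv, hc x, sub_self]
  refine ⟨(InnerProductSpace.toDual ℝ (V n)).symm (fderiv ℝ W 0), W 0, fun x => ?_⟩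
  have h3 := is_const_of_fderiv_eq_zero hdiff hz x 0
  simp only [map_zero, sub_zero] at h3
  rw [InnerProductSpace.toDual_symm_apply]
  linarith

end Pool.Agent.LibTK94
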