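import Pool.Agent.LibTK94.Defs

/-!
# Elementary facts on `lse` and `bb`
-/

set_option autoImplicit false

open MeasureTheory
open scoped InnerProductSpace

namespace Pool.Agent.LibTK94

variable {n : ℕ} {M : Finset (V n)}

theorem sum_exp_pos (hM : M.Nonempty) (x : V n) :
    0 < ∑ m ∈ M, Real.exp (2 * ⟪m, x⟫_ℝ) :=
  Finset.sum_pos (fun _ _ => Real.exp_pos _) hM

theorem le_lse {m : V n} (hm : m ∈ M) (x : V n) : ⟪m, x⟫_ℝ ≤ lse M x := by
  unfold lse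
  have h1 : Real.exp (2 * ⟪m, x⟫_ℝ) ≤ ∑ m ∈ M, Real.exp (2 * ⟪m, x⟫_ℝ) :=
    Finset.single_le_sum (f := fun m => Real.exp (2 * ⟪m, x⟫_ℝ))
      (fun _ _ => (Real.exp_pos _).le) hm
  have h2 := Real.log_le_log (Real.exp_pos _) h1
  rw [Real.log_exp] at h2
  linarith

theorem lse_le (hM : M.Nonempty) {x : V n} {t : ℝ} (h : ∀ m ∈ M, ⟪m, x⟫_ℝ ≤ t) :
    lse M x ≤ t + (1 / 2) * Real.log (M.card : ℝ) := by
  unfold lse
  have h1 : ∑ m ∈ M, Real.exp (2 * ⟪m, x⟫_ℝ) ≤ (M.card : ℝ) * Real.exp (2 * t) := by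
    have := Finset.sum_le_card_nsmul M (fun m => Real.exp (2 * ⟪m, x⟫_ℝ)) (Real.exp (2 * t))
      (fun m hm => Real.exp_le_exp.mpr (by linarith [h m hm]))
    simpa [nsmul_eq_mul] using this
  have hc : (0 : ℝ) < M.card := by exact_mod_cast hM.card_pos
  have h2 := Real.log_le_log (sum_exp_pos hM x) h1
  rw [Real.log_mul hc.ne' (Real.exp_pos _).ne', Real.log_exp] at h2
  linarith

theorem exp_lse (hM : M.Nonempty) (x : V n) :
    Real.exp (2 * lse M x) = ∑ m ∈ M, Real.exp (2 * ⟪m, x⟫_ℝ) := by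
  unfold lse
  rw [show 2 * (1 / 2 * Real.log (∑ m ∈ M, Real.exp (2 * ⟪m, x⟫_ℝ)))
    = Real.log (∑ m ∈ M, Real.exp (2 * ⟪m, x⟫_ℝ)) by ring, Real.exp_log (sum_exp_pos hM x)]

theorem bb_pos (m x : V n) : 0 < bb M m x := Real.exp_pos _

theorem bb_le_one {m : V n} (hm : m ∈ M) (x : V n) : bb M m x ≤ 1 := by
  unfold bb
  rw [Real.exp_le_one_iff]
  linarith [le_lse hm x]

theorem sum_bb_sq (hM : M.Nonempty) (x : V n) : ∑ m ∈ M, bb M m x ^ 2 = 1 := by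
  have h : ∀ m ∈ M, bb M m x ^ 2 = Real.exp (2 * ⟪m, x⟫_ℝ) * (Real.exp (2 * lse M x))⁻¹ := by
    intro m _
    unfold bb
    rw [← Real.exp_nat_mul, ← Real.exp_neg, ← Real.exp_add]
    congr 1
    push_cast
    ring
  rw [Finset.sum_congr rfl h, ← Finset.sum_mul, exp_lse hM x]
  exact mul_inv_cancel₀ (sum_exp_pos hM x).ne'

theorem log_bb (m x : V n) : Real.log (bb M m x) = ⟪m, x⟫_ℝ - lse M x := by
  unfold bb
  rw [Real.log_exp]

/-- A maximiser `m0` of `⟨m, x⟩` has `bb M m0 x ≥ 1/|M|`. -/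
theorem exists_max (hM : M.Nonempty) (x : V n) :
    ∃ m0 ∈ M, ∀ m ∈ M, ⟪m, x⟫_ℝ ≤ ⟪m0, x⟫_ℝ :=
  Finset.exists_max_image M (fun m => ⟪m, x⟫_ℝ) hM

theorem bb_max_ge (hM : M.Nonempty) {x m0 : V n} (h : ∀ m ∈ M, ⟪m, x⟫_ℝ ≤ ⟪m0, x⟫_ℝ) :
    Real.exp (-((1 / 2) * Real.log (M.card : ℝ))) ≤ bb M m0 x := by
  unfold bb
  rw [Real.exp_le_exp]
  linarith [lse_le hM h]

/-- The euclidean distance of the unit vectors `(bb M m x)_m` and `(bb M m y)_m`. -/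
noncomputable def bd (M : Finset (V n)) (x y : V n) : ℝ :=
  Real.sqrt (∑ m ∈ M, (bb M m x - bb M m y) ^ 2)

theorem bd_nonneg (x y : V n) : 0 ≤ bd M x y := Real.sqrt_nonneg _

theorem bd_symm (x y : V n) : bd M x y = bd M y x := by
  unfold bd
  congr 1
  refine Finset.sum_congr rfl fun m _ => ?_
  ring

theorem abs_bb_sub_le {m : V n} (hm : m ∈ M) (x y : V n) :
    |bb M m x - bb M m y| ≤ bd M x y := by
  unfold bd
  rw [← Real.sqrt_sq_eq_abs]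
  refine Real.sqrt_le_sqrt ?_
  exact Finset.single_le_sum (f := fun m => (bb M m x - bb M m y) ^ 2)
    (fun _ _ => sq_nonneg _) hm

/-- `bd M x y = 0` only for `x = y`. -/
theorem eq_of_bd (hS : Spans M) {x y : V n} (h : bd M x y = 0) : x = y := by
  have h1 : ∀ m ∈ M, ⟪m, x⟫_ℝ - lse M x = ⟪m, y⟫_ℝ - lse M y := by
    intro m hm
    have h2 : |bb M m x - bb M m y| ≤ 0 := h ▸ abs_bb_sub_le hm x y
    have h3 : bb M m x = bb M m y := by
      have := abs_nonpos_iff.mp h2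
      linarith
    rw [← log_bb, ← log_bb, h3]
  have h4 : x - y = 0 := by
    refine hS (x - y) fun m hm m' hm' => ?_
    have e1 := h1 m hm
    have e2 := h1 m' hm'
    rw [inner_sub_left, inner_sub_right, inner_sub_right]
    linarith
  exact sub_eq_zero.mp h4

/-- Elements of the convex hull pair with `x` at most as much as the best element of `M`. -/
theorem inner_le_of_hull {F : Finset (V n)} {p z : V n} {t : ℝ}
    (hp : p ∈ convexHull ℝ (F : Set (V n))) (h : ∀ m ∈ F, ⟪m, z⟫_ℝ ≤ t) : ⟪p, z⟫_ℝ ≤ t := by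
  have hc : Convex ℝ {q : V n | ⟪q, z⟫_ℝ ≤ t} := by
    intro a ha b hb r s hr hs hrs
    have ha' : ⟪a, z⟫_ℝ ≤ t := ha
    have hb' : ⟪b, z⟫_ℝ ≤ t := hb
    show ⟪r • a + s • b, z⟫_ℝ ≤ t
    rw [inner_add_left, inner_smul_left, inner_smul_left]
    simp only [RCLike.conj_to_real]
    have h1 := mul_le_mul_of_nonneg_left ha' hr
    have h2 := mul_le_mul_of_nonneg_left hb' hs
    have h3 : r * t + s * t = t := by rw [← add_mul, hrs, one_mul]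
    linarith
  exact convexHull_min (fun m hm => h m (Finset.mem_coe.mp hm)) hc hp

/-- Monotonicity of the gradient. -/
theorem Pot.mono {u : V n → ℝ} {G : V n → V n} (hP : Pot M u G) (x y : V n) :
    0 ≤ ⟪G y - G x, y - x⟫_ℝ := by
  have h1 := hP.sub x y
  have h2 := hP.sub y x
  have h3 : ⟪G y, x - y⟫_ℝ = - ⟪G y, y - x⟫_ℝ := by
    rw [← inner_neg_right, neg_sub]
  rw [inner_sub_left]
  linarith

/-- `v = u - ⟨m0, ·⟩` does not increase in the direction of `ζ` if `⟨m - m0, ζ⟩ ≤ 0` on `M`. -/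
theorem Pot.descend_le {u : V n → ℝ} {G : V n → V n} (hP : Pot M u G) {m0 x ζ : V n}
    (h : ∀ m ∈ M, ⟪m - m0, ζ⟫_ℝ ≤ 0) :
    u (x + ζ) - ⟪m0, x + ζ⟫_ℝ ≤ u x - ⟪m0, x⟫_ℝ := by
  have h1 := hP.sub (x + ζ) x
  have h2 : ⟪G (x + ζ), ζ⟫_ℝ ≤ ⟪m0, ζ⟫_ℝ := by
    refine inner_le_of_hull (hP.hull (x + ζ)) fun m hm => ?_
    have := h m hm
    rw [inner_sub_left] at this
    linarith
  have h3 : x - (x + ζ) = -ζ := by abel
  rw [h3, inner_neg_right] at h1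
  rw [inner_add_right]
  linarith

/-- `u - ⟨m0, ·⟩` is Lipschitz. -/
theorem Pot.lip {u : V n → ℝ} {G : V n → V n} (hP : Pot M u G) {D : ℝ} {m0 : V n}
    (hD : ∀ m ∈ M, ‖m - m0‖ ≤ D) (x τ : V n) :
    u x - ⟪m0, x⟫_ℝ - D * ‖τ‖ ≤ u (x + τ) - ⟪m0, x + τ⟫_ℝ := by
  have h1 := hP.sub x (x + τ)
  rw [add_sub_cancel_left] at h1
  have h2 : ⟪G x, -τ⟫_ℝ ≤ ⟪m0, -τ⟫_ℝ + D * ‖τ‖ := by
    refine inner_le_of_hull (hP.hull x) fun m hm => ?_
    have h3 : ⟪m - m0, -τ⟫_ℝ ≤ ‖m - m0‖ * ‖-τ‖ := real_inner_le_norm _ _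
    rw [norm_neg] at h3
    have h4 : ‖m - m0‖ * ‖τ‖ ≤ D * ‖τ‖ := mul_le_mul_of_nonneg_right (hD m hm) (norm_nonneg _)
    rw [inner_sub_left] at h3
    linarith
  rw [inner_neg_right, inner_neg_right] at h2
  rw [inner_add_right]
  linarith

end Pool.Agent.LibTK94
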