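import Pool.Agent.LibTK94.Cplx

/-!
# Row C2: gradient and Hessian matrix of a `C²` function on `ℝⁿ`

Plan.  `gradient U x = (InnerProductSpace.toDual ℝ _).symm (fderiv ℝ U x)`: `HasGradientAt` / `HasFDerivAt` with
`innerSL ℝ (gradient U x) = fderiv ℝ U x`.  Its derivative is `toDual.symm ∘ fderiv (fderiv U) x`; compare with
`toEuclideanLin (Hm U x)` on basis vectors: the `j`-th coordinate of `toEuclideanLin (Hm U x) e` is
`∑ k, D2 U x (e_j) (e_k) * e k = D2 U x e_j e`, and the `j`-th coordinate of the derivative of the gradient in the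
direction `e` is `D2 U x e e_j`; they agree by symmetry (`ContDiffAt.isSymmSndFDerivAt`).
-/

set_option autoImplicit false

open MeasureTheory
open scoped InnerProductSpace ComplexOrder

namespace Pool.Agent.LibTK94

theorem reg_of_contDiff {n : ℕ} {U : V n → ℝ} (hU : ContDiff ℝ 2 U)
    (hpos : ∀ x, (Hm U x).PosDef) : Reg U (fun x => gradient U x) (Hm U) := by
  have h1 : Differentiable ℝ U := hU.differentiable (by norm_num)
  have h2 : Differentiable ℝ (fderiv ℝ U) :=
    (hU.fderiv_right (m := 1) (by norm_num)).differentiable (by norm_num)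
  have hgr : ∀ x, innerSL ℝ (gradient U x) = fderiv ℝ U x := by
    intro x
    ext v
    rw [innerSL_apply_apply]
    unfold gradient
    rw [InnerProductSpace.toDual_symm_apply]
  refine ⟨fun x => ?_, fun x => ?_, hpos⟩
  · rw [hgr]
    exact (h1 x).hasFDerivAt
  · rw [← hasFDerivWithinAt_univ, hasFDerivWithinAt_euclidean]
    intro i
    rw [hasFDerivWithinAt_univ]
    have hi : (fun x => (gradient U x) i) =
        fun x => fderiv ℝ U x (EuclideanSpace.single i (1 : ℝ)) := by
      funext y
      rw [← hgr, innerSL_apply_apply, EuclideanSpace.inner_single_right]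
      simp
    rw [hi]
    have h3 : HasFDerivAt (fun x => fderiv ℝ U x (EuclideanSpace.single i (1 : ℝ)))
        ((fderiv ℝ (fderiv ℝ U) x).flip (EuclideanSpace.single i (1 : ℝ))) x := by
      have h4 := (h2 x).hasFDerivAt.clm_apply (hasFDerivAt_const (EuclideanSpace.single i (1 : ℝ)) x)
      simpa using h4
    refine h3.congr_fderiv ?_
    have hsymm : IsSymmSndFDerivAt ℝ U x := hU.contDiffAt.isSymmSndFDerivAt (by simp)
    ext a
    have ha : a = ∑ k, a k • (EuclideanSpace.single k (1 : ℝ) : V n) := by
      ext j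
      simp [Finset.sum_apply, Pi.single_apply]
    have e1 : ((fderiv ℝ (fderiv ℝ U) x).flip (EuclideanSpace.single i (1 : ℝ))) a =
        ∑ k, Hm U x i k * a k := by
      rw [ContinuousLinearMap.flip_apply, hsymm a]
      conv_lhs => rw [ha]
      rw [map_sum]
      refine Finset.sum_congr rfl fun k _ => ?_
      rw [map_smul, smul_eq_mul, mul_comm]
      rfl
    rw [e1]
    simp [Matrix.toLpLin_apply, Matrix.mulVec, dotProduct]

end Pool.Agent.LibTK94
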