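import Pool.Agent.LibTK94.Basic

/-!
# Row A3: the hull has interior points and its balls have volume `≥ κ r^n`

Plan.  (1) `interior_nonempty`: `interior_convexHull_nonempty_iff_affineSpan_eq_top`; the affine span
of `M` is everything because otherwise the direction (a proper subspace) has a nonzero orthogonal
vector `x`, and then `⟪m - m', x⟫ = 0` for all `m, m' ∈ M`, contradicting `Spans`
(`Submodule.orthogonal_eq_bot_iff`, `direction_affineSpan`/`vectorSpan`).
(2) Let `ball q0 ρ ⊆ hull`, `ρ ≤ 1`, `D` with `‖a - b‖ ≤ D` for `a, b` in the hull (bounded),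
`s = r/(D + 2) ∈ (0,1)`.  For `p` in the hull the open ball `ball ((1-s)•p + s•q0) (s ρ)` is contained in
the hull (each point is `(1-s)•p + s•q'`, `q' ∈ ball q0 ρ`), hence in its interior, and in `ball p r`
(`s (D + ρ) < r`).  Its volume is `ofReal((s ρ)^n) * volume (ball 0 1)`
(`MeasureTheory.Measure.addHaar_ball_of_pos` / `addHaar_ball`, `finrank = n`), so
`κ = (ρ/(D+2))^n * (volume (ball 0 1)).toReal`.
-/

set_option autoImplicit false

open MeasureTheory
open scoped InnerProductSpace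

namespace Pool.Agent.LibTK94

theorem interior_nonempty {n : ℕ} {M : Finset (V n)} (hM : M.Nonempty) (hS : Spans M) :
    (interior (convexHull ℝ (M : Set (V n)))).Nonempty := by
  have hM' : (M : Set (V n)).Nonempty := hM
  rw [interior_convexHull_nonempty_iff_affineSpan_eq_top,
    AffineSubspace.affineSpan_eq_top_iff_vectorSpan_eq_top_of_nonempty ℝ (V n) (V n) hM',
    ← Submodule.orthogonal_eq_bot_iff, Submodule.eq_bot_iff]
  intro x hx
  refine hS x fun m hm m' hm' => ?_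
  have h1 : m -ᵥ m' ∈ vectorSpan ℝ (M : Set (V n)) :=
    vsub_mem_vectorSpan ℝ (Finset.mem_coe.2 hm) (Finset.mem_coe.2 hm')
  exact (Submodule.mem_orthogonal _ _).1 hx _ h1

private theorem Vol_sub {n : ℕ} {S : Set (V n)} (hS : Convex ℝ S) {q0 : V n} {ρ : ℝ} (hρ1 : ρ ≤ 1)
    (hb : Metric.ball q0 ρ ⊆ S) {D : ℝ} (hD0 : 0 ≤ D)
    (hD : ∀ a ∈ S, ∀ b ∈ S, dist a b ≤ D) (hρ : 0 < ρ) {p : V n} (hp : p ∈ S) {r : ℝ} (hr : 0 < r)
    (hr1 : r ≤ 1) :
    Metric.ball ((1 - r / (D + 2)) • p + (r / (D + 2)) • q0) (r / (D + 2) * ρ) ⊆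
      interior S ∩ Metric.ball p r := by
  set s : ℝ := r / (D + 2) with hs
  have hD2 : 0 < D + 2 := by linarith
  have hs0 : 0 < s := div_pos hr hD2
  have hs1 : s ≤ 1 := by
    rw [hs, div_le_one hD2]
    linarith
  have hsr : s * (D + 2) = r := div_mul_cancel₀ _ hD2.ne'
  have hq0 : q0 ∈ S := hb (Metric.mem_ball_self hρ)
  have h1 : Metric.ball ((1 - s) • p + s • q0) (s * ρ) ⊆ S := by
    intro y hy
    rw [Metric.mem_ball, dist_eq_norm] at hy
    have hq' : q0 + s⁻¹ • (y - ((1 - s) • p + s • q0)) ∈ S := by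
      apply hb
      rw [Metric.mem_ball, dist_eq_norm, add_sub_cancel_left, norm_smul, norm_inv,
        Real.norm_of_nonneg hs0.le, inv_mul_lt_iff₀ hs0]
      exact hy
    have h2 := hS hp hq' (by linarith : (0 : ℝ) ≤ 1 - s) hs0.le (by ring)
    rw [smul_add, smul_smul, mul_inv_cancel₀ hs0.ne', one_smul] at h2
    have h3 : (1 - s) • p + (s • q0 + (y - ((1 - s) • p + s • q0))) = y := by abel
    rwa [h3] at h2
  refine Set.subset_inter (interior_maximal h1 Metric.isOpen_ball) ?_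
  intro y hy
  rw [Metric.mem_ball, dist_eq_norm] at hy ⊢
  have h2 : y - p = (y - ((1 - s) • p + s • q0)) + s • (q0 - p) := by
    rw [sub_smul, one_smul, smul_sub]
    abel
  have h3 : ‖q0 - p‖ ≤ D := by
    rw [← dist_eq_norm]
    exact hD q0 hq0 p hp
  rw [h2]
  calc ‖y - ((1 - s) • p + s • q0) + s • (q0 - p)‖
      ≤ ‖y - ((1 - s) • p + s • q0)‖ + ‖s • (q0 - p)‖ := norm_add_le _ _
    _ < s * ρ + s * D := by
        rw [norm_smul, Real.norm_of_nonneg hs0.le]
        exact add_lt_add_of_lt_of_le hy (mul_le_mul_of_nonneg_left h3 hs0.le)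
    _ ≤ r := by nlinarith

theorem vol_ge {n : ℕ} {M : Finset (V n)} (hM : M.Nonempty) (hS : Spans M) :
    ∃ κ > (0 : ℝ), ∀ p ∈ convexHull ℝ (M : Set (V n)), ∀ r : ℝ, 0 < r → r ≤ 1 →
      ENNReal.ofReal (κ * r ^ n) ≤
        volume (interior (convexHull ℝ (M : Set (V n))) ∩ Metric.ball p r) := by
  obtain ⟨q0, hq0⟩ := interior_nonempty hM hS
  obtain ⟨ρ0, hρ0, hball⟩ := Metric.isOpen_iff.1 isOpen_interior q0 hq0
  have hbd : Bornology.IsBounded (convexHull ℝ (M : Set (V n))) :=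
    (Set.Finite.isCompact_convexHull (𝕜 := ℝ) M.finite_toSet).isBounded
  obtain ⟨D0, hD0⟩ := Metric.isBounded_iff.1 hbd
  set D : ℝ := max D0 0 with hDdef
  set ρ : ℝ := min ρ0 1 with hρdef
  have hρ : 0 < ρ := lt_min hρ0 one_pos
  have hD : ∀ a ∈ convexHull ℝ (M : Set (V n)), ∀ b ∈ convexHull ℝ (M : Set (V n)),
      dist a b ≤ D := fun a ha b hb => (hD0 ha hb).trans (le_max_left _ _)
  have hDn : 0 ≤ D := le_max_right _ _
  have hb : Metric.ball q0 ρ ⊆ convexHull ℝ (M : Set (V n)) :=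
    (Metric.ball_subset_ball (min_le_left _ _)).trans (hball.trans interior_subset)
  have hv0 : volume (Metric.ball (0 : V n) 1) ≠ 0 := (Metric.measure_ball_pos _ _ one_pos).ne'
  have hvt : volume (Metric.ball (0 : V n) 1) ≠ ⊤ := measure_ball_lt_top.ne
  refine ⟨(ρ / (D + 2)) ^ n * (volume (Metric.ball (0 : V n) 1)).toReal,
    mul_pos (pow_pos (div_pos hρ (by linarith)) _) (ENNReal.toReal_pos hv0 hvt), ?_⟩
  intro p hp r hr hr1
  have h1 := Vol_sub (convex_convexHull ℝ _) (min_le_right _ _) hb hDn hD hρ hp hr hr1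
  have hsρ : 0 < r / (D + 2) * ρ := mul_pos (div_pos hr (by linarith)) hρ
  refine le_trans (le_of_eq ?_) (measure_mono h1)
  rw [Measure.addHaar_ball_of_pos _ _ hsρ, finrank_euclideanSpace_fin]
  have h2 : (ρ / (D + 2)) ^ n * (volume (Metric.ball (0 : V n) 1)).toReal * r ^ n =
      (r / (D + 2) * ρ) ^ n * (volume (Metric.ball (0 : V n) 1)).toReal := by
    have h3 : r / (D + 2) * ρ = ρ / (D + 2) * r := by ring
    rw [h3, mul_pow]
    ring
  rw [h2, ENNReal.ofReal_mul (pow_nonneg hsρ.le _), ENNReal.ofReal_toReal hvt]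

end Pool.Agent.LibTK94
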