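import Pool.Agent.LibTK94.Basic

/-!
# Row A1b: the gradient lies in the convex hull

Plan.  By contradiction: the hull of a finite set is compact and convex; `geometric_hahn_banach_closed_point`
(or `..._point_closed`) separates `G x` from it: there are a continuous linear `ℓ = ⟪y, ·⟫`
(`InnerProductSpace.toDual`) and `s` with `⟪m, y⟫ ≤ s < ⟪G x, y⟫` for `m ∈ M`.  For `t ≥ 0`:
`u x + t ⟪G x, y⟫ ≤ u (x + t•y) ≤ lse M (x + t•y) + C0 ≤ (max_m ⟪m,x⟫) + t s + (1/2) log |M| + C0`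
(`lse_le`), contradiction for large `t`.
-/

set_option autoImplicit false

open MeasureTheory
open scoped InnerProductSpace

namespace Pool.Agent.LibTK94

theorem hull_of_sub {n : ℕ} {M : Finset (V n)} (hM : M.Nonempty) {u : V n → ℝ}
    {G : V n → V n} (hsub : ∀ x y, u x + ⟪G x, y - x⟫_ℝ ≤ u y) {C0 : ℝ}
    (hB : ∀ x, u x ≤ lse M x + C0) (x : V n) : G x ∈ convexHull ℝ (M : Set (V n)) := by
  by_contra hx
  have hc : IsClosed (convexHull ℝ (M : Set (V n))) :=
    (M.finite_toSet.isCompact_convexHull (𝕜 := ℝ)).isClosed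
  obtain ⟨f, s, hfs, hsf⟩ := geometric_hahn_banach_closed_point (convex_convexHull ℝ _) hc hx
  obtain ⟨y, hy⟩ : ∃ y : V n, ∀ a, ⟪a, y⟫_ℝ = f a :=
    ⟨(InnerProductSpace.toDual ℝ (V n)).symm f, fun a => by
      rw [real_inner_comm, InnerProductSpace.toDual_symm_apply]⟩
  have hs : ∀ m ∈ M, ⟪m, y⟫_ℝ ≤ s := fun m hm => by
    rw [hy]
    exact (hfs m (subset_convexHull ℝ _ (Finset.mem_coe.2 hm))).le
  have hG : s < ⟪G x, y⟫_ℝ := by
    rw [hy]
    exact hsf
  obtain ⟨m0, hm0, hmax⟩ := exists_max hM x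
  have key : ∀ t : ℝ, 0 ≤ t → t * (⟪G x, y⟫_ℝ - s) ≤
      ⟪m0, x⟫_ℝ + (1 / 2) * Real.log (M.card : ℝ) + C0 - u x := by
    intro t ht
    have h1 := hsub x (x + t • y)
    rw [add_sub_cancel_left, inner_smul_right] at h1
    have h2 := hB (x + t • y)
    have h3 : lse M (x + t • y) ≤ (⟪m0, x⟫_ℝ + t * s) + (1 / 2) * Real.log (M.card : ℝ) := by
      refine lse_le hM fun m hm => ?_
      rw [inner_add_right, inner_smul_right]
      have h4 := hmax m hm
      have h5 := mul_le_mul_of_nonneg_left (hs m hm) ht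
      linarith
    rw [mul_sub]
    linarith
  obtain ⟨A, hA⟩ : ∃ A, A = ⟪m0, x⟫_ℝ + (1 / 2) * Real.log (M.card : ℝ) + C0 - u x := ⟨_, rfl⟩
  have hδ : 0 < ⟪G x, y⟫_ℝ - s := by linarith
  have h1 := key ((|A| + 1) / (⟪G x, y⟫_ℝ - s)) (by positivity)
  rw [← hA, div_mul_cancel₀ _ hδ.ne'] at h1
  have h2 := le_abs_self A
  linarith

end Pool.Agent.LibTK94
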