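import Pool.Agent.LibTK94.Basic

/-!
# Row A2: every interior point of the hull is a value of the gradient

Plan.  Let `ball q ρ ⊆ convexHull M` (`ρ > 0`).  For every `x`: `⟪q, x⟫ + (ρ/2) ‖x‖ ≤ max_m ⟪m,x⟫ ≤ lse M x`
(the point `q + (ρ/2) x/‖x‖` is in the hull; `inner_le_of_hull` with `t = lse M x`, `le_lse`).  So
`v x = u x - ⟪q, x⟫ ≥ (ρ/2) ‖x‖ - C0` is continuous and tends to infinity
(`Filter.Tendsto ... (Filter.cocompact _) Filter.atTop`), hence has a minimum `y`
(`Continuous.exists_forall_le`), where the derivative `innerSL (G y - q)` vanishes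
(`IsLocalMin.hasFDerivAt_eq_zero`), so `G y = q`.
-/

set_option autoImplicit false

open MeasureTheory
open scoped InnerProductSpace

namespace Pool.Agent.LibTK94

theorem surj_of_interior {n : ℕ} {M : Finset (V n)} (hM : M.Nonempty) {u : V n → ℝ}
    {G : V n → V n} (hd : ∀ x, HasFDerivAt u (innerSL ℝ (G x)) x) {C0 : ℝ}
    (hB : ∀ x, lse M x - C0 ≤ u x) {q : V n}
    (hq : q ∈ interior (convexHull ℝ (M : Set (V n)))) : ∃ y, G y = q := by
  obtain ⟨ρ, hρ, hball⟩ := Metric.mem_nhds_iff.1 (mem_interior_iff_mem_nhds.1 hq)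
  have h1 : ∀ x : V n, ⟪q, x⟫_ℝ + ρ / 2 * ‖x‖ ≤ lse M x := by
    intro x
    by_cases hx : x = 0
    · rw [hx, norm_zero, mul_zero, add_zero]
      exact inner_le_of_hull (interior_subset hq) fun m hm => le_lse hm 0
    · have hx0 : 0 < ‖x‖ := norm_pos_iff.2 hx
      have hp : q + (ρ / 2 / ‖x‖) • x ∈ convexHull ℝ (M : Set (V n)) := by
        apply hball
        rw [Metric.mem_ball, dist_eq_norm, add_sub_cancel_left, norm_smul, Real.norm_eq_abs,
          abs_of_pos (by positivity)]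
        have : ρ / 2 / ‖x‖ * ‖x‖ = ρ / 2 := div_mul_cancel₀ _ hx0.ne'
        rw [this]
        linarith
      have h2 := inner_le_of_hull hp (z := x) (t := lse M x) fun m hm => le_lse hm x
      rw [inner_add_left, inner_smul_left, real_inner_self_eq_norm_sq] at h2
      simp only [RCLike.conj_to_real] at h2
      have h3 : ρ / 2 / ‖x‖ * ‖x‖ ^ 2 = ρ / 2 * ‖x‖ := by
        field_simp
      rw [h3] at h2
      exact h2
  have hlow : ∀ x : V n, ρ / 2 * ‖x‖ - C0 ≤ u x - ⟪q, x⟫_ℝ := by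
    intro x
    have h2 := h1 x
    have h3 := hB x
    linarith
  have hder : ∀ x : V n, HasFDerivAt (fun x => u x - ⟪q, x⟫_ℝ) (innerSL ℝ (G x) - innerSL ℝ q) x := by
    intro x
    exact (hd x).sub (innerSL ℝ q).hasFDerivAt
  have hcont : Continuous fun x : V n => u x - ⟪q, x⟫_ℝ :=
    continuous_iff_continuousAt.2 fun x => (hder x).continuousAt
  have hlim : Filter.Tendsto (fun x : V n => u x - ⟪q, x⟫_ℝ) (Filter.cocompact (V n)) Filter.atTop := by
    refine Filter.tendsto_atTop_mono hlow ?_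
    exact Filter.tendsto_atTop_add_const_right _ _
      (Filter.Tendsto.const_mul_atTop (by positivity) (tendsto_norm_cocompact_atTop (E := V n)))
  obtain ⟨y, hy⟩ := hcont.exists_forall_le hlim
  refine ⟨y, ?_⟩
  have hmin : IsLocalMin (fun x : V n => u x - ⟪q, x⟫_ℝ) y := Filter.Eventually.of_forall hy
  have h2 := hmin.hasFDerivAt_eq_zero (hder y)
  have h3 := congrArg (fun f : V n →L[ℝ] ℝ => f (G y - q)) h2
  have h4 : ⟪G y, G y - q⟫_ℝ - ⟪q, G y - q⟫_ℝ = 0 := h3
  rw [← inner_sub_left, real_inner_self_eq_norm_sq] at h4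
  exact sub_eq_zero.1 (norm_eq_zero.1 (pow_eq_zero_iff two_ne_zero |>.1 h4))

end Pool.Agent.LibTK94
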