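import Pool.Agent.LibTK94.Sub
import Pool.Agent.LibTK94.Hull
import Pool.Agent.LibTK94.Surj
import Pool.Agent.LibTK94.Vol

/-!
# Row A4/A6: total Monge-Ampere mass, and `Tail` from an exponentially small mass of the tail

Plan.  `(toContinuousLinearMap (toEuclideanLin (H x))).det = (H x).det` (`LinearMap.det_toContinuousLinearMap`
or `ContinuousLinearMap.det`, `Matrix.toEuclideanLin = toLin` for the standard orthonormal basis,
`LinearMap.det_toLin`), positive by `PosDef.det_pos`, so `ENNReal.ofReal |det| = ENNReal.ofReal (H x).det`.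
(1) `total_mass`: `MeasureTheory.lintegral_abs_det_fderiv_eq_addHaar_image volume MeasurableSet.univ` with `inj_of_reg`
gives `∫⁻ = volume (range G) ≤ volume (convexHull M) < ⊤` (`hull_of_sub`, bounded set).
(2) `tail_of_mass`: let `κ` from `vol_ge`, `p` in the hull, `0 < r ≤ 1`, `R ≥ 0` with
`∀ y, dist (G y) p < r → R ≤ ‖y‖`.  `interior hull ∩ ball p r ⊆ G '' {y | R ≤ ‖y‖}` by `surj_of_interior`, so
`ofReal (κ r^n) ≤ volume (G '' {R ≤ ‖y‖}) ≤ ∫⁻ y in {R ≤ ‖y‖}, ofReal |det| ≤ ofReal (C exp(-(ε R)))`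
(`MeasureTheory.addHaar_image_le_lintegral_abs_det_fderiv`).
Hence `κ r^n ≤ max (C exp ..) 0`; constants `C' = |C|/κ + 1`, `ε`.
-/

set_option autoImplicit false

open MeasureTheory
open scoped InnerProductSpace

namespace Pool.Agent.LibTK94

private theorem Area_det {n : ℕ} (A : Matrix (Fin n) (Fin n) ℝ) :
    (LinearMap.toContinuousLinearMap (Matrix.toEuclideanLin A)).det = A.det := by
  show LinearMap.det (Matrix.toEuclideanLin A) = A.det
  rw [Matrix.toEuclideanLin_eq_toLin_orthonormal, LinearMap.det_toLin]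

private theorem Area_abs {n : ℕ} {A : Matrix (Fin n) (Fin n) ℝ} (hA : A.PosDef) :
    ENNReal.ofReal |(LinearMap.toContinuousLinearMap (Matrix.toEuclideanLin A)).det|
      = ENNReal.ofReal A.det := by
  rw [Area_det, abs_of_pos hA.det_pos]

private theorem Area_image {n : ℕ} {u : V n → ℝ} {G : V n → V n}
    {H : V n → Matrix (Fin n) (Fin n) ℝ} (hR : Reg u G H) {s : Set (V n)}
    (hs : MeasurableSet s) :
    ∫⁻ y in s, ENNReal.ofReal (H y).det = volume (G '' s) := by
  rw [← lintegral_abs_det_fderiv_eq_addHaar_image volume hs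
    (fun x _ => (hR.hess x).hasFDerivWithinAt) ((inj_of_reg hR).injOn)]
  refine lintegral_congr fun y => ?_
  exact (Area_abs (hR.pos y)).symm

theorem total_mass {n : ℕ} {M : Finset (V n)} (hM : M.Nonempty) {u : V n → ℝ} {G : V n → V n}
    {H : V n → Matrix (Fin n) (Fin n) ℝ} (hR : Reg u G H) {C0 : ℝ}
    (hB : ∀ x, u x ≤ lse M x + C0) : ∫⁻ y, ENNReal.ofReal (H y).det < ⊤ := by
  have h1 := Area_image hR MeasurableSet.univ
  rw [Measure.restrict_univ] at h1
  rw [h1]
  have h2 : G '' Set.univ ⊆ convexHull ℝ (M : Set (V n)) := by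
    rintro _ ⟨x, _, rfl⟩
    exact hull_of_sub hM (sub_of_reg hR) hB x
  refine lt_of_le_of_lt (measure_mono h2) ?_
  exact (M.finite_toSet.isCompact_convexHull (𝕜 := ℝ)).measure_lt_top

theorem tail_of_mass {n : ℕ} {M : Finset (V n)} (hM : M.Nonempty) (hS : Spans M) {u : V n → ℝ}
    {G : V n → V n} {H : V n → Matrix (Fin n) (Fin n) ℝ} (hR : Reg u G H) {C0 : ℝ}
    (hB : ∀ x, |u x - lse M x| ≤ C0) {C ε : ℝ} (hε : 0 < ε)
    (hmass : ∀ R : ℝ, 0 ≤ R → ∫⁻ y in {y : V n | R ≤ ‖y‖}, ENNReal.ofReal (H y).det ≤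
      ENNReal.ofReal (C * Real.exp (-(ε * R)))) : Tail M G n := by
  obtain ⟨κ, hκ, hvol⟩ := vol_ge hM hS
  refine ⟨|C| / κ + 1, by positivity, ε, hε, ?_⟩
  intro p hp r hr hr1 R hR0 hfar
  have hB' : ∀ x, lse M x - C0 ≤ u x := by
    intro x
    have := (abs_le.1 (hB x)).1
    linarith
  have hms : MeasurableSet {y : V n | R ≤ ‖y‖} :=
    (isClosed_le continuous_const continuous_norm).measurableSet
  have hsub : interior (convexHull ℝ (M : Set (V n))) ∩ Metric.ball p r
      ⊆ G '' {y : V n | R ≤ ‖y‖} := by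
    rintro q ⟨hq1, hq2⟩
    obtain ⟨y, hy⟩ := surj_of_interior hM hR.grad hB' hq1
    refine ⟨y, ?_, hy⟩
    refine hfar y ?_
    rw [hy]
    exact hq2
  have h1 : ENNReal.ofReal (κ * r ^ n) ≤ ENNReal.ofReal (C * Real.exp (-(ε * R))) :=
    calc ENNReal.ofReal (κ * r ^ n)
        ≤ volume (interior (convexHull ℝ (M : Set (V n))) ∩ Metric.ball p r) := hvol p hp r hr hr1
      _ ≤ volume (G '' {y : V n | R ≤ ‖y‖}) := measure_mono hsub
      _ = ∫⁻ y in {y : V n | R ≤ ‖y‖}, ENNReal.ofReal (H y).det := (Area_image hR hms).symm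
      _ ≤ _ := hmass R hR0
  have hpos : 0 < κ * r ^ n := by positivity
  have h2 : κ * r ^ n ≤ C * Real.exp (-(ε * R)) := by
    rcases (ENNReal.ofReal_le_ofReal_iff').1 h1 with h | h
    · exact h
    · linarith
  have he : 0 < Real.exp (-(ε * R)) := Real.exp_pos _
  have h3 : κ * r ^ n ≤ |C| * Real.exp (-(ε * R)) :=
    h2.trans (mul_le_mul_of_nonneg_right (le_abs_self C) he.le)
  have h4 : r ^ n ≤ |C| / κ * Real.exp (-(ε * R)) := by
    rw [div_mul_eq_mul_div, le_div_iff₀ hκ]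
    linarith
  calc r ^ n ≤ |C| / κ * Real.exp (-(ε * R)) := h4
    _ ≤ (|C| / κ + 1) * Real.exp (-(ε * R)) := by
      apply mul_le_mul_of_nonneg_right _ he.le
      linarith

end Pool.Agent.LibTK94
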