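import Pool.Agent.LibTK94.Fin

/-!
# Both theorems on the torus
-/

set_option autoImplicit false

open MeasureTheory
open scoped InnerProductSpace ComplexOrder

namespace Pool.Agent.LibTK94

/-- The potential relative to the Fubini–Study metric: `Φ - c log ‖Z‖²`. -/
noncomputable def rel {n : ℕ} (S : Finset (Fin n → ℤ)) (c : ℝ) (Φ : (Fin n → ℂ) → ℝ)
    (w : Fin n → ℂ) : ℝ :=
  Φ w - c * Real.log (‖Zv S w‖ ^ 2)

theorem toric_both (n : ℕ) (S : Finset (Fin n → ℤ))
    (hS : ∀ x : Fin n → ℝ,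
      (∀ m ∈ S, ∀ m' ∈ S, ∑ j, ((m j : ℝ) - (m' j : ℝ)) * x j = 0) → x = 0)
    (c : ℝ) (hc : 0 < c) (Φ : (Fin n → ℂ) → ℝ)
    (hinv : ∀ (w : Fin n → ℂ) (θ : Fin n → ℝ), Φ (fun j => w j + Complex.I * (θ j : ℂ)) = Φ w)
    (hpos : ∀ w, (levi Φ w).PosDef)
    (hbd : ∃ C0 : ℝ, ∀ w, |rel S c Φ w| ≤ C0) :
    (∀ lam : ℝ, ContDiff ℝ 4 Φ →
      (∀ w, levi (fun w => Real.log (levi Φ w).det.re) w = (-(lam : ℂ)) • levi Φ w) →
      ∃ C > (0 : ℝ), ∃ α > (0 : ℝ), ∀ w w' : Fin n → ℂ,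
        |rel S c Φ w - rel S c Φ w'| ≤ C * fsDist (Zv S w) (Zv S w') ^ α) ∧
    (∀ A ε : ℝ, 0 < ε → ContDiff ℝ 2 Φ →
      (∀ R : ℝ, 0 ≤ R →
        ∫⁻ x in {x : V n | R ≤ ‖x‖}, ENNReal.ofReal (levi Φ (ofR x)).det.re ≤
          ENNReal.ofReal (A * Real.exp (-(ε * R)))) →
      ∃ C > (0 : ℝ), ∃ α > (0 : ℝ), ∀ w w' : Fin n → ℂ,
        |rel S c Φ w - rel S c Φ w'| ≤ C * fsDist (Zv S w) (Zv S w') ^ α) := by
  have hfs : ∀ w w', 0 ≤ fsDist (Zv S w) (Zv S w') := fun w w' => Real.arccos_nonneg _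
  rcases Nat.eq_zero_or_pos n with hn | hn
  · subst hn
    have h0 : ∃ C > (0 : ℝ), ∃ α > (0 : ℝ), ∀ w w' : Fin 0 → ℂ,
        |rel S c Φ w - rel S c Φ w'| ≤ C * fsDist (Zv S w) (Zv S w') ^ α := by
      refine ⟨1, one_pos, 1, one_pos, fun w w' => ?_⟩
      rw [Subsingleton.elim w w', sub_self, abs_zero]
      exact mul_nonneg zero_le_one (Real.rpow_nonneg (hfs _ _) _)
    exact ⟨fun _ _ _ => h0, fun _ _ _ _ _ => h0⟩
  have hn0 : n ≠ 0 := hn.ne'
  have hSn : S.Nonempty := by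
    rw [Finset.nonempty_iff_ne_empty]
    rintro rfl
    have h1 := hS (fun _ => 1) (by simp)
    have h2 := congrFun h1 ⟨0, hn⟩
    simp at h2
  have hM : (realPts S).Nonempty := realPts_nonempty hSn
  have hSp : Spans (realPts S) := spans_realPts hS
  obtain ⟨C0, hC0⟩ := hbd
  have hrel : ∀ w, rel S c Φ w = Φ (ofR (reV w)) - 2 * c * lse (realPts S) (reV w) := by
    intro w
    have h1 : Φ w = Φ (ofR (reV w)) := congrFun (eq_comp_reV hinv) w
    unfold rel
    rw [norm_Zv hSn, ← h1, ← Real.exp_nat_mul, Real.log_exp]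
    push_cast
    ring
  -- the real function
  set U : V n → ℝ := fun x => Φ (ofR x) with hU
  have hΦU : Φ = fun w => U (reV w) := eq_comp_reV hinv
  set t : ℝ := (2 * c)⁻¹ with ht
  have ht0 : 0 < t := by positivity
  have htc : 2 * c * t = 1 := by rw [ht]; field_simp
  have hB : ∀ x, |t * U x - lse (realPts S) x| ≤ t * C0 := by
    intro x
    have h1 := hC0 (ofR x)
    rw [hrel, reV_ofR] at h1
    have h2 : t * U x - lse (realPts S) x = t * (U x - 2 * c * lse (realPts S) x) := by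
      rw [mul_sub, ← mul_assoc, show t * (2 * c) = 1 by rw [mul_comm]; exact htc, one_mul]
    rw [h2, abs_mul, abs_of_pos ht0]
    exact mul_le_mul_of_nonneg_left h1 ht0.le
  -- transfer of the conclusion
  have key : (∃ C > (0 : ℝ), ∃ α > (0 : ℝ), ∀ x y : V n,
      |(t * U x - lse (realPts S) x) - (t * U y - lse (realPts S) y)| ≤
        C * (bd (realPts S) x y) ^ α) →
      ∃ C > (0 : ℝ), ∃ α > (0 : ℝ), ∀ w w' : Fin n → ℂ,
        |rel S c Φ w - rel S c Φ w'| ≤ C * fsDist (Zv S w) (Zv S w') ^ α := by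
    rintro ⟨C, hC, α, hα, h⟩
    refine ⟨2 * c * C, by positivity, α, hα, fun w w' => ?_⟩
    have h1 := h (reV w) (reV w')
    have h2 : ∀ w, rel S c Φ w = 2 * c * (t * U (reV w) - lse (realPts S) (reV w)) := by
      intro w
      rw [hrel, mul_sub, ← mul_assoc, htc, one_mul]
    rw [h2, h2, ← mul_sub, abs_mul, abs_of_pos (by positivity : 0 < 2 * c), mul_assoc (2 * c) C]
    refine mul_le_mul_of_nonneg_left (h1.trans ?_) (by positivity)
    exact mul_le_mul_of_nonneg_left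
      (Real.rpow_le_rpow (bd_nonneg _ _) (bd_le_fsDist hSn w w') hα.le) hC.le
  -- facts for `C²`
  have main : ContDiff ℝ 2 Φ → ContDiff ℝ 2 U ∧ (∀ x, (Hm U x).PosDef) ∧
      Reg (fun x => t * U x) (fun x => t • gradient U x) (fun x => t • Hm U x) ∧
      ∀ x, (levi Φ (ofR x)).det.re = (1 / 4) ^ n * (Hm U x).det := by
    intro h2
    have hU2 : ContDiff ℝ 2 U := contDiff_ofR (k := 2) h2
    have hlevi : ∀ x, levi Φ (ofR x) = (Hm U x).map (fun r => (((1 / 4 : ℝ) * r : ℝ) : ℂ)) := by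
      intro x
      have h3 := levi_comp_reV hU2 (ofR x)
      rw [← hΦU, reV_ofR] at h3
      exact h3
    have hp : ∀ x, (Hm U x).PosDef := fun x => posDef_of_map (by
      have := hpos (ofR x)
      rwa [hlevi] at this)
    refine ⟨hU2, hp, (reg_of_contDiff hU2 hp).smul ht0, fun x => ?_⟩
    rw [hlevi, det_map_re]
  constructor
  · intro lam h4 hE
    obtain ⟨hU2, hp, hReg, -⟩ := main (h4.of_le (by norm_num))
    have hU4 : ContDiff ℝ 4 U := contDiff_ofR (k := 4) h4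
    have hE' : ∀ w : Fin n → ℂ,
        levi (fun w => Real.log (levi (fun w => U (reV w)) w).det.re) w =
          (-(lam : ℂ)) • levi (fun w => U (reV w)) w := by
      rw [← hΦU]
      exact hE
    obtain ⟨b, a, hba⟩ := einstein_affine hU4 hp hE'
    refine key (holder_of_affine hn0 hM hSp hReg hB (lam := 2 * c * lam) (b := b)
      (a := a + n * Real.log t) fun x => ?_)
    rw [Matrix.det_smul, Fintype.card_fin, Real.log_mul (pow_pos ht0 n).ne' (hp x).det_pos.ne',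
      Real.log_pow, hba x]
    have h5 : 2 * c * lam * (t * U x) = lam * U x := by
      rw [show 2 * c * lam * (t * U x) = (2 * c * t) * (lam * U x) by ring, htc, one_mul]
    rw [h5]
    ring
  · intro A ε hε h2 hmass
    obtain ⟨hU2, hp, hReg, hdet⟩ := main h2
    have h6 : ∀ x, (t • Hm U x).det = (t * 4) ^ n * (levi Φ (ofR x)).det.re := by
      intro x
      have h9 : (4 : ℝ) ^ n * (1 / 4) ^ n = 1 := by rw [← mul_pow]; norm_num
      rw [hdet, Matrix.det_smul, Fintype.card_fin, mul_pow,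
        show t ^ n * 4 ^ n * ((1 / 4) ^ n * (Hm U x).det) =
          t ^ n * (Hm U x).det * (4 ^ n * (1 / 4) ^ n) by ring, h9, mul_one]
    refine key (holder_of_mass hn0 hM hSp hReg hB (C := (t * 4) ^ n * A) hε fun R hR => ?_)
    have h7 := hmass R hR
    have h8 : (0 : ℝ) ≤ (t * 4) ^ n := by positivity
    calc ∫⁻ y in {y : V n | R ≤ ‖y‖}, ENNReal.ofReal (t • Hm U y).det
        = ∫⁻ y in {y : V n | R ≤ ‖y‖},
            ENNReal.ofReal ((t * 4) ^ n) * ENNReal.ofReal (levi Φ (ofR y)).det.re := by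
          refine lintegral_congr fun y => ?_
          rw [h6, ENNReal.ofReal_mul h8]
      _ = ENNReal.ofReal ((t * 4) ^ n) *
            ∫⁻ y in {y : V n | R ≤ ‖y‖}, ENNReal.ofReal (levi Φ (ofR y)).det.re :=
          lintegral_const_mul' _ _ ENNReal.ofReal_ne_top
      _ ≤ ENNReal.ofReal ((t * 4) ^ n) * ENNReal.ofReal (A * Real.exp (-(ε * R))) := by
          gcongr
      _ = ENNReal.ofReal ((t * 4) ^ n * A * Real.exp (-(ε * R))) := by
          rw [← ENNReal.ofReal_mul h8, mul_assoc]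

end Pool.Agent.LibTK94
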