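import Pool.Agent.LibTK94.Cplx

/-!
# Row C4b: `log det` of the Hessian is `C²`

Plan.  Each entry `x ↦ D2 U x e_j e_k` is `C²` (`ContDiff.fderiv_right` twice: `fderiv ℝ (fderiv ℝ U)` is `C²`, then
evaluate at the constants `e_j`, `e_k`: `ContDiff.clm_apply`), the determinant is a polynomial in the entries
(`Matrix.det_apply`, `ContDiff.sum`, `contDiff_prod`), it is positive (`Matrix.PosDef.det_pos`), `ContDiff.log`.
-/

set_option autoImplicit false

open MeasureTheory
open scoped InnerProductSpace ComplexOrder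

namespace Pool.Agent.LibTK94

theorem contDiff_logdet {n : ℕ} {U : V n → ℝ} (hU : ContDiff ℝ 4 U)
    (hpos : ∀ x, (Hm U x).PosDef) : ContDiff ℝ 2 (fun x => Real.log (Hm U x).det) := by
  have h1 : ContDiff ℝ 3 (fderiv ℝ U) := hU.fderiv_right (by norm_num)
  have h2 : ContDiff ℝ 2 (fderiv ℝ (fderiv ℝ U)) := h1.fderiv_right (by norm_num)
  have h3 : ∀ j k, ContDiff ℝ 2 (fun x => Hm U x j k) := fun j k =>
    (h2.clm_apply contDiff_const).clm_apply contDiff_const
  have h4 : ContDiff ℝ 2 (fun x => (Hm U x).det) := by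
    have h5 : (fun x => (Hm U x).det) = fun x => ∑ σ : Equiv.Perm (Fin n),
        ((Equiv.Perm.sign σ : ℤ) : ℝ) * ∏ i, Hm U x (σ i) i := by
      funext x
      rw [Matrix.det_apply']
    rw [h5]
    exact ContDiff.sum fun σ _ => contDiff_const.mul (contDiff_prod fun i _ => h3 _ _)
  exact h4.log fun x => (hpos x).det_pos.ne'

end Pool.Agent.LibTK94
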