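import Pool.Agent.LibTK94.CHess
import Pool.Agent.LibTK94.CMat
import Pool.Agent.LibTK94.CAff
import Pool.Agent.LibTK94.CLog

/-!
# Row C4c: the Einstein equation gives an affine relation

Plan.  Let `Ld x = Real.log (Hm U x).det` (`C²`: `contDiff_logdet`).
`levi (U ∘ reV) w = (Hm U (reV w)).map _` (`levi_comp_reV`), so by `det_map_re` and `det > 0`
`Real.log (levi (U ∘ reV) w).det.re = n log(1/4) + Ld (reV w) =: Ld' (reV w)` as functions of `w` (`funext`), and
`levi` of this function is `(Hm Ld' (reV w)).map _`; comparing the entries of `hE` at `w = ofR x` (`reV (ofR x) = x`,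
`Complex.ofReal_inj`): `Hm Ld' x j k = - lam * Hm U x j k`.
So `W = Ld' + lam * U` is `C²` with `D2 W x e_j e_k = 0` (`D2` is additive on `C²` functions and a constant does not
matter); apply `affine_of_D2` and put `a' = a - n log (1/4)`.
-/

set_option autoImplicit false

open MeasureTheory
open scoped InnerProductSpace ComplexOrder

namespace Pool.Agent.LibTK94

theorem einstein_affine {n : ℕ} {U : V n → ℝ} (hU : ContDiff ℝ 4 U)
    (hpos : ∀ x, (Hm U x).PosDef) {lam : ℝ}
    (hE : ∀ w : Fin n → ℂ,
      levi (fun w => Real.log (levi (fun w => U (reV w)) w).det.re) w =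
        (-(lam : ℂ)) • levi (fun w => U (reV w)) w) :
    ∃ (b : V n) (a : ℝ), ∀ x, Real.log (Hm U x).det = -(lam * U x) + ⟪b, x⟫_ℝ + a := by
  have hU2 : ContDiff ℝ 2 U := hU.of_le (by norm_num)
  obtain ⟨Ld, hLd⟩ : ∃ Ld : V n → ℝ, Ld = fun x => Real.log ((1 / 4) ^ n * (Hm U x).det) :=
    ⟨_, rfl⟩
  have hLd' : Ld = fun x => Real.log ((1 / 4) ^ n) + Real.log (Hm U x).det := by
    rw [hLd]
    funext x
    exact Real.log_mul (by positivity) (hpos x).det_pos.ne'
  have hLdC : ContDiff ℝ 2 Ld := by
    rw [hLd']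
    exact contDiff_const.add (contDiff_logdet hU hpos)
  have h1 : (fun w : Fin n → ℂ => Real.log (levi (fun w => U (reV w)) w).det.re)
      = fun w => Ld (reV w) := by
    funext w
    rw [levi_comp_reV hU2 w, det_map_re, hLd]
  have h2 : ∀ x j k, Hm Ld x j k = -lam * Hm U x j k := by
    intro x j k
    have e1 := hE (ofR x)
    rw [h1, levi_comp_reV hLdC, levi_comp_reV hU2] at e1
    have e2 : reV (ofR x) = x := by
      ext i
      simp [reV, ofR]
    rw [e2] at e1
    have e3 := congrFun (congrFun e1 j) k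
    simp only [Matrix.map_apply, Matrix.smul_apply, smul_eq_mul] at e3
    rw [← Complex.ofReal_neg, ← Complex.ofReal_mul, Complex.ofReal_inj] at e3
    linarith
  have hfd : fderiv ℝ (fun x => Ld x + lam * U x) = fun x => fderiv ℝ Ld x + lam • fderiv ℝ U x := by
    funext x
    have d1 : DifferentiableAt ℝ Ld x := (hLdC.differentiable (by norm_num)) x
    have d2 : DifferentiableAt ℝ U x := (hU2.differentiable (by norm_num)) x
    exact (d1.hasFDerivAt.add (d2.hasFDerivAt.const_mul lam)).fderiv
  have hD : ∀ x a b, D2 (fun x => Ld x + lam * U x) x a b = D2 Ld x a b + lam * D2 U x a b := by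
    intro x a b
    unfold D2
    rw [hfd]
    have d1 : DifferentiableAt ℝ (fderiv ℝ Ld) x :=
      ((hLdC.fderiv_right (m := 1) (by norm_num)).differentiable (by norm_num)) x
    have d2 : DifferentiableAt ℝ (fderiv ℝ U) x :=
      ((hU2.fderiv_right (m := 1) (by norm_num)).differentiable (by norm_num)) x
    have d3 := (d1.hasFDerivAt.add (d2.hasFDerivAt.const_smul lam)).fderiv
    have d4 : fderiv ℝ (fun x => fderiv ℝ Ld x + lam • fderiv ℝ U x) x
        = fderiv ℝ (fderiv ℝ Ld) x + lam • fderiv ℝ (fderiv ℝ U) x := d3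
    rw [d4]
    simp
  have hWC : ContDiff ℝ 2 (fun x => Ld x + lam * U x) := hLdC.add (contDiff_const.mul hU2)
  obtain ⟨b, a, hba⟩ := affine_of_D2 hWC (by
    intro x j k
    rw [hD]
    have := h2 x j k
    unfold Hm at this
    simp only [Matrix.of_apply] at this
    rw [this]
    ring)
  refine ⟨b, a - Real.log ((1 / 4) ^ n), fun x => ?_⟩
  have e1 := hba x
  rw [hLd'] at e1
  simp only at e1
  linarith

end Pool.Agent.LibTK94
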