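import Pool.Agent.LibTK94.Cplx

/-!
# Row C5: the distance of the moduli is at most the Fubini-Study distance

Plan.  `M = realPts S`, sums over `M` are sums over `S` (`Finset.sum_image`, `toV` is injective) and sums over the
subtype (`Finset.sum_coe_sort`/`Finset.sum_attach`).
`‖(Zv S w) m‖ = exp ⟪toV m, reV w⟫` (`Complex.norm_exp`), `‖Zv S w‖ = exp (lse M (reV w))` (`EuclideanSpace.norm_eq`,
`exp_lse`), `‖⟪Zv S w, Zv S w'⟫‖ ≤ ∑ ‖Z m‖ ‖Z' m‖ = ‖Z‖ ‖Z'‖ ∑ m ∈ M, bb M m x * bb M m y` with `x = reV w`, `y = reV w'`.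
Let `d = fsDist`: `0 ≤ d`, `cos d = ‖⟪Z,Z'⟫‖/(‖Z‖ ‖Z'‖) ≤ ∑ bb bb'` (`Real.cos_arccos`, the quotient is in `[0,1]` by
Cauchy-Schwarz), and `bd^2 = 2 - 2 ∑ bb bb' ≤ 2 - 2 cos d ≤ d^2` (`sum_bb_sq`, `Real.one_sub_sq_div_two_le_cos`).
Also `lse_realPts`: for `S` nonempty `lse (realPts S) (reV w) = (1/2) log (∑ m ∈ S, ‖exp(∑ j, m j * w j)‖^2)`.
-/

set_option autoImplicit false

open MeasureTheory
open scoped InnerProductSpace ComplexOrder

namespace Pool.Agent.LibTK94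

private theorem CFS_inj {n : ℕ} : Function.Injective (toV : (Fin n → ℤ) → V n) := by
  intro a b h
  funext j
  have h1 : ((a j : ℤ) : ℝ) = ((b j : ℤ) : ℝ) := congrFun (congrArg WithLp.ofLp h) j
  exact_mod_cast h1

private theorem CFS_sum {n : ℕ} (S : Finset (Fin n → ℤ)) (f : V n → ℝ) :
    ∑ m ∈ realPts S, f m = ∑ m ∈ S, f (toV m) := by
  classical
  unfold realPts
  exact Finset.sum_image fun a _ b _ h => CFS_inj h

private theorem CFS_inner {n : ℕ} (m : Fin n → ℤ) (w : Fin n → ℂ) :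
    ⟪toV m, reV w⟫_ℝ = ∑ j, (m j : ℝ) * (w j).re := by
  rw [PiLp.inner_apply]
  refine Finset.sum_congr rfl fun j _ => ?_
  simp [toV, reV, mul_comm]

private theorem CFS_norm {n : ℕ} (m : Fin n → ℤ) (w : Fin n → ℂ) :
    ‖Complex.exp (∑ j, ((m j : ℤ) : ℂ) * w j)‖ = Real.exp ⟪toV m, reV w⟫_ℝ := by
  rw [Complex.norm_exp, CFS_inner, Complex.re_sum]
  congr 1
  refine Finset.sum_congr rfl fun j _ => ?_
  simp

private theorem CFS_bb {n : ℕ} {S : Finset (Fin n → ℤ)} (m : Fin n → ℤ) (w : Fin n → ℂ) :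
    ‖Complex.exp (∑ j, ((m j : ℤ) : ℂ) * w j)‖ =
      Real.exp (lse (realPts S) (reV w)) * bb (realPts S) (toV m) (reV w) := by
  rw [CFS_norm]
  unfold bb
  rw [← Real.exp_add]
  congr 1
  ring

theorem realPts_nonempty {n : ℕ} {S : Finset (Fin n → ℤ)} (hS : S.Nonempty) :
    (realPts S).Nonempty := by
  classical
  unfold realPts
  exact hS.image _

theorem lse_realPts {n : ℕ} (S : Finset (Fin n → ℤ)) (w : Fin n → ℂ) :
    lse (realPts S) (reV w) =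
      (1 / 2) * Real.log (∑ m ∈ S, ‖Complex.exp (∑ j, ((m j : ℤ) : ℂ) * w j)‖ ^ 2) := by
  unfold lse
  rw [CFS_sum]
  congr 2
  refine Finset.sum_congr rfl fun m _ => ?_
  rw [CFS_norm, ← Real.exp_nat_mul]
  norm_num

theorem norm_Zv {n : ℕ} {S : Finset (Fin n → ℤ)} (hS : S.Nonempty) (w : Fin n → ℂ) :
    ‖Zv S w‖ = Real.exp (lse (realPts S) (reV w)) := by
  have h1 : Real.exp (lse (realPts S) (reV w)) =
      Real.sqrt (Real.exp (2 * lse (realPts S) (reV w))) := by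
    rw [two_mul, Real.exp_add, Real.sqrt_mul_self (Real.exp_pos _).le]
  rw [h1, exp_lse (realPts_nonempty hS), CFS_sum, EuclideanSpace.norm_eq]
  congr 1
  rw [← Finset.sum_coe_sort S]
  refine Finset.sum_congr rfl fun m _ => ?_
  have h2 : (Zv S w) m = Complex.exp (∑ j, ((m : Fin n → ℤ) j : ℂ) * w j) := rfl
  rw [h2, CFS_norm, ← Real.exp_nat_mul]
  norm_num

theorem spans_realPts {n : ℕ} {S : Finset (Fin n → ℤ)}
    (h : ∀ x : Fin n → ℝ, (∀ m ∈ S, ∀ m' ∈ S, ∑ j, ((m j : ℝ) - (m' j : ℝ)) * x j = 0) → x = 0) :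
    Spans (realPts S) := by
  classical
  intro x hx
  have h1 : WithLp.ofLp x = 0 := by
    refine h _ fun m hm m' hm' => ?_
    have hmem : ∀ m ∈ S, toV m ∈ realPts S := by
      intro m hm
      unfold realPts
      exact Finset.mem_image_of_mem _ hm
    have h2 := hx (toV m) (hmem m hm) (toV m') (hmem m' hm')
    rw [PiLp.inner_apply] at h2
    rw [← h2]
    refine Finset.sum_congr rfl fun j _ => ?_
    simp [toV, mul_comm]
  ext j
  exact congrFun h1 j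

theorem bd_le_fsDist {n : ℕ} {S : Finset (Fin n → ℤ)} (hS : S.Nonempty) (w w' : Fin n → ℂ) :
    bd (realPts S) (reV w) (reV w') ≤ fsDist (Zv S w) (Zv S w') := by
  have hM := realPts_nonempty hS
  set a : (Fin n → ℤ) → ℝ := fun m => bb (realPts S) (toV m) (reV w) with ha
  set b : (Fin n → ℤ) → ℝ := fun m => bb (realPts S) (toV m) (reV w') with hb
  have hsa : ∑ m ∈ S, a m ^ 2 = 1 := by
    rw [← sum_bb_sq hM (reV w), CFS_sum]
  have hsb : ∑ m ∈ S, b m ^ 2 = 1 := by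
    rw [← sum_bb_sq hM (reV w'), CFS_sum]
  have hZ0 : 0 < ‖Zv S w‖ := by rw [norm_Zv hS]; exact Real.exp_pos _
  have hZ0' : 0 < ‖Zv S w'‖ := by rw [norm_Zv hS]; exact Real.exp_pos _
  have h1 : ‖⟪Zv S w, Zv S w'⟫_ℂ‖ ≤ ‖Zv S w‖ * ‖Zv S w'‖ * ∑ m ∈ S, a m * b m := by
    rw [PiLp.inner_apply]
    refine (norm_sum_le _ _).trans ?_
    rw [← Finset.sum_coe_sort S, Finset.mul_sum]
    refine Finset.sum_le_sum fun m _ => ?_
    refine (norm_inner_le_norm _ _).trans (le_of_eq ?_)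
    have e1 : ‖(Zv S w) m‖ = ‖Zv S w‖ * a m := by
      rw [norm_Zv hS]
      exact CFS_bb (S := S) (m : Fin n → ℤ) w
    have e2 : ‖(Zv S w') m‖ = ‖Zv S w'‖ * b m := by
      rw [norm_Zv hS]
      exact CFS_bb (S := S) (m : Fin n → ℤ) w'
    rw [e1, e2]
    ring
  unfold bd fsDist
  set q : ℝ := ‖⟪Zv S w, Zv S w'⟫_ℂ‖ / (‖Zv S w‖ * ‖Zv S w'‖) with hq
  have hpos : 0 < ‖Zv S w‖ * ‖Zv S w'‖ := mul_pos hZ0 hZ0'
  have hq0 : 0 ≤ q := div_nonneg (norm_nonneg _) hpos.le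
  have hq1 : q ≤ 1 := by
    rw [hq, div_le_one hpos]
    exact norm_inner_le_norm _ _
  have hq2 : q ≤ ∑ m ∈ S, a m * b m := by
    rw [hq, div_le_iff₀ hpos, mul_comm]
    exact h1
  have hcos : Real.cos (Real.arccos q) = q := Real.cos_arccos (by linarith) hq1
  have hle := Real.one_sub_sq_div_two_le_cos (x := Real.arccos q)
  rw [hcos] at hle
  rw [Real.sqrt_le_iff]
  refine ⟨Real.arccos_nonneg q, ?_⟩
  rw [CFS_sum]
  have h3 : ∑ m ∈ S, (bb (realPts S) (toV m) (reV w) - bb (realPts S) (toV m) (reV w')) ^ 2 =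
      ∑ m ∈ S, a m ^ 2 + ∑ m ∈ S, b m ^ 2 - 2 * ∑ m ∈ S, a m * b m := by
    rw [Finset.mul_sum, ← Finset.sum_add_distrib, ← Finset.sum_sub_distrib]
    refine Finset.sum_congr rfl fun m _ => ?_
    simp only [ha, hb]
    ring
  rw [h3, hsa, hsb]
  linarith

end Pool.Agent.LibTK94
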