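import Pool.Agent.LibTK94.Basic

/-!
# Row B1: a pointed polyhedral cone is finitely generated (greedy argument)

Plan.  For every `B ⊆ A` let `K_B = {x | (∀ a ∈ A, 0 ≤ ⟪a,x⟫) ∧ ∀ a ∈ B, ⟪a,x⟫ = 0}`.  For every
`B ∈ A.powerset` with `K_B ≠ {0}` choose `z_B ∈ K_B`, `z_B ≠ 0` (otherwise put `z_B = 0`);
`Z` = the finite set of all `z_B` (`A.powerset.image`).
Claim by strong induction on the number `#{a ∈ A | ⟪a,x⟫ ≠ 0}`: every `x` of the cone is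
`∑ z ∈ Z, c z • z` with `c ≥ 0`.  If `x = 0` take `c = 0`.  Otherwise let `B = {a ∈ A | ⟪a,x⟫ = 0}`,
`z = z_B ≠ 0` (as `x ∈ K_B`, `x ≠ 0`).  By `hA` some `a` has `⟪a,z⟫ > 0`, and such an `a` is not in
`B`, so `⟪a,x⟫ > 0`.  Let `t = min ⟪a,x⟫/⟪a,z⟫` over `a ∈ A` with `⟪a,z⟫ > 0`
(`Finset.exists_min_image`).  `x' = x - t • z` is in the cone, vanishes on `B` and on the minimiser,
so the induction hypothesis gives `c'` for `x'`; take `c = Function.update c' z (c' z + t)`.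
-/

set_option autoImplicit false

open MeasureTheory
open scoped InnerProductSpace

namespace Pool.Agent.LibTK94

theorem cone_gen {n : ℕ} (A : Finset (V n))
    (hA : ∀ x : V n, (∀ a ∈ A, ⟪a, x⟫_ℝ = 0) → x = 0) :
    ∃ Z : Finset (V n), (∀ z ∈ Z, ∀ a ∈ A, 0 ≤ ⟪a, z⟫_ℝ) ∧
      ∀ x : V n, (∀ a ∈ A, 0 ≤ ⟪a, x⟫_ℝ) →
        ∃ c : V n → ℝ, (∀ z, 0 ≤ c z) ∧ x = ∑ z ∈ Z, c z • z := by
  classical
  obtain ⟨zf, hzf⟩ : ∃ zf : Finset (V n) → V n, ∀ B : Finset (V n),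
      (∀ a ∈ A, 0 ≤ ⟪a, zf B⟫_ℝ) ∧
        ((∃ z : V n, (∀ a ∈ A, 0 ≤ ⟪a, z⟫_ℝ) ∧ (∀ a ∈ B, ⟪a, z⟫_ℝ = 0) ∧ z ≠ 0) →
          (∀ a ∈ B, ⟪a, zf B⟫_ℝ = 0) ∧ zf B ≠ 0) := by
    refine ⟨fun B => if h : ∃ z : V n, (∀ a ∈ A, 0 ≤ ⟪a, z⟫_ℝ) ∧ (∀ a ∈ B, ⟪a, z⟫_ℝ = 0) ∧ z ≠ 0
      then h.choose else 0, fun B => ?_⟩
    by_cases h : ∃ z : V n, (∀ a ∈ A, 0 ≤ ⟪a, z⟫_ℝ) ∧ (∀ a ∈ B, ⟪a, z⟫_ℝ = 0) ∧ z ≠ 0
    · simp only [dif_pos h]
      exact ⟨h.choose_spec.1, fun _ => h.choose_spec.2⟩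
    · simp only [dif_neg h]
      exact ⟨fun a _ => by rw [inner_zero_right], fun h' => absurd h' h⟩
  refine ⟨A.powerset.image zf, ?_, ?_⟩
  · intro z hz a ha
    obtain ⟨B, -, rfl⟩ := Finset.mem_image.1 hz
    exact (hzf B).1 a ha
  have key : ∀ k : ℕ, ∀ x : V n, (∀ a ∈ A, 0 ≤ ⟪a, x⟫_ℝ) →
      (A.filter fun a => ⟪a, x⟫_ℝ ≠ 0).card = k →
        ∃ c : V n → ℝ, (∀ z, 0 ≤ c z) ∧ x = ∑ z ∈ A.powerset.image zf, c z • z := by
    intro k
    induction k using Nat.strong_induction_on with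
    | _ k ih =>
      intro x hx hk
      rcases eq_or_ne x 0 with rfl | hx0
      · exact ⟨fun _ => 0, fun _ => le_rfl, by simp⟩
      set B : Finset (V n) := A.filter fun a => ⟪a, x⟫_ℝ = 0 with hB
      obtain ⟨hz1, hz2⟩ := hzf B
      obtain ⟨hz3, hz4⟩ := hz2 ⟨x, hx, fun a ha => (Finset.mem_filter.1 ha).2, hx0⟩
      have hzZ : zf B ∈ A.powerset.image zf :=
        Finset.mem_image.2 ⟨B, Finset.mem_powerset.2 (Finset.filter_subset _ _), rfl⟩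
      set z : V n := zf B with hzdef
      have hne : (A.filter fun a => 0 < ⟪a, z⟫_ℝ).Nonempty := by
        by_contra hn
        rw [Finset.not_nonempty_iff_eq_empty, Finset.filter_eq_empty_iff] at hn
        exact hz4 (hA z fun a ha => le_antisymm (not_lt.1 (hn ha)) (hz1 a ha))
      obtain ⟨a0, ha0, hmin⟩ := Finset.exists_min_image (A.filter fun a => 0 < ⟪a, z⟫_ℝ)
        (fun a => ⟪a, x⟫_ℝ / ⟪a, z⟫_ℝ) hne
      rw [Finset.mem_filter] at ha0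
      obtain ⟨ha0A, ha0z⟩ := ha0
      set t : ℝ := ⟪a0, x⟫_ℝ / ⟪a0, z⟫_ℝ with ht
      have ht0 : 0 ≤ t := div_nonneg (hx a0 ha0A) ha0z.le
      have hin : ∀ a : V n, ⟪a, x - t • z⟫_ℝ = ⟪a, x⟫_ℝ - t * ⟪a, z⟫_ℝ := by
        intro a
        rw [inner_sub_right, real_inner_smul_right]
      have hx' : ∀ a ∈ A, 0 ≤ ⟪a, x - t • z⟫_ℝ := by
        intro a ha
        rw [hin]
        rcases (hz1 a ha).lt_or_eq with h | h
        · have h1 := hmin a (Finset.mem_filter.2 ⟨ha, h⟩)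
          have h2 := (le_div_iff₀ h).1 h1
          linarith
        · rw [← h, mul_zero, sub_zero]
          exact hx a ha
      have hlt : (A.filter fun a => ⟪a, x - t • z⟫_ℝ ≠ 0).card < k := by
        rw [← hk]
        refine Finset.card_lt_card (Finset.ssubset_iff_subset_ne.2 ⟨?_, ?_⟩)
        · intro a ha
          rw [Finset.mem_filter] at ha ⊢
          refine ⟨ha.1, fun h => ha.2 ?_⟩
          rw [hin, h, hz3 a (Finset.mem_filter.2 ⟨ha.1, h⟩), mul_zero, sub_zero]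
        · intro heq
          have h1 : a0 ∈ A.filter fun a => ⟪a, x⟫_ℝ ≠ 0 := by
            refine Finset.mem_filter.2 ⟨ha0A, fun h => ?_⟩
            rw [hz3 a0 (Finset.mem_filter.2 ⟨ha0A, h⟩)] at ha0z
            exact lt_irrefl _ ha0z
          rw [← heq, Finset.mem_filter] at h1
          apply h1.2
          rw [hin, ht, div_mul_cancel₀ _ ha0z.ne', sub_self]
      obtain ⟨c, hc0, hc⟩ := ih _ hlt (x - t • z) hx' rfl
      refine ⟨fun w => c w + if w = z then t else 0, fun w => ?_, ?_⟩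
      · refine add_nonneg (hc0 w) ?_
        split_ifs
        · exact ht0
        · exact le_rfl
      · simp only [add_smul, Finset.sum_add_distrib, ite_smul, zero_smul]
        rw [Finset.sum_ite_eq', if_pos hzZ, ← hc, sub_add_cancel]
  intro x hx
  exact key _ x hx rfl

end Pool.Agent.LibTK94
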