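import Pool.Agent.LibTK94.Basic

/-!
# Definitions on the complex side
-/

set_option autoImplicit false

open MeasureTheory
open scoped InnerProductSpace

namespace Pool.Agent.LibTK94

/-- The second real derivative of `F` at `x` in the directions `a`, `b`. -/
noncomputable def D2 {E : Type*} [NormedAddCommGroup E] [NormedSpace ℝ E] (F : E → ℝ)
    (x a b : E) : ℝ :=
  fderiv ℝ (fderiv ℝ F) x a b

/-- The complex Hessian matrix `∂²F/∂w_j∂w̄_k`. -/
noncomputable def levi {n : ℕ} (F : (Fin n → ℂ) → ℝ) (w : Fin n → ℂ) :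
    Matrix (Fin n) (Fin n) ℂ :=
  Matrix.of fun j k => (1 / 4 : ℂ) *
    (((D2 F w (Pi.single j 1) (Pi.single k 1) +
        D2 F w (Pi.single j Complex.I) (Pi.single k Complex.I) : ℝ) : ℂ) +
      Complex.I * ((D2 F w (Pi.single j 1) (Pi.single k Complex.I) -
        D2 F w (Pi.single j Complex.I) (Pi.single k 1) : ℝ) : ℂ))

/-- The real Hessian matrix. -/
noncomputable def Hm {n : ℕ} (U : V n → ℝ) (x : V n) : Matrix (Fin n) (Fin n) ℝ :=
  Matrix.of fun j k => D2 U x (EuclideanSpace.single j 1) (EuclideanSpace.single k 1)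

/-- Real points. -/
noncomputable def ofR {n : ℕ} (x : V n) : Fin n → ℂ := fun j => (x j : ℂ)

/-- Real parts. -/
noncomputable def reV {n : ℕ} (w : Fin n → ℂ) : V n := WithLp.toLp 2 fun j => (w j).re

/-- The vector `(exp ⟨m, w⟩)_{m ∈ S}`. -/
noncomputable def Zv {n : ℕ} (S : Finset (Fin n → ℤ)) (w : Fin n → ℂ) : EuclideanSpace ℂ S :=
  WithLp.toLp 2 fun m => Complex.exp (∑ j, ((m : Fin n → ℤ) j : ℂ) * w j)

/-- The Fubini–Study distance of the points `[Z]`, `[Z']` of projective space (normalised so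
that the diameter is `π/2`). -/
noncomputable def fsDist {ι : Type*} [Fintype ι] (Z Z' : EuclideanSpace ℂ ι) : ℝ :=
  Real.arccos (‖⟪Z, Z'⟫_ℂ‖ / (‖Z‖ * ‖Z'‖))

/-- The lattice points as real vectors. -/
noncomputable def toV {n : ℕ} (m : Fin n → ℤ) : V n := WithLp.toLp 2 fun j => (m j : ℝ)

/-- The set `S` of lattice points as a set of real vectors. -/
noncomputable def realPts {n : ℕ} (S : Finset (Fin n → ℤ)) : Finset (V n) := by
  classical exact S.image toV

end Pool.Agent.LibTK94
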