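import Pool.Agent.LibTK94.Basic

/-!
# Row A7: finite total mass and log-concavity type form give exponential decay

Plan.  `h x = sup_{m ∈ M} ⟪m,x⟫` (`Finset.sup'`), `|u x - h x| ≤ C1 = C0 + (1/2) log |M|` (`le_lse`, `lse_le`);
`h` is Lipschitz with constant `max ‖m‖`, `h (t x) = t h x` for `t ≥ 0`.
`ψ x = lam * h x - ⟪b, x⟫`: continuous, Lipschitz (constant `Λ`), positively homogeneous, and
`c0 exp(-ψ x) ≤ D x ≤ C2 exp(-ψ x)` with `c0, C2 > 0` (`|lam (u - h)| ≤ |lam| C1`).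
Claim: `ψ θ > 0` for `‖θ‖ = 1`.  Otherwise `ψ (t θ) ≤ 0` for all `t ≥ 0`, so `D x ≥ c0 exp(-Λ)` on each
ball `ball ((3 j) • θ) 1`, `j : ℕ`; they are pairwise disjoint with the same positive volume, so
`∫⁻ ofReal (D y) = ⊤` (`lintegral` over the disjoint union `≥ ∑' const = ⊤`,
`ENNReal.tsum_const_eq_top_of_ne_zero`; `MeasureTheory.lintegral_iUnion`, monotonicity), contradiction.
For `n = 0` every `y` is `0`: `A = D 0`, `ε = 1`.  For `n ≥ 1` the sphere is compact and nonempty,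
`ψ ≥ ε > 0` on it (`IsCompact.exists_isMinOn`), so `ψ y ≥ ε ‖y‖` and `D y ≤ C2 exp(-(ε‖y‖))`.
(If it is convenient treat all `n` at once: the minimum over the possibly empty sphere.)
-/

set_option autoImplicit false

open MeasureTheory
open scoped InnerProductSpace

namespace Pool.Agent.LibTK94

theorem decay {n : ℕ} {M : Finset (V n)} (hM : M.Nonempty) {u : V n → ℝ} {C0 : ℝ}
    (hB : ∀ x, |u x - lse M x| ≤ C0) {D : V n → ℝ} {lam a : ℝ} {b : V n}
    (hD : ∀ x, D x = Real.exp (-(lam * u x) + ⟪b, x⟫_ℝ + a))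
    (hfin : ∫⁻ y, ENNReal.ofReal (D y) < ⊤) :
    ∃ A : ℝ, ∃ ε > (0 : ℝ), ∀ y, D y ≤ A * Real.exp (-(ε * ‖y‖)) := by
  classical
  set h : V n → ℝ := fun x => M.sup' hM (fun m => ⟪m, x⟫_ℝ) with hh
  have hle : ∀ m ∈ M, ∀ x, ⟪m, x⟫_ℝ ≤ h x := fun m hm x =>
    Finset.le_sup' (fun m => ⟪m, x⟫_ℝ) hm
  have hub : ∀ x t, (∀ m ∈ M, ⟪m, x⟫_ℝ ≤ t) → h x ≤ t := fun x t ht => Finset.sup'_le _ _ ht
  set C1 : ℝ := C0 + 1 / 2 * Real.log (M.card : ℝ) with hC1
  have hlog : 0 ≤ Real.log (M.card : ℝ) := by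
    refine Real.log_nonneg ?_
    exact_mod_cast hM.card_pos
  have huh : ∀ x, |u x - h x| ≤ C1 := by
    intro x
    have h1 : h x ≤ lse M x := hub x _ fun m hm => le_lse hm x
    have h2 : lse M x ≤ h x + (1 / 2) * Real.log (M.card : ℝ) :=
      lse_le hM fun m hm => hle m hm x
    have h3 := abs_le.1 (hB x)
    rw [abs_le]
    constructor <;> linarith [h3.1, h3.2]
  have hC1' : 0 ≤ C1 := (abs_nonneg _).trans (huh 0)
  have hhom : ∀ t : ℝ, 0 ≤ t → ∀ x, h (t • x) = t * h x := by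
    intro t ht x
    apply le_antisymm
    · refine hub _ _ fun m hm => ?_
      rw [inner_smul_right]
      exact mul_le_mul_of_nonneg_left (hle m hm x) ht
    · obtain ⟨m0, hm0, hmax⟩ := exists_max hM x
      have h1 : h x ≤ ⟪m0, x⟫_ℝ := hub _ _ hmax
      calc t * h x ≤ t * ⟪m0, x⟫_ℝ := mul_le_mul_of_nonneg_left h1 ht
        _ = ⟪m0, t • x⟫_ℝ := by rw [inner_smul_right]
        _ ≤ _ := hle m0 hm0 _
  set Lh : ℝ := ∑ m ∈ M, ‖m‖ with hLh
  have hLh0 : 0 ≤ Lh := Finset.sum_nonneg fun _ _ => norm_nonneg _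
  have hlip : ∀ x y, h x ≤ h y + Lh * ‖x - y‖ := by
    intro x y
    refine hub _ _ fun m hm => ?_
    have h1 : ⟪m, x⟫_ℝ = ⟪m, y⟫_ℝ + ⟪m, x - y⟫_ℝ := by
      rw [inner_sub_right]
      ring
    have h2 : ⟪m, x - y⟫_ℝ ≤ ‖m‖ * ‖x - y‖ := real_inner_le_norm _ _
    have h3 : ‖m‖ ≤ Lh := Finset.single_le_sum (f := fun m : V n => ‖m‖)
      (fun _ _ => norm_nonneg _) hm
    have h4 : ‖m‖ * ‖x - y‖ ≤ Lh * ‖x - y‖ := mul_le_mul_of_nonneg_right h3 (norm_nonneg _)
    rw [h1]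
    linarith [hle m hm y]
  have hlip2 : ∀ x y, |h x - h y| ≤ Lh * ‖x - y‖ := by
    intro x y
    have h1 := hlip x y
    have h2 := hlip y x
    rw [norm_sub_rev] at h2
    rw [abs_le]
    constructor <;> linarith
  set ψ : V n → ℝ := fun x => lam * h x - ⟪b, x⟫_ℝ with hψ
  set Λ : ℝ := |lam| * Lh + ‖b‖ with hΛ
  have hΛ0 : 0 ≤ Λ := by positivity
  have hψlip : ∀ x y, |ψ x - ψ y| ≤ Λ * ‖x - y‖ := by
    intro x y
    have e1 : ψ x - ψ y = lam * (h x - h y) - ⟪b, x - y⟫_ℝ := by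
      rw [hψ]
      simp only [inner_sub_right]
      ring
    rw [e1]
    have h1 : |lam * (h x - h y)| ≤ |lam| * (Lh * ‖x - y‖) := by
      rw [abs_mul]
      exact mul_le_mul_of_nonneg_left (hlip2 x y) (abs_nonneg _)
    have h2 : |⟪b, x - y⟫_ℝ| ≤ ‖b‖ * ‖x - y‖ := abs_real_inner_le_norm _ _
    calc |lam * (h x - h y) - ⟪b, x - y⟫_ℝ| ≤ |lam * (h x - h y)| + |⟪b, x - y⟫_ℝ| :=
          abs_sub _ _
      _ ≤ |lam| * (Lh * ‖x - y‖) + ‖b‖ * ‖x - y‖ := add_le_add h1 h2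
      _ = Λ * ‖x - y‖ := by rw [hΛ]; ring
  have hψhom : ∀ t : ℝ, 0 ≤ t → ∀ x, ψ (t • x) = t * ψ x := by
    intro t ht x
    rw [hψ]
    simp only [hhom t ht x, inner_smul_right]
    ring
  have hψcont : Continuous ψ := by
    refine continuous_iff_continuousAt.2 fun x => ?_
    rw [ContinuousAt, tendsto_iff_norm_sub_tendsto_zero]
    have h1 : Filter.Tendsto (fun y => Λ * ‖y - x‖) (nhds x) (nhds 0) := by
      have h2 : Filter.Tendsto (fun y : V n => Λ * ‖y - x‖) (nhds x) (nhds (Λ * ‖x - x‖)) :=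
        (continuous_const.mul (continuous_id.sub continuous_const).norm).tendsto x
      simpa using h2
    exact squeeze_zero (fun _ => norm_nonneg _) (fun y => hψlip y x) h1
  have hDψ : ∀ x, D x = Real.exp (-ψ x) * Real.exp (a - lam * (u x - h x)) := by
    intro x
    rw [hD, ← Real.exp_add]
    congr 1
    rw [hψ]
    ring
  have hlu : ∀ x, |lam * (u x - h x)| ≤ |lam| * C1 := by
    intro x
    rw [abs_mul]
    exact mul_le_mul_of_nonneg_left (huh x) (abs_nonneg _)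
  have hlow : ∀ x, Real.exp (a - |lam| * C1) * Real.exp (-ψ x) ≤ D x := by
    intro x
    rw [hDψ, mul_comm]
    refine mul_le_mul_of_nonneg_left (Real.exp_le_exp.2 ?_) (Real.exp_pos _).le
    linarith [(abs_le.1 (hlu x)).2]
  have hupp : ∀ x, D x ≤ Real.exp (a + |lam| * C1) * Real.exp (-ψ x) := by
    intro x
    rw [hDψ, mul_comm (Real.exp (a + |lam| * C1))]
    refine mul_le_mul_of_nonneg_left (Real.exp_le_exp.2 ?_) (Real.exp_pos _).le
    linarith [(abs_le.1 (hlu x)).1]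
  -- positivity on the sphere
  have hpos : ∀ θ : V n, ‖θ‖ = 1 → 0 < ψ θ := by
    intro θ hθ
    by_contra hneg
    have hneg' : ψ θ ≤ 0 := not_lt.1 hneg
    set c : ℝ := Real.exp (a - |lam| * C1) * Real.exp (-Λ) with hc
    have hc0 : 0 < c := by positivity
    set S : Set (V n) := ⋃ j : ℕ, Metric.ball ((3 * (j : ℝ)) • θ) 1 with hS
    have hSm : MeasurableSet S := MeasurableSet.iUnion fun _ => measurableSet_ball
    have hSc : ∀ y ∈ S, c ≤ D y := by
      intro y hy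
      obtain ⟨j, hj⟩ := Set.mem_iUnion.1 hy
      have hj' : ‖y - (3 * (j : ℝ)) • θ‖ ≤ 1 := by
        rw [← dist_eq_norm]
        exact (Metric.mem_ball.1 hj).le
      have h1 := (abs_le.1 (hψlip y ((3 * (j : ℝ)) • θ))).2
      have h2 : ψ ((3 * (j : ℝ)) • θ) ≤ 0 := by
        rw [hψhom _ (by positivity)]
        exact mul_nonpos_of_nonneg_of_nonpos (by positivity) hneg'
      have h3 : Λ * ‖y - (3 * (j : ℝ)) • θ‖ ≤ Λ * 1 := mul_le_mul_of_nonneg_left hj' hΛ0
      refine le_trans ?_ (hlow y)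
      refine mul_le_mul_of_nonneg_left (Real.exp_le_exp.2 ?_) (Real.exp_pos _).le
      linarith
    have hdisj : Pairwise (Function.onFun Disjoint
        fun j : ℕ => Metric.ball ((3 * (j : ℝ)) • θ) 1) := by
      intro i j hij
      refine Metric.ball_disjoint_ball ?_
      rw [dist_eq_norm, ← sub_smul, norm_smul, hθ, mul_one, Real.norm_eq_abs]
      have h1 : (1 : ℝ) ≤ |(i : ℝ) - (j : ℝ)| := by
        have h2 : (1 : ℤ) ≤ |(i : ℤ) - (j : ℤ)| := by
          refine Int.one_le_abs ?_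
          omega
        exact_mod_cast h2
      have h3 : 3 * (i : ℝ) - 3 * (j : ℝ) = 3 * ((i : ℝ) - (j : ℝ)) := by ring
      rw [h3, abs_mul, abs_of_pos (by norm_num : (0 : ℝ) < 3)]
      linarith
    have hvol : volume S = ⊤ := by
      rw [hS, measure_iUnion hdisj fun _ => measurableSet_ball]
      have h1 : ∀ j : ℕ, volume (Metric.ball ((3 * (j : ℝ)) • θ) 1) =
          volume (Metric.ball (0 : V n) 1) := fun j => Measure.addHaar_ball_center _ _ _
      simp only [h1]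
      exact ENNReal.tsum_const_eq_top_of_ne_zero
        (Metric.measure_ball_pos volume (0 : V n) one_pos).ne'
    have h4 : ∫⁻ y, ENNReal.ofReal (D y) = ⊤ := by
      refine top_le_iff.1 ?_
      calc (⊤ : ENNReal) = ENNReal.ofReal c * volume S := by
            rw [hvol, ENNReal.mul_top]
            exact (ENNReal.ofReal_pos.2 hc0).ne'
        _ = ∫⁻ _ in S, ENNReal.ofReal c := (setLIntegral_const _ _).symm
        _ ≤ ∫⁻ y in S, ENNReal.ofReal (D y) :=
            setLIntegral_mono' hSm fun y hy => ENNReal.ofReal_le_ofReal (hSc y hy)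
        _ ≤ ∫⁻ y, ENNReal.ofReal (D y) := setLIntegral_le_lintegral _ _
    exact absurd h4 hfin.ne
  obtain ⟨ε, hε, hεψ⟩ : ∃ ε > (0 : ℝ), ∀ θ : V n, ‖θ‖ = 1 → ε ≤ ψ θ := by
    rcases Set.eq_empty_or_nonempty (Metric.sphere (0 : V n) 1) with h1 | h1
    · refine ⟨1, one_pos, fun θ hθ => ?_⟩
      have h2 : θ ∈ Metric.sphere (0 : V n) 1 := by simpa using hθ
      rw [h1] at h2
      exact absurd h2 (Set.notMem_empty _)
    · obtain ⟨θ0, hθ0, hmin⟩ := (isCompact_sphere (0 : V n) 1).exists_isMinOn h1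
        hψcont.continuousOn
      refine ⟨ψ θ0, hpos θ0 (by simpa using hθ0), fun θ hθ => ?_⟩
      exact hmin (by simpa using hθ)
  have hψge : ∀ y, ε * ‖y‖ ≤ ψ y := by
    intro y
    rcases eq_or_ne y 0 with rfl | hy
    · have h1 := hψhom 0 le_rfl 0
      rw [zero_smul, zero_mul] at h1
      rw [h1, norm_zero, mul_zero]
    · have hy' : 0 < ‖y‖ := norm_pos_iff.2 hy
      have h1 : ψ (‖y‖ • (‖y‖⁻¹ • y)) = ‖y‖ * ψ (‖y‖⁻¹ • y) := hψhom _ hy'.le _
      rw [smul_smul, mul_inv_cancel₀ hy'.ne', one_smul] at h1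
      rw [h1, mul_comm]
      refine mul_le_mul_of_nonneg_left (hεψ _ ?_) hy'.le
      rw [norm_smul, norm_inv, norm_norm, inv_mul_cancel₀ hy'.ne']
  refine ⟨Real.exp (a + |lam| * C1), ε, hε, fun y => (hupp y).trans ?_⟩
  refine mul_le_mul_of_nonneg_left (Real.exp_le_exp.2 ?_) (Real.exp_pos _).le
  linarith [hψge y]

end Pool.Agent.LibTK94
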