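import Mathlib

/-!
# Torus-invariant metrics on toric varieties: definitions
-/

set_option autoImplicit false

open MeasureTheory
open scoped InnerProductSpace

namespace Pool.Agent.LibTK94

/-- Real `n`-space (`x_j = log |z_j|`). -/
abbrev V (n : ℕ) : Type := EuclideanSpace ℝ (Fin n)

/-- `log ‖Z(x)‖` where `Z(x)` has the coordinates `exp ⟨m, x⟩`, `m ∈ M`. -/
noncomputable def lse {n : ℕ} (M : Finset (V n)) (x : V n) : ℝ :=
  (1 / 2) * Real.log (∑ m ∈ M, Real.exp (2 * ⟪m, x⟫_ℝ))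

/-- The modulus of the coordinate `m` of `Z(x) / ‖Z(x)‖`. -/
noncomputable def bb {n : ℕ} (M : Finset (V n)) (m x : V n) : ℝ :=
  Real.exp (⟪m, x⟫_ℝ - lse M x)

/-- The differences of the elements of `M` span. -/
def Spans {n : ℕ} (M : Finset (V n)) : Prop :=
  ∀ x : V n, (∀ m ∈ M, ∀ m' ∈ M, ⟪m - m', x⟫_ℝ = 0) → x = 0

/-- A convex function `u` with (sub)gradient `G` in the convex hull of `M`. -/
structure Pot {n : ℕ} (M : Finset (V n)) (u : V n → ℝ) (G : V n → V n) : Prop where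
  hull : ∀ x, G x ∈ convexHull ℝ (M : Set (V n))
  sub : ∀ x y, u x + ⟪G x, y - x⟫_ℝ ≤ u y

/-- If the gradient takes the values in a ball of radius `r` only far out, then `r` is
exponentially small. -/
def Tail {n : ℕ} (M : Finset (V n)) (G : V n → V n) (k : ℕ) : Prop :=
  ∃ C > (0 : ℝ), ∃ ε > (0 : ℝ), ∀ p ∈ convexHull ℝ (M : Set (V n)), ∀ r : ℝ, 0 < r → r ≤ 1 →
    ∀ R : ℝ, 0 ≤ R → (∀ y, dist (G y) p < r → R ≤ ‖y‖) → r ^ k ≤ C * Real.exp (-(ε * R))

/-- A `C²` function with gradient `G` and positive definite Hessian matrix `H`. -/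
structure Reg {n : ℕ} (u : V n → ℝ) (G : V n → V n) (H : V n → Matrix (Fin n) (Fin n) ℝ) :
    Prop where
  grad : ∀ x, HasFDerivAt u (innerSL ℝ (G x)) x
  hess : ∀ x, HasFDerivAt G (LinearMap.toContinuousLinearMap (Matrix.toEuclideanLin (H x))) x
  pos : ∀ x, (H x).PosDef

end Pool.Agent.LibTK94
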