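import Pool.Agent.LibTK94.Key

/-!
# Row B3: the total decrease of `u - ⟪m0,·⟫` along `x1 + ℕ ζ0` is exponentially small

Plan.  WLOG `K ≥ 0` (else the hypotheses are contradictory).  Let `C3, ε3` be from `key` for the
constant `K' = K * max 1 (1/β)`.  For `s : ℕ` put `x = x1 + s • ζ0`, `T' = β T + s`: then
`‖x‖ ≤ K T + K s ≤ K' T'` and `⟪m' - m, x⟫ ≥ T'` for `m' ∈ F, m ∈ M \ F`, so `key` gives
`f ∈ conv F` with `‖G x - f‖ ≤ C3 exp(-(ε3 T'))`.  `⟪f, ζ0⟫ = ⟪m0, ζ0⟫` (all elements of `F` pair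
with `ζ0` like `m0`; use `inner_le_of_hull` for `ζ0` and `-ζ0`).  `hP.sub x (x + ζ0)` gives
`u (x+ζ0) - ⟪m0,x+ζ0⟫ ≥ u x - ⟪m0,x⟫ + ⟪G x - m0, ζ0⟫ ≥ u x - ⟪m0,x⟫ - K C3 exp(-(ε3 (β T + s)))`.
Induction on `N`: the total loss is `≤ K C3 exp(-(ε3 β T)) ∑_{s<N} exp(-ε3)^s ≤ C exp(-(ε T))`,
`C = K C3/(1 - exp(-ε3)) + 1`, `ε = ε3 β` (geometric sum; it is convenient to prove by induction
the bound with `(1 - q^N)/(1-q)`, `q = exp(-ε3)`).
-/

set_option autoImplicit false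

open MeasureTheory
open scoped InnerProductSpace

namespace Pool.Agent.LibTK94

theorem descend {n k : ℕ} (hk : k ≠ 0) {M : Finset (V n)} {u : V n → ℝ} {G : V n → V n}
    (hP : Pot M u G) (hT : Tail M G k) (K β : ℝ) (hβ : 0 < β) :
    ∃ C > (0 : ℝ), ∃ ε > (0 : ℝ), ∀ (T : ℝ) (F : Finset (V n)) (m0 x1 ζ0 : V n), 0 ≤ T → F ⊆ M →
      m0 ∈ F → ‖x1‖ ≤ K * T → ‖ζ0‖ ≤ K →
      (∀ m' ∈ F, ∀ m ∈ M, m ∉ F → β * T ≤ ⟪m' - m, x1⟫_ℝ) →
      (∀ m' ∈ F, ∀ m ∈ M, m ∉ F → 1 ≤ ⟪m' - m, ζ0⟫_ℝ) →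
      (∀ m' ∈ F, ⟪m' - m0, ζ0⟫_ℝ = 0) →
      ∀ N : ℕ, u x1 - ⟪m0, x1⟫_ℝ - C * Real.exp (-(ε * T)) ≤
        u (x1 + (N : ℝ) • ζ0) - ⟪m0, x1 + (N : ℝ) • ζ0⟫_ℝ := by
  obtain ⟨C3, hC3, ε3, hε3, hkey⟩ := key hk hP hT (|K| * (1 + 1 / β))
  obtain ⟨q, hq⟩ : ∃ q : ℝ, q = Real.exp (-ε3) := ⟨_, rfl⟩
  have hq0 : 0 < q := by rw [hq]; exact Real.exp_pos _
  have hq1 : q < 1 := by
    rw [hq, Real.exp_lt_one_iff]
    linarith
  have hK0 : 0 ≤ |K| := abs_nonneg K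
  have h1q : 0 < 1 - q := by linarith
  refine ⟨|K| * C3 / (1 - q) + 1, by positivity, ε3 * β, by positivity, ?_⟩
  intro T F m0 x1 ζ0 hT0 hFM hm0 hx1 hζ0 h1 h2 h3
  have hstep : ∀ s : ℕ, u (x1 + (s : ℝ) • ζ0) - ⟪m0, x1 + (s : ℝ) • ζ0⟫_ℝ
      - |K| * C3 * Real.exp (-(ε3 * β * T)) * q ^ s ≤
        u (x1 + ((s + 1 : ℕ) : ℝ) • ζ0) - ⟪m0, x1 + ((s + 1 : ℕ) : ℝ) • ζ0⟫_ℝ := by
    intro s
    obtain ⟨x, hx⟩ : ∃ x : V n, x = x1 + (s : ℝ) • ζ0 := ⟨_, rfl⟩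
    have hx' : x1 + ((s + 1 : ℕ) : ℝ) • ζ0 = x + ζ0 := by
      rw [hx]; push_cast; rw [add_smul, one_smul, add_assoc]
    rw [hx', ← hx]
    have hs0 : (0 : ℝ) ≤ s := Nat.cast_nonneg s
    have hxn : ‖x‖ ≤ |K| * (1 + 1 / β) * (β * T + s) := by
      have e1 : ‖x‖ ≤ |K| * T + s * |K| := by
        rw [hx]
        refine (norm_add_le _ _).trans ?_
        rw [norm_smul, Real.norm_of_nonneg hs0]
        have e2 : K * T ≤ |K| * T := mul_le_mul_of_nonneg_right (le_abs_self K) hT0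
        have e3 : (s : ℝ) * ‖ζ0‖ ≤ s * |K| :=
          mul_le_mul_of_nonneg_left (hζ0.trans (le_abs_self K)) hs0
        linarith
      have e4 : T + s ≤ (1 + 1 / β) * (β * T + s) := by
        have e5 : (1 + 1 / β) * (β * T + s) = T + s + (β * T + s / β) := by
          field_simp
          ring
        rw [e5]
        have : 0 ≤ β * T + s / β := by positivity
        linarith
      calc ‖x‖ ≤ |K| * T + s * |K| := e1
        _ = |K| * (T + s) := by ring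
        _ ≤ |K| * ((1 + 1 / β) * (β * T + s)) := mul_le_mul_of_nonneg_left e4 hK0
        _ = |K| * (1 + 1 / β) * (β * T + s) := by ring
    obtain ⟨f, hf, hfn⟩ := hkey (β * T + s) x F (by positivity) hFM ⟨m0, hm0⟩ hxn (by
      intro m' hm' m hm hmF
      have e1 := h1 m' hm' m hm hmF
      have e2 := h2 m' hm' m hm hmF
      rw [hx, inner_add_right, inner_smul_right]
      have e3 : (s : ℝ) * 1 ≤ s * ⟪m' - m, ζ0⟫_ℝ := mul_le_mul_of_nonneg_left e2 hs0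
      linarith)
    have hf1 : ⟪f, ζ0⟫_ℝ ≤ ⟪m0, ζ0⟫_ℝ := by
      refine inner_le_of_hull hf fun m hm => ?_
      have := h3 m hm
      rw [inner_sub_left] at this
      linarith
    have hf2 : ⟪f, -ζ0⟫_ℝ ≤ ⟪m0, -ζ0⟫_ℝ := by
      refine inner_le_of_hull hf fun m hm => ?_
      have := h3 m hm
      rw [inner_sub_left] at this
      rw [inner_neg_right, inner_neg_right]
      linarith
    rw [inner_neg_right, inner_neg_right] at hf2
    have hsub := hP.sub x (x + ζ0)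
    rw [add_sub_cancel_left] at hsub
    have hcs : -(‖G x - f‖ * ‖ζ0‖) ≤ ⟪G x - f, ζ0⟫_ℝ := by
      have := abs_real_inner_le_norm (G x - f) ζ0
      exact (abs_le.1 this).1
    rw [inner_sub_left] at hcs
    have hb : ‖G x - f‖ * ‖ζ0‖ ≤ |K| * C3 * Real.exp (-(ε3 * β * T)) * q ^ s := by
      have e1 : Real.exp (-(ε3 * (β * T + s))) = Real.exp (-(ε3 * β * T)) * q ^ s := by
        rw [hq, ← Real.exp_nat_mul, ← Real.exp_add]
        congr 1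
        ring
      rw [e1] at hfn
      calc ‖G x - f‖ * ‖ζ0‖ ≤ (C3 * (Real.exp (-(ε3 * β * T)) * q ^ s)) * |K| :=
            mul_le_mul hfn (hζ0.trans (le_abs_self K)) (norm_nonneg _) (by positivity)
        _ = _ := by ring
    rw [inner_add_right]
    linarith
  have hind : ∀ N : ℕ, u x1 - ⟪m0, x1⟫_ℝ
      - |K| * C3 * Real.exp (-(ε3 * β * T)) * ((1 - q ^ N) / (1 - q)) ≤
        u (x1 + (N : ℝ) • ζ0) - ⟪m0, x1 + (N : ℝ) • ζ0⟫_ℝ := by
    intro N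
    induction N with
    | zero => simp
    | succ N ih =>
      have e1 := hstep N
      have e2 : (1 - q ^ (N + 1)) / (1 - q) = (1 - q ^ N) / (1 - q) + q ^ N := by
        rw [pow_succ]
        field_simp
        ring
      rw [e2, mul_add]
      linarith
  intro N
  have e1 := hind N
  have e2 : |K| * C3 * Real.exp (-(ε3 * β * T)) * ((1 - q ^ N) / (1 - q))
      ≤ (|K| * C3 / (1 - q) + 1) * Real.exp (-(ε3 * β * T)) := by
    have e3 : (1 - q ^ N) / (1 - q) ≤ 1 / (1 - q) := by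
      apply div_le_div_of_nonneg_right _ h1q.le
      have := pow_nonneg hq0.le N
      linarith
    have e4 := Real.exp_pos (-(ε3 * β * T))
    calc |K| * C3 * Real.exp (-(ε3 * β * T)) * ((1 - q ^ N) / (1 - q))
        ≤ |K| * C3 * Real.exp (-(ε3 * β * T)) * (1 / (1 - q)) :=
          mul_le_mul_of_nonneg_left e3 (by positivity)
      _ = |K| * C3 / (1 - q) * Real.exp (-(ε3 * β * T)) := by ring
      _ ≤ _ := mul_le_mul_of_nonneg_right (by linarith) e4.le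
  linarith

end Pool.Agent.LibTK94
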