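import Pool.Agent.LibTK94.Basic

/-!
# Row A5: a function with exponential decay has an exponentially small tail

Plan.  For `‖y‖ ≥ R`: `exp(-(ε‖y‖)) ≤ exp(-(ε/2 R)) exp(-(ε/2 ‖y‖))`, so (WLOG `A ≥ 0`, replace by `max A 0`)
the integral is `≤ ofReal (A exp(-(ε/2) R)) * ∫⁻ ofReal (exp(-(ε/2)‖y‖))`, and the last integral is finite:
`exp(-(c t)) ≤ C' (1+t)^(-(n+1))` and `finite_integral_one_add_norm` / `integrable_one_add_norm`
(`finrank ℝ (V n) = n < n+1`).  No measurability of `D` is needed (`lintegral_mono`, `setLIntegral`).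
-/

set_option autoImplicit false

open MeasureTheory
open scoped InnerProductSpace

namespace Pool.Agent.LibTK94

private theorem Mass_fin {n : ℕ} {c : ℝ} (hc : 0 < c) :
    ∫⁻ y : V n, ENNReal.ofReal (Real.exp (-(c * ‖y‖))) < ⊤ := by
  have h1 : ∀ y : V n, Real.exp (-(c * ‖y‖)) ≤
      (Real.exp c * ((n + 1).factorial : ℝ) / c ^ (n + 1)) *
        (1 + ‖y‖) ^ (-((n + 1 : ℕ) : ℝ)) := by
    intro y
    have hy : 0 < 1 + ‖y‖ := by positivity
    have h2 := Real.pow_div_factorial_le_exp (c * (1 + ‖y‖)) (by positivity) (n + 1)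
    rw [Real.rpow_neg hy.le, Real.rpow_natCast]
    have h3 : Real.exp (c * (1 + ‖y‖)) = Real.exp c * Real.exp (c * ‖y‖) := by
      rw [← Real.exp_add]
      ring_nf
    rw [h3, mul_pow] at h2
    have hf : (0 : ℝ) < ((n + 1).factorial : ℝ) := by exact_mod_cast Nat.factorial_pos (n + 1)
    have he := Real.exp_pos (c * ‖y‖)
    rw [div_le_iff₀ hf] at h2
    rw [Real.exp_neg, ← div_eq_mul_inv, inv_eq_one_div, div_div, div_le_div_iff₀ he (by positivity)]
    linarith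
  have hr : (Module.finrank ℝ (V n) : ℝ) < ((n + 1 : ℕ) : ℝ) := by
    have : Module.finrank ℝ (V n) = n := by simp [V]
    rw [this]
    push_cast
    linarith
  have h2 : (∫⁻ y : V n, ENNReal.ofReal ((1 + ‖y‖) ^ (-((n + 1 : ℕ) : ℝ)))) < ⊤ :=
    finite_integral_one_add_norm hr
  set K : ℝ := Real.exp c * ((n + 1).factorial : ℝ) / c ^ (n + 1) with hK
  have hK0 : 0 ≤ K := by positivity
  calc ∫⁻ y : V n, ENNReal.ofReal (Real.exp (-(c * ‖y‖)))
      ≤ ∫⁻ y : V n, ENNReal.ofReal K * ENNReal.ofReal ((1 + ‖y‖) ^ (-((n + 1 : ℕ) : ℝ))) := by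
        refine lintegral_mono fun y => ?_
        rw [← ENNReal.ofReal_mul hK0]
        exact ENNReal.ofReal_le_ofReal (h1 y)
    _ = ENNReal.ofReal K * ∫⁻ y : V n, ENNReal.ofReal ((1 + ‖y‖) ^ (-((n + 1 : ℕ) : ℝ))) :=
        lintegral_const_mul' _ _ ENNReal.ofReal_ne_top
    _ < ⊤ := ENNReal.mul_lt_top ENNReal.ofReal_lt_top h2

theorem mass_of_decay {n : ℕ} (D : V n → ℝ) {A ε : ℝ} (hε : 0 < ε)
    (h : ∀ y, D y ≤ A * Real.exp (-(ε * ‖y‖))) :
    ∃ C > (0 : ℝ), ∃ ε' > (0 : ℝ), ∀ R : ℝ, 0 ≤ R →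
      ∫⁻ y in {y : V n | R ≤ ‖y‖}, ENNReal.ofReal (D y) ≤
        ENNReal.ofReal (C * Real.exp (-(ε' * R))) := by
  have hI := Mass_fin (n := n) (c := ε / 2) (by positivity)
  set I := ∫⁻ y : V n, ENNReal.ofReal (Real.exp (-(ε / 2 * ‖y‖))) with hIdef
  set A' : ℝ := max A 0 with hA'
  have hA0 : 0 ≤ A' := le_max_right _ _
  refine ⟨A' * I.toReal + 1, by positivity, ε / 2, by positivity, fun R hR => ?_⟩
  have hS : MeasurableSet {y : V n | R ≤ ‖y‖} := measurableSet_le measurable_const measurable_norm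
  have he := Real.exp_pos (-(ε / 2 * R))
  calc ∫⁻ y in {y : V n | R ≤ ‖y‖}, ENNReal.ofReal (D y)
      ≤ ∫⁻ y in {y : V n | R ≤ ‖y‖}, ENNReal.ofReal (A' * Real.exp (-(ε / 2 * R))) *
          ENNReal.ofReal (Real.exp (-(ε / 2 * ‖y‖))) := by
        refine setLIntegral_mono' hS fun y hy => ?_
        have hy' : R ≤ ‖y‖ := hy
        rw [← ENNReal.ofReal_mul (by positivity)]
        refine ENNReal.ofReal_le_ofReal ((h y).trans ?_)
        have h1 : Real.exp (-(ε * ‖y‖)) ≤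
            Real.exp (-(ε / 2 * R)) * Real.exp (-(ε / 2 * ‖y‖)) := by
          rw [← Real.exp_add]
          refine Real.exp_le_exp.2 ?_
          nlinarith
        calc A * Real.exp (-(ε * ‖y‖)) ≤ A' * Real.exp (-(ε * ‖y‖)) :=
              mul_le_mul_of_nonneg_right (le_max_left _ _) (Real.exp_pos _).le
          _ ≤ A' * (Real.exp (-(ε / 2 * R)) * Real.exp (-(ε / 2 * ‖y‖))) :=
              mul_le_mul_of_nonneg_left h1 hA0
          _ = _ := by ring
    _ ≤ ∫⁻ y : V n, ENNReal.ofReal (A' * Real.exp (-(ε / 2 * R))) *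
          ENNReal.ofReal (Real.exp (-(ε / 2 * ‖y‖))) := setLIntegral_le_lintegral _ _
    _ = ENNReal.ofReal (A' * Real.exp (-(ε / 2 * R))) * I :=
        lintegral_const_mul' _ _ ENNReal.ofReal_ne_top
    _ = ENNReal.ofReal (A' * Real.exp (-(ε / 2 * R)) * I.toReal) := by
        rw [ENNReal.ofReal_mul (p := A' * Real.exp (-(ε / 2 * R))) (by positivity),
          ENNReal.ofReal_toReal hI.ne]
    _ ≤ _ := by
        refine ENNReal.ofReal_le_ofReal ?_
        nlinarith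

end Pool.Agent.LibTK94
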