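import Pool.Agent.LibTK94.Real
import Pool.Agent.LibTK94.Area
import Pool.Agent.LibTK94.Mass
import Pool.Agent.LibTK94.Decay
import Pool.Agent.LibTK94.CEin
import Pool.Agent.LibTK94.CReg
import Pool.Agent.LibTK94.CFS

/-!
# Assembly
-/

set_option autoImplicit false

open MeasureTheory
open scoped InnerProductSpace ComplexOrder

namespace Pool.Agent.LibTK94

theorem Reg.smul {n : ℕ} {u : V n → ℝ} {G : V n → V n} {H : V n → Matrix (Fin n) (Fin n) ℝ}
    (hR : Reg u G H) {t : ℝ} (ht : 0 < t) :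
    Reg (fun x => t * u x) (fun x => t • G x) (fun x => t • H x) := by
  refine ⟨fun x => ?_, fun x => ?_, fun x => (hR.pos x).smul ht⟩
  · have h := (hR.grad x).const_mul t
    have he : innerSL ℝ (t • G x) = t • innerSL ℝ (G x) := by
      rw [map_smulₛₗ]
      rfl
    rw [he]
    exact h
  · have h := (hR.hess x).const_smul t
    have he : LinearMap.toContinuousLinearMap (Matrix.toEuclideanLin (t • H x)) =
        t • LinearMap.toContinuousLinearMap (Matrix.toEuclideanLin (H x)) := by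
      rw [map_smul, map_smul]
    rw [he]
    exact h

/-- The real theorem with the mass condition. -/
theorem holder_of_mass {n : ℕ} (hn : n ≠ 0) {M : Finset (V n)} (hM : M.Nonempty) (hS : Spans M)
    {u : V n → ℝ} {G : V n → V n} {H : V n → Matrix (Fin n) (Fin n) ℝ} (hR : Reg u G H) {C0 : ℝ}
    (hB : ∀ x, |u x - lse M x| ≤ C0) {C ε : ℝ} (hε : 0 < ε)
    (hmass : ∀ R : ℝ, 0 ≤ R → ∫⁻ y in {y : V n | R ≤ ‖y‖}, ENNReal.ofReal (H y).det ≤
      ENNReal.ofReal (C * Real.exp (-(ε * R)))) :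
    ∃ C > (0 : ℝ), ∃ α > (0 : ℝ), ∀ x y : V n,
      |(u x - lse M x) - (u y - lse M y)| ≤ C * (bd M x y) ^ α := by
  have hP : Pot M u G :=
    ⟨hull_of_sub hM (sub_of_reg hR) (C0 := C0) (fun x => by linarith [(abs_le.mp (hB x)).2]),
      sub_of_reg hR⟩
  exact real_holder hn hM hS hP (tail_of_mass hM hS hR hB hε hmass) hB

/-- The real theorem with the affine relation. -/
theorem holder_of_affine {n : ℕ} (hn : n ≠ 0) {M : Finset (V n)} (hM : M.Nonempty)
    (hS : Spans M) {u : V n → ℝ} {G : V n → V n} {H : V n → Matrix (Fin n) (Fin n) ℝ}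
    (hR : Reg u G H) {C0 : ℝ} (hB : ∀ x, |u x - lse M x| ≤ C0) {lam a : ℝ} {b : V n}
    (hE : ∀ x, Real.log (H x).det = -(lam * u x) + ⟪b, x⟫_ℝ + a) :
    ∃ C > (0 : ℝ), ∃ α > (0 : ℝ), ∀ x y : V n,
      |(u x - lse M x) - (u y - lse M y)| ≤ C * (bd M x y) ^ α := by
  have hD : ∀ x, (H x).det = Real.exp (-(lam * u x) + ⟪b, x⟫_ℝ + a) := fun x => by
    rw [← hE x, Real.exp_log (hR.pos x).det_pos]
  have hfin := total_mass hM hR (C0 := C0) (fun x => by linarith [(abs_le.mp (hB x)).2])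
  obtain ⟨A, ε, hε, hA⟩ := decay hM hB hD hfin
  obtain ⟨C, -, ε', hε', hC⟩ := mass_of_decay (fun y => (H y).det) hε hA
  exact holder_of_mass hn hM hS hR hB hε' hC

theorem reV_ofR {n : ℕ} (x : V n) : reV (ofR x) = x := by
  ext j
  simp [reV, ofR]

end Pool.Agent.LibTK94
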