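import Pool.Agent.LibTK94.Basic

/-!
# Row B2: the gradient is exponentially close to the face (key lemma)

Plan.  Let `D ≥ 0` bound `‖m - m'‖` on `M`, WLOG `K ≥ 1` (replace by `max K 1`), `κ = 1/(4K)`.
Write `G x = ∑ m ∈ M, w m • m` with `w ≥ 0`, `∑ w = 1` (`hP.hull x`, `Finset.mem_convexHull'` or
`Finset.centerMass`), `ω = ∑ m ∈ M \ F, w m ∈ [0,1]`.  Choose `f* ∈ F` and put
`f = ∑ m ∈ F, w m • m + ω • f*`: it lies in `convexHull F` and `f - G x = ∑_{m ∉ F} w m • (f* - m)`,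
so `⟪f - G x, x⟫ ≥ ω T` and `‖f - G x‖ ≤ ω D`.  If `ω = 0` done.  If `ω > 0` let
`p = (1/2) • (G x + f)` (in the hull of `M`, convexity) and `r = κ ω ≤ 1`.  For `y` with
`dist (G y) p < r` write `G y - G x = (1/2)•(f - G x) + e'`, `‖e'‖ < κ ω`; by `hP.mono x y`
`⟪G y - G x, y⟫ ≥ ⟪G y - G x, x⟫ ≥ ω T/2 - κ ω ‖x‖ ≥ ω T (1/2 - κ K) = ω T/4`, and
`⟪G y - G x, y⟫ ≤ (ω D/2 + κ ω) ‖y‖ ≤ ω (D/2+1) ‖y‖`, hence `‖y‖ ≥ T/(2 D + 4) =: R`.
`Tail` gives `(κ ω)^k ≤ C exp (-(ε R))`, so `ω ≤ κ⁻¹ C^(1/k) exp (-(ε T/(k (2D+4))))`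
(use `Real.rpow`, or `pow_le_pow_left` the other way: compare `k`-th powers), and
`‖G x - f‖ ≤ D ω`.
-/

set_option autoImplicit false

open MeasureTheory
open scoped InnerProductSpace

namespace Pool.Agent.LibTK94

private theorem Key_hull {n : ℕ} {M F : Finset (V n)} (hFM : F ⊆ M) {g fs : V n} (hfs : fs ∈ F)
    (hg : g ∈ convexHull ℝ (M : Set (V n))) :
    ∃ (f : V n) (ω : ℝ), f ∈ convexHull ℝ (F : Set (V n)) ∧ 0 ≤ ω ∧ ω ≤ 1 ∧
      (∀ (D : ℝ), (∀ m ∈ M, ‖fs - m‖ ≤ D) → ‖f - g‖ ≤ ω * D) ∧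
      ∀ (x : V n) (T : ℝ), (∀ m ∈ M, m ∉ F → T ≤ ⟪fs - m, x⟫_ℝ) → ω * T ≤ ⟪f - g, x⟫_ℝ := by
  classical
  obtain ⟨w, hw0, hw1, hwG⟩ := Finset.mem_convexHull'.1 hg
  have hfg : (∑ m ∈ F, w m • m + (∑ m ∈ M \ F, w m) • fs) - g =
      ∑ m ∈ M \ F, w m • (fs - m) := by
    rw [← hwG, ← Finset.sum_sdiff hFM (f := fun m => w m • m)]
    simp only [smul_sub, Finset.sum_sub_distrib, Finset.sum_smul]
    abel
  have hsplit : ∑ m ∈ M \ F, w m + ∑ m ∈ F, w m = 1 := by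
    rw [Finset.sum_sdiff hFM, hw1]
  have hF0 : 0 ≤ ∑ m ∈ F, w m := Finset.sum_nonneg fun m hm => hw0 m (hFM hm)
  have hω0 : 0 ≤ ∑ m ∈ M \ F, w m :=
    Finset.sum_nonneg fun m hm => hw0 m (Finset.mem_sdiff.1 hm).1
  refine ⟨∑ m ∈ F, w m • m + (∑ m ∈ M \ F, w m) • fs, ∑ m ∈ M \ F, w m, ?_, hω0, by linarith,
    ?_, ?_⟩
  · refine Finset.mem_convexHull'.2 ⟨fun m => w m + if m = fs then ∑ m ∈ M \ F, w m else 0,
      fun m hm => ?_, ?_, ?_⟩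
    · refine add_nonneg (hw0 m (hFM hm)) ?_
      split_ifs
      · exact hω0
      · exact le_rfl
    · rw [Finset.sum_add_distrib, Finset.sum_ite_eq' F fs, if_pos hfs]
      linarith
    · simp only [add_smul, Finset.sum_add_distrib, ite_smul, zero_smul]
      rw [Finset.sum_ite_eq' F fs, if_pos hfs]
  · intro D hD
    rw [hfg, Finset.sum_mul]
    refine (norm_sum_le _ _).trans (Finset.sum_le_sum fun m hm => ?_)
    have hm' := (Finset.mem_sdiff.1 hm).1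
    rw [norm_smul, Real.norm_of_nonneg (hw0 m hm')]
    exact mul_le_mul_of_nonneg_left (hD m hm') (hw0 m hm')
  · intro x T hT
    rw [hfg, Finset.sum_mul, sum_inner]
    refine Finset.sum_le_sum fun m hm => ?_
    obtain ⟨hm1, hm2⟩ := Finset.mem_sdiff.1 hm
    rw [real_inner_smul_left]
    exact mul_le_mul_of_nonneg_left (hT m hm1 hm2) (hw0 m hm1)

theorem key {n k : ℕ} (hk : k ≠ 0) {M : Finset (V n)} {u : V n → ℝ} {G : V n → V n}
    (hP : Pot M u G) (hT : Tail M G k) (K : ℝ) :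
    ∃ C > (0 : ℝ), ∃ ε > (0 : ℝ), ∀ (T : ℝ) (x : V n) (F : Finset (V n)), 0 ≤ T → F ⊆ M →
      F.Nonempty → ‖x‖ ≤ K * T → (∀ m' ∈ F, ∀ m ∈ M, m ∉ F → T ≤ ⟪m' - m, x⟫_ℝ) →
      ∃ f ∈ convexHull ℝ (F : Set (V n)), ‖G x - f‖ ≤ C * Real.exp (-(ε * T)) := by
  classical
  obtain ⟨C0, hC0, ε0, hε0, hTail⟩ := hT
  obtain ⟨D, hD0, hD⟩ : ∃ D : ℝ, 0 ≤ D ∧ ∀ m ∈ M, ∀ m' ∈ M, ‖m - m'‖ ≤ D := by
    refine ⟨∑ m ∈ M, ∑ m' ∈ M, ‖m - m'‖, Finset.sum_nonneg fun _ _ =>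
      Finset.sum_nonneg fun _ _ => norm_nonneg _, fun m hm m' hm' => ?_⟩
    refine (Finset.single_le_sum (f := fun m' => ‖m - m'‖) (fun _ _ => norm_nonneg _) hm').trans ?_
    exact Finset.single_le_sum (f := fun m => ∑ m' ∈ M, ‖m - m'‖)
      (fun _ _ => Finset.sum_nonneg fun _ _ => norm_nonneg _) hm
  obtain ⟨K1, hK1, hKK1⟩ : ∃ K1 : ℝ, 1 ≤ K1 ∧ K ≤ K1 := ⟨max K 1, le_max_right _ _, le_max_left _ _⟩
  have hK10 : 0 < K1 := by linarith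
  set κ : ℝ := 1 / (4 * K1) with hκ
  have hκ0 : 0 < κ := by positivity
  have hκK : κ * K1 = 1 / 4 := by
    rw [hκ]
    field_simp
  have hκ1 : κ ≤ 1 := by
    rw [hκ, div_le_one (by positivity)]
    linarith
  set c : ℝ := C0 ^ ((k : ℝ)⁻¹) with hcdef
  have hc : c ^ k = C0 := Real.rpow_inv_natCast_pow hC0.le hk
  have hc0 : 0 < c := Real.rpow_pos_of_pos hC0 _
  have hkR : (0 : ℝ) < k := Nat.cast_pos.2 (Nat.pos_of_ne_zero hk)
  refine ⟨D * (κ⁻¹ * c) + 1, by positivity, ε0 / (k * (2 * D + 4)), by positivity, ?_⟩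
  intro T x F hT0 hFM hFne hx hgap
  obtain ⟨fs, hfs⟩ := hFne
  obtain ⟨f, ω, hfF, hω0, hω1, hfn, hfi⟩ := Key_hull hFM hfs (hP.hull x)
  have hn1 : ‖f - G x‖ ≤ ω * D := hfn D fun m hm => hD fs (hFM hfs) m hm
  have hi1 : ω * T ≤ ⟪f - G x, x⟫_ℝ := hfi x T fun m hm hmF => hgap fs hfs m hm hmF
  refine ⟨f, hfF, ?_⟩
  have hE : 0 < Real.exp (-(ε0 / (k * (2 * D + 4)) * T)) := Real.exp_pos _
  have hn2 : ‖G x - f‖ ≤ ω * D := by
    rw [norm_sub_rev]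
    exact hn1
  suffices hω : ω ≤ κ⁻¹ * c * Real.exp (-(ε0 / (k * (2 * D + 4)) * T)) by
    refine hn2.trans ?_
    have h1 := mul_le_mul_of_nonneg_right hω hD0
    nlinarith
  rcases hω0.eq_or_lt with h0 | hωpos
  · rw [← h0]
    positivity
  -- the point between
  have hpM : (1 / 2 : ℝ) • G x + (1 / 2 : ℝ) • f ∈ convexHull ℝ (M : Set (V n)) :=
    (convex_convexHull ℝ (M : Set (V n))) (hP.hull x)
      (convexHull_mono (Finset.coe_subset.2 hFM) hfF) (by norm_num) (by norm_num) (by norm_num)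
  have hr0 : 0 < κ * ω := by positivity
  have hr1 : κ * ω ≤ 1 := mul_le_one₀ hκ1 hω0 hω1
  have hR0 : 0 ≤ T / (2 * D + 4) := by positivity
  have hR : ∀ y, dist (G y) ((1 / 2 : ℝ) • G x + (1 / 2 : ℝ) • f) < κ * ω →
      T / (2 * D + 4) ≤ ‖y‖ := by
    intro y hy
    rw [dist_eq_norm] at hy
    set e' : V n := G y - ((1 / 2 : ℝ) • G x + (1 / 2 : ℝ) • f) with he'
    have hdec : G y - G x = (1 / 2 : ℝ) • (f - G x) + e' := by
      rw [he', smul_sub]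
      have h1 : G x = (1 / 2 : ℝ) • G x + (1 / 2 : ℝ) • G x := by
        rw [← add_smul]
        norm_num
      nth_rewrite 1 [h1]
      abel
    have hmono := hP.mono x y
    rw [inner_sub_right] at hmono
    have hlow : ω * T / 4 ≤ ⟪G y - G x, x⟫_ℝ := by
      rw [hdec, inner_add_left, real_inner_smul_left]
      have h1 : |⟪e', x⟫_ℝ| ≤ ‖e'‖ * ‖x‖ := abs_real_inner_le_norm _ _
      have h2 : ‖e'‖ * ‖x‖ ≤ κ * ω * (K1 * T) := by
        refine mul_le_mul hy.le (hx.trans (mul_le_mul_of_nonneg_right hKK1 hT0)) (norm_nonneg _)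
          hr0.le
      have h3 : κ * ω * (K1 * T) = ω * T / 4 := by
        calc κ * ω * (K1 * T) = (κ * K1) * (ω * T) := by ring
          _ = ω * T / 4 := by rw [hκK]; ring
      have h4 := (abs_le.1 h1).1
      linarith
    have hup : ⟪G y - G x, y⟫_ℝ ≤ ω * (D / 2 + 1) * ‖y‖ := by
      refine (real_inner_le_norm _ _).trans (mul_le_mul_of_nonneg_right ?_ (norm_nonneg _))
      rw [hdec]
      refine (norm_add_le _ _).trans ?_
      rw [norm_smul, Real.norm_of_nonneg (by norm_num : (0 : ℝ) ≤ 1 / 2)]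
      have h1 : κ * ω ≤ 1 * ω := mul_le_mul_of_nonneg_right hκ1 hω0
      nlinarith
    have h5 : ω * (T / 4) ≤ ω * ((D / 2 + 1) * ‖y‖) := by
      have : ω * T / 4 ≤ ω * (D / 2 + 1) * ‖y‖ := by linarith
      linarith
    have h6 : T / 4 ≤ (D / 2 + 1) * ‖y‖ := le_of_mul_le_mul_left h5 hωpos
    rw [div_le_iff₀ (by positivity)]
    linarith
  have h7 := hTail _ hpM (κ * ω) hr0 hr1 _ hR0 hR
  have h8 : (κ * ω) ^ k ≤ (c * Real.exp (-(ε0 / (k * (2 * D + 4)) * T))) ^ k := by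
    rw [mul_pow c, hc, ← Real.exp_nat_mul]
    refine h7.trans (le_of_eq ?_)
    congr 2
    field_simp
  have h9 : κ * ω ≤ c * Real.exp (-(ε0 / (k * (2 * D + 4)) * T)) :=
    le_of_pow_le_pow_left₀ hk (by positivity) h8
  calc ω = κ⁻¹ * (κ * ω) := by
        rw [← mul_assoc, inv_mul_cancel₀ hκ0.ne', one_mul]
    _ ≤ κ⁻¹ * (c * Real.exp (-(ε0 / (k * (2 * D + 4)) * T))) :=
        mul_le_mul_of_nonneg_left h9 (by positivity)
    _ = κ⁻¹ * c * Real.exp (-(ε0 / (k * (2 * D + 4)) * T)) := by ring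

end Pool.Agent.LibTK94
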