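import Pool.Agent.LibTK94.Basic

/-!
# Row B6: linear lift with a bound, uniformly for the finitely many subsets

Plan.  For fixed `F` and `m0` let `A : V n →ₗ[ℝ] (F → ℝ)`, `A e = fun m => ⟪m - m0, e⟫`.  In finite
dimension there is a linear `s : range A → V n` with `A (s y) = y` (`LinearMap.exists_rightInverse_of_surjective`
applied to `A.rangeRestrict`), it is continuous (`LinearMap.toContinuousLinearMap`), so
`‖s y‖ ≤ ‖s‖ ‖y‖`, and the sup norm of `A e` is `≤ h` (`pi_norm_le_iff_of_nonneg`).  Take the maximum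
(or the sum) of the constants over `F ∈ M.powerset`, `m0 ∈ M`.
-/

set_option autoImplicit false

open MeasureTheory
open scoped InnerProductSpace

namespace Pool.Agent.LibTK94

private theorem Lift_one {n : ℕ} (F : Finset (V n)) (m0 : V n) :
    ∃ K : ℝ, 0 < K ∧ ∀ (e : V n) (h : ℝ), 0 ≤ h →
      (∀ m ∈ F, |⟪m - m0, e⟫_ℝ| ≤ h) →
      ∃ τ : V n, (∀ m ∈ F, ⟪m - m0, τ⟫_ℝ = ⟪m - m0, e⟫_ℝ) ∧ ‖τ‖ ≤ K * h := by
  let A : V n →ₗ[ℝ] (F → ℝ) :=
    LinearMap.pi (fun m : F => (innerSL ℝ ((m : V n) - m0)).toLinearMap)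
  have hA : ∀ (e : V n) (m : F), A e m = ⟪(m : V n) - m0, e⟫_ℝ := fun e m => rfl
  obtain ⟨s, hs⟩ := LinearMap.exists_rightInverse_of_surjective A.rangeRestrict
    (LinearMap.range_rangeRestrict A)
  let S : (LinearMap.range A) →L[ℝ] V n := LinearMap.toContinuousLinearMap s
  refine ⟨‖S‖ + 1, by have := S.opNorm_nonneg; linarith, fun e h hh he => ?_⟩
  let y : LinearMap.range A := A.rangeRestrict e
  have hy : ‖y‖ ≤ h := by
    change ‖A e‖ ≤ h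
    rw [pi_norm_le_iff_of_nonneg hh]
    intro m
    rw [hA, Real.norm_eq_abs]
    exact he m m.2
  refine ⟨S y, fun m hm => ?_, ?_⟩
  · have h1 : A.rangeRestrict (s y) = y := LinearMap.congr_fun hs y
    have h2 : A (s y) = A e := congrArg Subtype.val h1
    have h3 := congrFun h2 ⟨m, hm⟩
    rw [hA, hA] at h3
    exact h3
  · have h1 := S.le_opNorm y
    have h2 : ‖S‖ * ‖y‖ ≤ ‖S‖ * h := mul_le_mul_of_nonneg_left hy S.opNorm_nonneg
    nlinarith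

theorem lift {n : ℕ} (M : Finset (V n)) :
    ∃ K > (0 : ℝ), ∀ F ⊆ M, ∀ m0 ∈ M, ∀ (e : V n) (h : ℝ), 0 ≤ h →
      (∀ m ∈ F, |⟪m - m0, e⟫_ℝ| ≤ h) →
      ∃ τ : V n, (∀ m ∈ F, ⟪m - m0, τ⟫_ℝ = ⟪m - m0, e⟫_ℝ) ∧ ‖τ‖ ≤ K * h := by
  classical
  choose K hK0 hK using fun (F : Finset (V n)) (m0 : V n) => Lift_one F m0
  refine ⟨∑ F ∈ M.powerset, ∑ m0 ∈ M, K F m0 + 1, ?_, fun F hF m0 hm0 e h hh he => ?_⟩
  · have : 0 ≤ ∑ F ∈ M.powerset, ∑ m0 ∈ M, K F m0 :=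
      Finset.sum_nonneg fun F _ => Finset.sum_nonneg fun m0 _ => (hK0 F m0).le
    linarith
  · obtain ⟨τ, h1, h2⟩ := hK F m0 e h hh he
    refine ⟨τ, h1, h2.trans (mul_le_mul_of_nonneg_right ?_ hh)⟩
    have h3 : K F m0 ≤ ∑ m0 ∈ M, K F m0 :=
      Finset.single_le_sum (f := fun m0 => K F m0) (fun m0 _ => (hK0 F m0).le) hm0
    have h4 : ∑ m0 ∈ M, K F m0 ≤ ∑ F ∈ M.powerset, ∑ m0 ∈ M, K F m0 :=
      Finset.single_le_sum (f := fun F => ∑ m0 ∈ M, K F m0)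
        (fun F _ => Finset.sum_nonneg fun m0 _ => (hK0 F m0).le) (Finset.mem_powerset.2 hF)
    linarith

end Pool.Agent.LibTK94
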