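import Pool.Agent.LibTK94.Basic

/-!
# Row B7a: differences of slopes from the distance of the unit vectors

Plan.  `c = exp(-((1/2) log |M|)) ∈ (0,1]`, `δ = bd M x y`.  `bb_max_ge` gives `c ≤ bb M m0 x`, and
`bb M m x = bb M m0 x * exp(-⟪m0 - m, x⟫)` (definition), so for `m ∈ F`:
`bb M m x ≥ c δ^(1/4)`; also `bb M m0 x ≥ c ≥ c δ^(1/4)` (`δ ≤ 1`).
`|bb M m y - bb M m x| ≤ δ` (`abs_bb_sub_le`).  Choose `δ0 ≤ 1` with `δ0^(3/4) ≤ c/2`
(e.g. `δ0 = (c/2)^2`), so `δ = δ^(3/4) δ^(1/4) ≤ (1/2) c δ^(1/4)`.  For `0 < a`, `|b - a| ≤ a/2`: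
`|log b - log a| ≤ 2 |b - a|/a` (`Real.log_le_sub_one_of_pos` for `b/a` and `a/b`), so
`|log bb M m y - log bb M m x| ≤ (2/c) δ^(3/4)` for `m ∈ F` and for `m0`.
`⟪m - m0, y - x⟫ = (log bb M m y - log bb M m x) - (log bb M m0 y - log bb M m0 x)` (`log_bb`).
`C = 4/c`.
-/

set_option autoImplicit false

open MeasureTheory
open scoped InnerProductSpace

namespace Pool.Agent.LibTK94

private theorem Slope_log {a b : ℝ} (ha : 0 < a) (h : |b - a| ≤ a / 2) :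
    |Real.log b - Real.log a| ≤ 2 * |b - a| / a := by
  have hb : a / 2 ≤ b := by
    have := (abs_le.1 h).1
    linarith
  have hb0 : 0 < b := by linarith
  have h0 : 0 ≤ |b - a| := abs_nonneg _
  rw [abs_le]
  constructor
  · have h1 := Real.log_le_sub_one_of_pos (div_pos ha hb0)
    rw [Real.log_div ha.ne' hb0.ne'] at h1
    have h2 : a / b - 1 ≤ 2 * |b - a| / a := by
      have h3 : a / b - 1 = (a - b) / b := by field_simp
      rw [h3, div_le_div_iff₀ hb0 ha]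
      have h4 : a - b ≤ |b - a| := by rw [abs_sub_comm]; exact le_abs_self _
      calc (a - b) * a ≤ |b - a| * a := mul_le_mul_of_nonneg_right h4 ha.le
        _ ≤ |b - a| * (2 * b) := mul_le_mul_of_nonneg_left (by linarith) h0
        _ = 2 * |b - a| * b := by ring
    linarith
  · have h1 := Real.log_le_sub_one_of_pos (div_pos hb0 ha)
    rw [Real.log_div hb0.ne' ha.ne'] at h1
    have h2 : b / a - 1 ≤ 2 * |b - a| / a := by
      have h3 : b / a - 1 = (b - a) / a := by field_simp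
      rw [h3]
      apply div_le_div_of_nonneg_right _ ha.le
      linarith [le_abs_self (b - a)]
    linarith

theorem slope {n : ℕ} {M : Finset (V n)} (hM : M.Nonempty) :
    ∃ C > (0 : ℝ), ∃ δ0 > (0 : ℝ), ∀ (x y m0 : V n) (F : Finset (V n)), F ⊆ M → m0 ∈ M →
      (∀ m ∈ M, 0 ≤ ⟪m0 - m, x⟫_ℝ) → 0 < bd M x y → bd M x y ≤ δ0 →
      (∀ m ∈ F, (bd M x y) ^ ((1 : ℝ) / 4) ≤ Real.exp (-⟪m0 - m, x⟫_ℝ)) →
      (∀ m ∈ F, |⟪m - m0, y - x⟫_ℝ| ≤ C * (bd M x y) ^ ((3 : ℝ) / 4)) ∧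
      |Real.log (bb M m0 y) - Real.log (bb M m0 x)| ≤ C * (bd M x y) ^ ((3 : ℝ) / 4) := by
  obtain ⟨c, hc⟩ : ∃ c : ℝ, c = Real.exp (-((1 / 2) * Real.log (M.card : ℝ))) := ⟨_, rfl⟩
  have hc0 : 0 < c := by rw [hc]; exact Real.exp_pos _
  have hc1 : c ≤ 1 := by
    rw [hc, Real.exp_le_one_iff]
    have h1 : (1 : ℝ) ≤ M.card := by exact_mod_cast hM.card_pos
    have := Real.log_nonneg h1
    linarith
  refine ⟨4 / c, by positivity, (c / 2) ^ 2, by positivity, ?_⟩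
  intro x y m0 F hFM hm0 h0 hδ hδ0 hF
  have hbbx : ∀ m ∈ M, bb M m x = bb M m0 x * Real.exp (-⟪m0 - m, x⟫_ℝ) := by
    intro m _
    unfold bb
    rw [← Real.exp_add, inner_sub_left]
    congr 1
    ring
  have habs : ∀ m ∈ M, |bb M m y - bb M m x| ≤ bd M x y := by
    intro m hm
    rw [abs_sub_comm]
    exact abs_bb_sub_le hm x y
  have hm0x : c ≤ bb M m0 x := by
    rw [hc]
    refine bb_max_ge hM ?_
    intro m hm
    have := h0 m hm
    rw [inner_sub_left] at this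
    linarith
  generalize bd M x y = δ at hδ hδ0 hF habs ⊢
  have hδ1 : δ ≤ 1 := by
    have : (c / 2) ^ 2 ≤ 1 := by
      apply pow_le_one₀ (by positivity)
      linarith
    linarith
  have hd14 : 0 < δ ^ ((1 : ℝ) / 4) := Real.rpow_pos_of_pos hδ _
  have hd34 : 0 < δ ^ ((3 : ℝ) / 4) := Real.rpow_pos_of_pos hδ _
  have hsplit : δ = δ ^ ((3 : ℝ) / 4) * δ ^ ((1 : ℝ) / 4) := by
    rw [← Real.rpow_add hδ]
    norm_num
  have h34 : δ ^ ((3 : ℝ) / 4) ≤ c / 2 := by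
    have h1 : δ ^ ((3 : ℝ) / 4) ≤ δ ^ ((1 : ℝ) / 2) :=
      Real.rpow_le_rpow_of_exponent_ge hδ hδ1 (by norm_num)
    refine h1.trans ?_
    rw [← Real.sqrt_eq_rpow]
    exact Real.sqrt_le_iff.2 ⟨by positivity, hδ0⟩
  have h14 : δ ^ ((1 : ℝ) / 4) ≤ 1 := Real.rpow_le_one hδ.le hδ1 (by norm_num)
  -- the key estimate
  have key : ∀ m ∈ M, c * δ ^ ((1 : ℝ) / 4) ≤ bb M m x →
      |Real.log (bb M m y) - Real.log (bb M m x)| ≤ 2 / c * δ ^ ((3 : ℝ) / 4) := by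
    intro m hm hmx
    have ha := bb_pos (M := M) m x
    have hb := habs m hm
    have h1 : |bb M m y - bb M m x| ≤ bb M m x / 2 := by
      calc |bb M m y - bb M m x| ≤ δ := hb
        _ = δ ^ ((3 : ℝ) / 4) * δ ^ ((1 : ℝ) / 4) := hsplit
        _ ≤ c / 2 * δ ^ ((1 : ℝ) / 4) := mul_le_mul_of_nonneg_right h34 hd14.le
        _ = (c * δ ^ ((1 : ℝ) / 4)) / 2 := by ring
        _ ≤ bb M m x / 2 := by linarith
    refine (Slope_log ha h1).trans ?_
    calc 2 * |bb M m y - bb M m x| / bb M m x ≤ 2 * δ / (c * δ ^ ((1 : ℝ) / 4)) := by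
          apply div_le_div₀ (by positivity) (by linarith) (by positivity) hmx
      _ = 2 / c * δ ^ ((3 : ℝ) / 4) := by
          have : 2 * δ = 2 * (δ ^ ((3 : ℝ) / 4) * δ ^ ((1 : ℝ) / 4)) := by rw [← hsplit]
          rw [this]
          field_simp
  have hm0' := key m0 hm0 (by
    calc c * δ ^ ((1 : ℝ) / 4) ≤ c * 1 := mul_le_mul_of_nonneg_left h14 hc0.le
      _ = c := mul_one _
      _ ≤ _ := hm0x)
  have hcc : 2 / c * δ ^ ((3 : ℝ) / 4) ≤ 4 / c * δ ^ ((3 : ℝ) / 4) := by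
    apply mul_le_mul_of_nonneg_right _ hd34.le
    apply div_le_div_of_nonneg_right (by norm_num) hc0.le
  refine ⟨fun m hm => ?_, hm0'.trans hcc⟩
  have hmx : c * δ ^ ((1 : ℝ) / 4) ≤ bb M m x := by
    rw [hbbx m (hFM hm)]
    exact mul_le_mul hm0x (hF m hm) hd14.le (bb_pos _ _).le
  have hm' := key m (hFM hm) hmx
  have e1 : ⟪m - m0, y - x⟫_ℝ = (Real.log (bb M m y) - Real.log (bb M m x))
      - (Real.log (bb M m0 y) - Real.log (bb M m0 x)) := by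
    simp only [log_bb, inner_sub_left, inner_sub_right]
    ring
  rw [e1]
  refine (abs_sub _ _).trans ?_
  have e2 : 4 / c * δ ^ ((3 : ℝ) / 4) = 2 / c * δ ^ ((3 : ℝ) / 4) + 2 / c * δ ^ ((3 : ℝ) / 4) := by
    ring
  rw [e2]
  exact add_le_add hm' hm0'

end Pool.Agent.LibTK94
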