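import Pool.Agent.LibTK94.Scales
import Pool.Agent.LibTK94.Descend
import Pool.Agent.LibTK94.Lift
import Pool.Agent.LibTK94.Slope

/-!
# Row B7: one-sided Hölder inequality for close points

Plan.  Constants: `K1, β, N` from `scales`; `η = min 1 (min (β/(2 K1)) (1/(2 K1)))`;
`descend` with `K = K1` (replace it by `max`), `β/2` gives `C4, ε4`; `K6` from `lift`; `C7, δ0'` from `slope`;
`D` with `‖m - m'‖ ≤ D` on `M`.  `δ = bd M x y`, `L = (1/2) log (1/δ) > 0` (`δ ≤ δ0 ≤ 1/2`).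
`scales η L x` gives `T, F, m0, x1, ζ0`.
(1) for `m ∈ F`: `⟪m0 - m, x⟫ ≤ K1 η T ≤ (1/2) L`, so `exp(-⟪m0 - m,x⟫) ≥ exp(-L/2) = δ^(1/4)`; `slope` gives
the slopes `≤ C7 δ^(3/4)` on `F` and `|log bb m0 y - log bb m0 x| ≤ C7 δ^(3/4)`.
(2) `lift` for `e = y - x`, `h = C7 δ^(3/4)`: `τ` with `‖τ‖ ≤ K6 C7 δ^(3/4)`, `⟪m - m0, e - τ⟫ = 0` on `F`.
(3) `descend`: for `m' ∈ F, m ∈ M \ F`: `⟪m' - m, x1⟫ = ⟪m0 - m, x1⟫ - ⟪m0 - m', x1⟫ ≥ β T - K1 η T ≥ (β/2) T`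
because `⟪m0 - m', x1⟫ = ⟪m0 - m', x⟫` (item `x - x1`); similarly for `ζ0`.  So
`v(x1 + N' ζ0) ≥ v(x1) - C4 exp(-(ε4 T))` for all `N' : ℕ`, `v = u - ⟪m0,·⟫`.
(4) `Pot.descend_le` for `ζ = x1 - x`: `v(x1)`... NB the direction: `x = x1 + (x - x1)` and
`⟪m - m0, x - x1⟫ ≤ 0` on `M`, so `v x ≤ v x1`.
(5) for `N'` large `ζ = (x1 + N' ζ0) - (y - τ)` has `⟪m - m0, ζ⟫ ≤ 0` for all `m ∈ M` (`= 0` on `F`;
off `F` it is `≤ const - N'`; finitely many `m`, `exists_nat_ge`), so `v(x1 + N' ζ0) ≤ v(y - τ)`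
(`Pot.descend_le` at `y - τ`).
(6) `Pot.lip` at `y - τ`: `v(y - τ) - D ‖τ‖ ≤ v y`.
Together `v y ≥ v x - C4 exp(-(ε4 T)) - D K6 C7 δ^(3/4)`, `T ≥ η^N L`, so
`exp(-(ε4 T)) ≤ exp(-(ε4 η^N L)) = δ^(ε4 η^N/2)`; `f = u - lse M = v + log bb m0` (`log_bb`).  `α = min (3/4) (ε4 η^N/2)`.
-/

set_option autoImplicit false

open MeasureTheory
open scoped InnerProductSpace

namespace Pool.Agent.LibTK94

theorem one_sided {n k : ℕ} (hk : k ≠ 0) {M : Finset (V n)} (hM : M.Nonempty) (hS : Spans M)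
    {u : V n → ℝ} {G : V n → V n} (hP : Pot M u G) (hT : Tail M G k) :
    ∃ C > (0 : ℝ), ∃ α > (0 : ℝ), ∃ δ0 > (0 : ℝ), ∀ x y : V n, 0 < bd M x y → bd M x y ≤ δ0 →
      (u x - lse M x) - (u y - lse M y) ≤ C * (bd M x y) ^ α := by
  classical
  obtain ⟨K1, hK1, β, hβ, N, hsc⟩ := scales hM hS
  obtain ⟨C4, hC4, ε4, hε4, hdesc⟩ := descend hk hP hT K1 (β / 2) (by positivity)
  obtain ⟨K6, hK6, hlift⟩ := lift M
  obtain ⟨C7, hC7, δ1, hδ1, hslope⟩ := slope hM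
  obtain ⟨D, hD0, hD⟩ : ∃ D : ℝ, 0 ≤ D ∧ ∀ m ∈ M, ∀ m' ∈ M, ‖m - m'‖ ≤ D := by
    refine ⟨∑ m ∈ M, ∑ m' ∈ M, ‖m - m'‖,
      Finset.sum_nonneg fun _ _ => Finset.sum_nonneg fun _ _ => norm_nonneg _, ?_⟩
    intro m hm m' hm'
    have h1 : ‖m - m'‖ ≤ ∑ m' ∈ M, ‖m - m'‖ :=
      Finset.single_le_sum (f := fun m' => ‖m - m'‖) (fun _ _ => norm_nonneg _) hm'
    have h2 : ∑ m' ∈ M, ‖m - m'‖ ≤ ∑ m ∈ M, ∑ m' ∈ M, ‖m - m'‖ :=
      Finset.single_le_sum (f := fun m => ∑ m' ∈ M, ‖m - m'‖)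
        (fun _ _ => Finset.sum_nonneg fun _ _ => norm_nonneg _) hm
    exact h1.trans h2
  obtain ⟨η, hηdef⟩ : ∃ η : ℝ, η = min 1 (min (β / (2 * K1)) (1 / (2 * K1))) := ⟨_, rfl⟩
  have hη : 0 < η := by
    rw [hηdef]
    exact lt_min one_pos (lt_min (by positivity) (by positivity))
  have hη1 : η ≤ 1 := by rw [hηdef]; exact min_le_left _ _
  have hηβ : K1 * η ≤ β / 2 := by
    have h1 : η ≤ β / (2 * K1) := by
      rw [hηdef]; exact (min_le_right _ _).trans (min_le_left _ _)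
    calc K1 * η ≤ K1 * (β / (2 * K1)) := mul_le_mul_of_nonneg_left h1 hK1.le
      _ = β / 2 := by field_simp
  have hηh : K1 * η ≤ 1 / 2 := by
    have h1 : η ≤ 1 / (2 * K1) := by
      rw [hηdef]; exact (min_le_right _ _).trans (min_le_right _ _)
    calc K1 * η ≤ K1 * (1 / (2 * K1)) := mul_le_mul_of_nonneg_left h1 hK1.le
      _ = 1 / 2 := by field_simp
  obtain ⟨α, hα⟩ : ∃ α : ℝ, α = min (3 / 4) (ε4 * η ^ N / 2) := ⟨_, rfl⟩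
  have hα0 : 0 < α := by
    rw [hα]
    exact lt_min (by norm_num) (by positivity)
  refine ⟨C4 + D * (K6 * C7) + C7, by positivity, α, hα0, min δ1 (1 / 2),
    lt_min hδ1 (by norm_num), ?_⟩
  intro x y hδ hδ0
  obtain ⟨δ, hδdef⟩ : ∃ δ : ℝ, δ = bd M x y := ⟨_, rfl⟩
  have hsl := hslope x y
  rw [← hδdef] at hδ hδ0 hsl ⊢
  have hδ1' : δ ≤ δ1 := hδ0.trans (min_le_left _ _)
  have hδ2 : δ ≤ 1 / 2 := hδ0.trans (min_le_right _ _)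
  have hlog : Real.log δ < 0 := Real.log_neg hδ (by linarith)
  obtain ⟨L, hLdef⟩ : ∃ L : ℝ, L = -(1 / 2) * Real.log δ := ⟨_, rfl⟩
  have hL : 0 < L := by rw [hLdef]; nlinarith
  obtain ⟨T, F, m0, x1, ζ0, hT1, hT2, hFM, hm0F, h1, h2, h3, h4, h5, h6, h7, h8, h9⟩ :=
    hsc η L x hη hη1 hL
  have hm0M : m0 ∈ M := hFM hm0F
  have hηN : 0 < η ^ N := pow_pos hη N
  have hT0 : 0 < T := lt_of_lt_of_le (mul_pos hηN hL) hT1
  -- (1)
  have hs0 : ∀ m ∈ F, δ ^ ((1 : ℝ) / 4) ≤ Real.exp (-⟪m0 - m, x⟫_ℝ) := by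
    intro m hm
    rw [Real.rpow_def_of_pos hδ, Real.exp_le_exp]
    have e1 := h2 m hm
    have e2 : K1 * η * T ≤ 1 / 2 * L :=
      (mul_le_mul_of_nonneg_right hηh hT0.le).trans (mul_le_mul_of_nonneg_left hT2 (by norm_num))
    have e3 : Real.log δ = -2 * L := by rw [hLdef]; ring
    rw [e3]
    linarith
  obtain ⟨hs1, hs2⟩ := hsl m0 F hFM hm0M h1 hδ hδ1' hs0
  -- (2)
  have hδ34 : 0 < δ ^ ((3 : ℝ) / 4) := Real.rpow_pos_of_pos hδ _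
  obtain ⟨τ, hτ1, hτ2⟩ := hlift F hFM m0 hm0M (y - x) (C7 * δ ^ ((3 : ℝ) / 4)) (by positivity) hs1
  -- (3)
  have hx1 : ∀ m ∈ F, ⟪m0 - m, x1⟫_ℝ = ⟪m0 - m, x⟫_ℝ := by
    intro m hm
    have := h3 m hm
    rw [inner_sub_right] at this
    linarith
  have hd := hdesc T F m0 x1 ζ0 hT0.le hFM hm0F h5 h9 (by
      intro m' hm' m hm hmF
      have e1 : ⟪m' - m, x1⟫_ℝ = ⟪m0 - m, x1⟫_ℝ - ⟪m0 - m', x1⟫_ℝ := by
        rw [← inner_sub_left]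
        congr 1
        abel
      rw [e1, hx1 m' hm']
      have e2 := h2 m' hm'
      have e3 := h6 m hm hmF
      have e4 : K1 * η * T ≤ β / 2 * T := mul_le_mul_of_nonneg_right hηβ hT0.le
      linarith) (by
      intro m' hm' m hm hmF
      have e1 : ⟪m' - m, ζ0⟫_ℝ = ⟪m0 - m, ζ0⟫_ℝ - ⟪m0 - m', ζ0⟫_ℝ := by
        rw [← inner_sub_left]
        congr 1
        abel
      rw [e1, h7 m' hm', sub_zero]
      exact h8 m hm hmF) (by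
      intro m' hm'
      have e1 := h7 m' hm'
      rw [← neg_sub, inner_neg_left, e1, neg_zero])
  -- (4)
  have hv1 : u x - ⟪m0, x⟫_ℝ ≤ u x1 - ⟪m0, x1⟫_ℝ := by
    have e1 := hP.descend_le (m0 := m0) (x := x1) (ζ := x - x1) (by
      intro m hm
      have := h4 m hm
      rw [← neg_sub, inner_neg_left]
      linarith)
    rwa [add_sub_cancel] at e1
  -- (5)
  obtain ⟨R, hR⟩ : ∃ R : ℝ, ∀ m ∈ M, ⟪m - m0, x1 - (y - τ)⟫_ℝ ≤ R := by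
    refine ⟨∑ m ∈ M, |⟪m - m0, x1 - (y - τ)⟫_ℝ|, fun m hm => ?_⟩
    exact (le_abs_self _).trans (Finset.single_le_sum
      (f := fun m => |⟪m - m0, x1 - (y - τ)⟫_ℝ|) (fun _ _ => abs_nonneg _) hm)
  obtain ⟨N', hN'⟩ := exists_nat_ge R
  have hv2 : u (x1 + (N' : ℝ) • ζ0) - ⟪m0, x1 + (N' : ℝ) • ζ0⟫_ℝ
      ≤ u (y - τ) - ⟪m0, y - τ⟫_ℝ := by
    have e1 := hP.descend_le (m0 := m0) (x := y - τ) (ζ := (x1 + (N' : ℝ) • ζ0) - (y - τ)) (by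
      intro m hm
      have e2 : ⟪m - m0, (x1 + (N' : ℝ) • ζ0) - (y - τ)⟫_ℝ
          = ⟪m - m0, x1 - (y - τ)⟫_ℝ + (N' : ℝ) * ⟪m - m0, ζ0⟫_ℝ := by
        rw [← inner_smul_right, ← inner_add_right]
        congr 1
        abel
      rw [e2]
      by_cases hmF : m ∈ F
      · have e3 : ⟪m - m0, ζ0⟫_ℝ = 0 := by
          have := h7 m hmF
          rw [← neg_sub, inner_neg_left, this, neg_zero]
        have e4 : ⟪m - m0, x1 - (y - τ)⟫_ℝ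
            = ⟪m - m0, x1⟫_ℝ - ⟪m - m0, x⟫_ℝ - ⟪m - m0, y - x⟫_ℝ + ⟪m - m0, τ⟫_ℝ := by
          rw [← inner_sub_right, ← inner_sub_right, ← inner_add_right]
          congr 1
          abel
        have e5 : ⟪m - m0, x1⟫_ℝ = ⟪m - m0, x⟫_ℝ := by
          have := hx1 m hmF
          rw [← neg_sub, inner_neg_left, this, ← inner_neg_left, neg_sub]
        rw [e3, mul_zero, add_zero, e4, hτ1 m hmF, e5]
        linarith
      · have e3 : ⟪m - m0, ζ0⟫_ℝ ≤ -1 := by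
          have := h8 m hm hmF
          rw [← neg_sub, inner_neg_left]
          linarith
        have e4 := hR m hm
        have e5 : (N' : ℝ) * ⟪m - m0, ζ0⟫_ℝ ≤ (N' : ℝ) * (-1) :=
          mul_le_mul_of_nonneg_left e3 (Nat.cast_nonneg _)
        linarith)
    rwa [add_sub_cancel] at e1
  -- (6)
  have hv3 : u (y - τ) - ⟪m0, y - τ⟫_ℝ - D * ‖τ‖ ≤ u y - ⟪m0, y⟫_ℝ := by
    have e1 := hP.lip (D := D) (m0 := m0) (fun m hm => hD m hm m0 hm0M) (y - τ) τ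
    rwa [sub_add_cancel] at e1
  have hd' := hd N'
  have hDτ : D * ‖τ‖ ≤ D * (K6 * (C7 * δ ^ ((3 : ℝ) / 4))) := mul_le_mul_of_nonneg_left hτ2 hD0
  have hlb : Real.log (bb M m0 x) - Real.log (bb M m0 y) ≤ C7 * δ ^ ((3 : ℝ) / 4) := by
    have e1 := (abs_le.1 hs2).1
    linarith
  rw [log_bb, log_bb] at hlb
  have hexp : Real.exp (-(ε4 * T)) ≤ δ ^ α := by
    have e1 : Real.exp (-(ε4 * T)) ≤ δ ^ (ε4 * η ^ N / 2) := by
      rw [Real.rpow_def_of_pos hδ, Real.exp_le_exp]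
      have e3 : Real.log δ = -2 * L := by rw [hLdef]; ring
      rw [e3]
      have e4 : ε4 * (η ^ N * L) ≤ ε4 * T := mul_le_mul_of_nonneg_left hT1 hε4.le
      nlinarith
    refine e1.trans ?_
    apply Real.rpow_le_rpow_of_exponent_ge hδ (by linarith)
    rw [hα]
    exact min_le_right _ _
  have h34 : δ ^ ((3 : ℝ) / 4) ≤ δ ^ α := by
    apply Real.rpow_le_rpow_of_exponent_ge hδ (by linarith)
    rw [hα]
    exact min_le_left _ _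
  have f1 : C4 * Real.exp (-(ε4 * T)) ≤ C4 * δ ^ α := mul_le_mul_of_nonneg_left hexp hC4.le
  have f2 : D * (K6 * (C7 * δ ^ ((3 : ℝ) / 4))) ≤ D * (K6 * (C7 * δ ^ α)) := by gcongr
  have f3 : C7 * δ ^ ((3 : ℝ) / 4) ≤ C7 * δ ^ α := mul_le_mul_of_nonneg_left h34 hC7.le
  have f4 : (C4 + D * (K6 * C7) + C7) * δ ^ α
      = C4 * δ ^ α + D * (K6 * (C7 * δ ^ α)) + C7 * δ ^ α := by ring
  rw [f4]
  linarith

end Pool.Agent.LibTK94
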