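import Pool.Agent.LibTK94.OneSided

/-!
# Row B8: the Hölder estimate in real coordinates

Plan.  Apply `one_sided` to `(x, y)` and `(y, x)` (`bd_symm`).  If `bd M x y = 0` then `x = y`
(`eq_of_bd`) and the left side is `0`.  If `bd M x y > δ0` then the left side is
`≤ 2 C0 ≤ (2 C0 / δ0^α) (bd M x y)^α`.
-/

set_option autoImplicit false

open MeasureTheory
open scoped InnerProductSpace

namespace Pool.Agent.LibTK94

theorem real_holder {n k : ℕ} (hk : k ≠ 0) {M : Finset (V n)} (hM : M.Nonempty) (hS : Spans M)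
    {u : V n → ℝ} {G : V n → V n} (hP : Pot M u G) (hT : Tail M G k) {C0 : ℝ}
    (hB : ∀ x, |u x - lse M x| ≤ C0) :
    ∃ C > (0 : ℝ), ∃ α > (0 : ℝ), ∀ x y : V n,
      |(u x - lse M x) - (u y - lse M y)| ≤ C * (bd M x y) ^ α := by
  obtain ⟨C, hC, α, hα, δ0, hδ0, h⟩ := one_sided hk hM hS hP hT
  have hC0 : 0 ≤ C0 := (abs_nonneg _).trans (hB 0)
  have hδα : 0 < δ0 ^ α := Real.rpow_pos_of_pos hδ0 _
  refine ⟨C + 2 * C0 / δ0 ^ α, by positivity, α, hα, fun x y => ?_⟩
  rcases (bd_nonneg (M := M) x y).eq_or_lt with h0 | h0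
  · have h1 : x = y := eq_of_bd hS h0.symm
    subst h1
    rw [sub_self, abs_zero]
    have := Real.rpow_nonneg (bd_nonneg (M := M) x x) α
    positivity
  · have hpow : 0 < (bd M x y) ^ α := Real.rpow_pos_of_pos h0 _
    have hq : 0 ≤ 2 * C0 / δ0 ^ α := by positivity
    rcases le_or_gt (bd M x y) δ0 with h1 | h1
    · have h2 := h x y h0 h1
      have h3 := h y x (by rw [bd_symm]; exact h0) (by rw [bd_symm]; exact h1)
      rw [bd_symm] at h3
      have h4 : C * (bd M x y) ^ α ≤ (C + 2 * C0 / δ0 ^ α) * (bd M x y) ^ α :=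
        mul_le_mul_of_nonneg_right (by linarith) hpow.le
      rw [abs_le]
      constructor <;> linarith
    · have h2 : |(u x - lse M x) - (u y - lse M y)| ≤ 2 * C0 := by
        have h3 := hB x
        have h4 := hB y
        have h5 := abs_sub (u x - lse M x) (u y - lse M y)
        linarith
      have h3 : δ0 ^ α ≤ (bd M x y) ^ α := Real.rpow_le_rpow hδ0.le h1.le hα.le
      have h4 : 2 * C0 ≤ 2 * C0 / δ0 ^ α * (bd M x y) ^ α := by
        rw [div_mul_eq_mul_div, le_div_iff₀ hδα]
        exact mul_le_mul_of_nonneg_left h3 (by linarith)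
      have h5 : 0 ≤ C * (bd M x y) ^ α := by positivity
      rw [add_mul]
      linarith

end Pool.Agent.LibTK94
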