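import Pool.Agent.LibTK94.Cone

/-!
# Row B5: scales (pigeonhole on the coefficients in a cone)

Plan.  For `m0 ∈ M` let `A = M.image (fun m => m0 - m)`; `Spans M` gives the hypothesis of
`cone_gen` for `A` (if `⟪m0 - m, x⟫ = 0` for all `m` then all differences vanish at `x`).  Let
`Zs m0` be the finite set of `cone_gen`, `Zall = M.biUnion Zs` (choose), `N = Zall.card`,
`ρ ≥ ‖z‖` on `Zall`, `D ≥ ‖m - m'‖` on `M`, and let `β > 0` be a lower bound of the positive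
values of `⟪m0 - m, z⟫` (`m0, m ∈ M`, `z ∈ Zall`, finitely many; if there is none take 1).
Given `η, L, x`: `m0` = maximiser (`exists_max`), `x = ∑ z ∈ Zs m0, c z • z`, `c ≥ 0`.  The `N+1`
half open intervals `(η^(j+1) L, η^j L]`, `j = 0..N`, are pairwise disjoint, so one of them contains
no `c z`, `z ∈ Zs m0` (pigeonhole; NB for `η = 1` the intervals are empty, fine); `T = η^j L`.
So each `c z` is `≤ η T` (small) or `> T` (big).  `big = (Zs m0).filter (T < c z)`,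
`F = M.filter (∀ z ∈ big, ⟪m0 - m, z⟫ = 0)`,
`x1 = ∑_{small} c z • z + ∑_{big} T • z`, `ζ0 = β⁻¹ • ∑_{big} z`,
`K = max` of the needed constants, e.g. `K = N ρ D + N ρ + N ρ β⁻¹ + 1`.
All items are then direct sums of nonnegative terms.
-/

set_option autoImplicit false

open MeasureTheory
open scoped InnerProductSpace

namespace Pool.Agent.LibTK94

private theorem Scales_beta (S : Finset ℝ) : ∃ β > (0 : ℝ), ∀ s ∈ S, 0 < s → β ≤ s := by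
  induction S using Finset.induction_on with
  | empty => exact ⟨1, one_pos, fun s hs => absurd hs (Finset.notMem_empty s)⟩
  | insert a S _ ih =>
    obtain ⟨β, hβ, h⟩ := ih
    by_cases ha : 0 < a
    · refine ⟨min a β, lt_min ha hβ, fun s hs hs0 => ?_⟩
      rcases Finset.mem_insert.1 hs with rfl | hs
      · exact min_le_left _ _
      · exact (min_le_right _ _).trans (h s hs hs0)
    · refine ⟨β, hβ, fun s hs hs0 => ?_⟩
      rcases Finset.mem_insert.1 hs with rfl | hs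
      · exact absurd hs0 ha
      · exact h s hs hs0

private theorem Scales_pigeon {α : Type} (Z : Finset α) (c : α → ℝ) {η L : ℝ} (hη : 0 < η)
    (hη1 : η ≤ 1) (hL : 0 < L) {N : ℕ} (hN : Z.card ≤ N) :
    ∃ j ≤ N, ∀ z ∈ Z, c z ≤ η * (η ^ j * L) ∨ η ^ j * L < c z := by
  classical
  by_contra hcon
  push Not at hcon
  have hne : Nonempty α := ⟨(hcon 0 (Nat.zero_le _)).choose⟩
  choose! g hg using hcon
  have hcard : Z.card < (Finset.range (N + 1)).card := by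
    rw [Finset.card_range]
    omega
  obtain ⟨a, ha, b, hb, hab, hgab⟩ := Finset.exists_ne_map_eq_of_card_lt_of_maps_to hcard
    (f := g) (fun a ha => (hg a (by rw [Finset.mem_coe, Finset.mem_range] at ha; omega)).1)
  rw [Finset.mem_range] at ha hb
  have key : ∀ a b : ℕ, a ≤ N → b ≤ N → a < b → g a = g b → False := by
    intro a b ha hb hab hgab
    have h1 := (hg a ha).2.1
    have h2 := (hg b hb).2.2
    rw [← hgab] at h2
    have h3 : η ^ b ≤ η ^ (a + 1) := pow_le_pow_of_le_one hη.le hη1 (by omega)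
    have h4 : η ^ b * L ≤ η ^ (a + 1) * L := mul_le_mul_of_nonneg_right h3 hL.le
    rw [pow_succ] at h4
    nlinarith
  rcases lt_or_gt_of_ne hab with h | h
  · exact key a b (by omega) (by omega) h hgab
  · exact key b a (by omega) (by omega) h hgab.symm

theorem scales {n : ℕ} {M : Finset (V n)} (hM : M.Nonempty) (hS : Spans M) :
    ∃ K > (0 : ℝ), ∃ β > (0 : ℝ), ∃ N : ℕ, ∀ (η L : ℝ) (x : V n), 0 < η → η ≤ 1 → 0 < L →
      ∃ (T : ℝ) (F : Finset (V n)) (m0 x1 ζ0 : V n),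
        η ^ N * L ≤ T ∧ T ≤ L ∧ F ⊆ M ∧ m0 ∈ F ∧
        (∀ m ∈ M, 0 ≤ ⟪m0 - m, x⟫_ℝ) ∧
        (∀ m ∈ F, ⟪m0 - m, x⟫_ℝ ≤ K * η * T) ∧
        (∀ m ∈ F, ⟪m0 - m, x - x1⟫_ℝ = 0) ∧
        (∀ m ∈ M, 0 ≤ ⟪m0 - m, x - x1⟫_ℝ) ∧
        ‖x1‖ ≤ K * T ∧
        (∀ m ∈ M, m ∉ F → β * T ≤ ⟪m0 - m, x1⟫_ℝ) ∧
        (∀ m ∈ F, ⟪m0 - m, ζ0⟫_ℝ = 0) ∧
        (∀ m ∈ M, m ∉ F → 1 ≤ ⟪m0 - m, ζ0⟫_ℝ) ∧ ‖ζ0‖ ≤ K := by
  classical
  have hcone : ∀ m0 : V n, ∃ Z : Finset (V n), m0 ∈ M →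
      (∀ z ∈ Z, ∀ m ∈ M, 0 ≤ ⟪m0 - m, z⟫_ℝ) ∧
      ∀ x : V n, (∀ m ∈ M, 0 ≤ ⟪m0 - m, x⟫_ℝ) →
        ∃ c : V n → ℝ, (∀ z, 0 ≤ c z) ∧ x = ∑ z ∈ Z, c z • z := by
    intro m0
    by_cases h0 : m0 ∈ M
    · obtain ⟨Z, hZ1, hZ2⟩ := cone_gen (M.image fun m => m0 - m) (by
        intro x hx
        refine hS x fun m hm m' hm' => ?_
        have h1 := hx (m0 - m) (Finset.mem_image_of_mem _ hm)
        have h2 := hx (m0 - m') (Finset.mem_image_of_mem _ hm')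
        have h3 : m - m' = (m0 - m') - (m0 - m) := by abel
        rw [h3, inner_sub_left, h1, h2, sub_zero])
      refine ⟨Z, fun _ => ⟨fun z hz m hm => hZ1 z hz _ (Finset.mem_image_of_mem _ hm),
        fun x hx => hZ2 x fun a ha => ?_⟩⟩
      obtain ⟨m, hm, rfl⟩ := Finset.mem_image.1 ha
      exact hx m hm
    · exact ⟨∅, fun h => absurd h h0⟩
  choose Zs hZs using hcone
  set Zall : Finset (V n) := M.biUnion Zs with hZall
  set N := Zall.card with hN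
  obtain ⟨ρ, hρ0, hρ⟩ : ∃ ρ : ℝ, 0 ≤ ρ ∧ ∀ z ∈ Zall, ‖z‖ ≤ ρ :=
    ⟨∑ z ∈ Zall, ‖z‖, Finset.sum_nonneg fun _ _ => norm_nonneg _, fun z hz =>
      Finset.single_le_sum (f := fun z : V n => ‖z‖) (fun _ _ => norm_nonneg _) hz⟩
  obtain ⟨D, hD0, hD⟩ : ∃ D : ℝ, 0 ≤ D ∧ ∀ m ∈ M, ∀ m' ∈ M, ‖m - m'‖ ≤ D := by
    refine ⟨∑ m ∈ M, ∑ m' ∈ M, ‖m - m'‖,
      Finset.sum_nonneg fun _ _ => Finset.sum_nonneg fun _ _ => norm_nonneg _, fun m hm m' hm' => ?_⟩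
    have h1 : ‖m - m'‖ ≤ ∑ m' ∈ M, ‖m - m'‖ :=
      Finset.single_le_sum (f := fun m' : V n => ‖m - m'‖) (fun _ _ => norm_nonneg _) hm'
    exact h1.trans (Finset.single_le_sum (f := fun m : V n => ∑ m' ∈ M, ‖m - m'‖)
      (fun _ _ => Finset.sum_nonneg fun _ _ => norm_nonneg _) hm)
  obtain ⟨β, hβ0, hβ⟩ := Scales_beta
    (((M ×ˢ M) ×ˢ Zall).image fun q => ⟪q.1.1 - q.1.2, q.2⟫_ℝ)
  have hβ' : ∀ m0 ∈ M, ∀ m ∈ M, ∀ z ∈ Zall, 0 < ⟪m0 - m, z⟫_ℝ → β ≤ ⟪m0 - m, z⟫_ℝ := by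
    intro m0 h0 m hm z hz h
    exact hβ _ (Finset.mem_image.2 ⟨((m0, m), z), by simp [h0, hm, hz], rfl⟩) h
  have hNn : (0 : ℝ) ≤ N := Nat.cast_nonneg _
  have hβi : 0 < β⁻¹ := inv_pos.2 hβ0
  set K : ℝ := N * ρ * D + N * ρ + β⁻¹ * (N * ρ) + 1 with hK
  have hNρ : 0 ≤ N * ρ := mul_nonneg hNn hρ0
  have hNρD : 0 ≤ N * ρ * D := mul_nonneg hNρ hD0
  have hNρβ : 0 ≤ β⁻¹ * (N * ρ) := mul_nonneg hβi.le hNρ
  refine ⟨K, by rw [hK]; linarith, β, hβ0, N, ?_⟩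
  intro η L x hη hη1 hL
  obtain ⟨m0, hm0, hmax⟩ := M.exists_max_image (fun m => ⟪m, x⟫_ℝ) hM
  have hx0 : ∀ m ∈ M, 0 ≤ ⟪m0 - m, x⟫_ℝ := by
    intro m hm
    rw [inner_sub_left]
    exact sub_nonneg.2 (hmax m hm)
  obtain ⟨hZ1, hZ2⟩ := hZs m0 hm0
  obtain ⟨c, hc0, hcx⟩ := hZ2 x hx0
  have hsubZ : Zs m0 ⊆ Zall := Finset.subset_biUnion_of_mem Zs hm0
  have hcardZ : (Zs m0).card ≤ N := Finset.card_le_card hsubZ
  obtain ⟨j, hj, hgap⟩ := Scales_pigeon (Zs m0) c hη hη1 hL hcardZ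
  set T : ℝ := η ^ j * L with hT
  have hT0 : 0 < T := mul_pos (pow_pos hη j) hL
  have hTη : η * T ≤ T := mul_le_of_le_one_left hT0.le hη1
  set d : V n → ℝ := fun z => min (c z) T with hd
  have hd0 : ∀ z, 0 ≤ d z := fun z => le_min (hc0 z) hT0.le
  have hdT : ∀ z, d z ≤ T := fun z => min_le_right _ _
  have hdc : ∀ z, d z ≤ c z := fun z => min_le_left _ _
  have hsmall : ∀ z ∈ Zs m0, ¬ T < c z → c z ≤ η * T ∧ d z = c z := by
    intro z hz hn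
    refine ⟨(hgap z hz).resolve_right hn, min_eq_left (not_lt.1 hn)⟩
  set big : Finset (V n) := (Zs m0).filter fun z => T < c z with hbig
  set F : Finset (V n) := M.filter fun m => ∀ z ∈ big, ⟪m0 - m, z⟫_ℝ = 0 with hF
  set x1 : V n := ∑ z ∈ Zs m0, d z • z with hx1
  set ζ0 : V n := β⁻¹ • ∑ z ∈ big, z with hζ
  have hin : ∀ (e : V n → ℝ) (v : V n), ⟪v, ∑ z ∈ Zs m0, e z • z⟫_ℝ =
      ∑ z ∈ Zs m0, e z * ⟪v, z⟫_ℝ := by
    intro e v
    rw [inner_sum]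
    exact Finset.sum_congr rfl fun z _ => by rw [inner_smul_right]
  have hxx1 : x - x1 = ∑ z ∈ Zs m0, (c z - d z) • z := by
    rw [hx1]
    conv_lhs => rw [hcx]
    rw [← Finset.sum_sub_distrib]
    exact Finset.sum_congr rfl fun z _ => by rw [sub_smul]
  have hbigin : ∀ z ∈ Zs m0, T < c z → z ∈ big := fun z hz h => by
    rw [hbig, Finset.mem_filter]
    exact ⟨hz, h⟩
  have hFM : ∀ m ∈ F, m ∈ M := fun m hm => (Finset.mem_filter.1 hm).1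
  have hF0 : ∀ m ∈ F, ∀ z ∈ big, ⟪m0 - m, z⟫_ℝ = 0 := fun m hm => (Finset.mem_filter.1 hm).2
  have hnF : ∀ m ∈ M, m ∉ F → ∃ z ∈ big, β ≤ ⟪m0 - m, z⟫_ℝ := by
    intro m hm hmF
    have h1 : ¬ ∀ z ∈ big, ⟪m0 - m, z⟫_ℝ = 0 := fun h => hmF (Finset.mem_filter.2 ⟨hm, h⟩)
    push Not at h1
    obtain ⟨z, hz, hz0⟩ := h1
    have hz' : z ∈ Zs m0 := (Finset.mem_filter.1 hz).1
    exact ⟨z, hz, hβ' m0 hm0 m hm z (hsubZ hz')
      (lt_of_le_of_ne (hZ1 z hz' m hm) (Ne.symm hz0))⟩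
  refine ⟨T, F, m0, x1, ζ0, ?_, ?_, Finset.filter_subset _ _, ?_, hx0, ?_, ?_, ?_, ?_, ?_, ?_, ?_, ?_⟩
  · exact mul_le_mul_of_nonneg_right (pow_le_pow_of_le_one hη.le hη1 hj) hL.le
  · exact mul_le_of_le_one_left hL.le (pow_le_one₀ hη.le hη1)
  · rw [hF, Finset.mem_filter]
    exact ⟨hm0, fun z _ => by rw [sub_self, inner_zero_left]⟩
  · intro m hm
    have h1 : ⟪m0 - m, x⟫_ℝ = ∑ z ∈ Zs m0, c z * ⟪m0 - m, z⟫_ℝ := by
      conv_lhs => rw [hcx]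
      exact hin c _
    rw [h1]
    have h2 : ∀ z ∈ Zs m0, c z * ⟪m0 - m, z⟫_ℝ ≤ η * T * (ρ * D) := by
      intro z hz
      by_cases hb : T < c z
      · rw [hF0 m hm z (hbigin z hz hb), mul_zero]
        positivity
      · obtain ⟨h3, -⟩ := hsmall z hz hb
        have h4 : ⟪m0 - m, z⟫_ℝ ≤ ρ * D := by
          refine (real_inner_le_norm _ _).trans ?_
          rw [mul_comm]
          exact mul_le_mul (hρ z (hsubZ hz)) (hD m0 hm0 m (hFM m hm)) (norm_nonneg _) hρ0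
        exact mul_le_mul h3 h4 (hZ1 z hz m (hFM m hm)) (by positivity)
    have h5 := Finset.sum_le_card_nsmul (Zs m0) _ _ h2
    refine h5.trans ?_
    rw [nsmul_eq_mul]
    have h6 : ((Zs m0).card : ℝ) ≤ N := by exact_mod_cast hcardZ
    have h7 : (0 : ℝ) ≤ η * T * (ρ * D) := by positivity
    have h8 : ((Zs m0).card : ℝ) * (η * T * (ρ * D)) ≤ N * (η * T * (ρ * D)) :=
      mul_le_mul_of_nonneg_right h6 h7
    have h9 : N * (η * T * (ρ * D)) = (N * ρ * D) * (η * T) := by ring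
    have h10 : (N * ρ * D) * (η * T) ≤ K * (η * T) := by
      refine mul_le_mul_of_nonneg_right ?_ (by positivity)
      rw [hK]
      linarith
    nlinarith
  · intro m hm
    rw [hxx1, hin]
    refine Finset.sum_eq_zero fun z hz => ?_
    by_cases hb : T < c z
    · rw [hF0 m hm z (hbigin z hz hb), mul_zero]
    · rw [(hsmall z hz hb).2, sub_self, zero_mul]
  · intro m hm
    rw [hxx1, hin]
    exact Finset.sum_nonneg fun z hz => mul_nonneg (sub_nonneg.2 (hdc z)) (hZ1 z hz m hm)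
  · have h2 : ∀ z ∈ Zs m0, ‖d z • z‖ ≤ T * ρ := by
      intro z hz
      rw [norm_smul, Real.norm_of_nonneg (hd0 z)]
      exact mul_le_mul (hdT z) (hρ z (hsubZ hz)) (norm_nonneg _) hT0.le
    have h3 : ‖x1‖ ≤ ∑ z ∈ Zs m0, ‖d z • z‖ := norm_sum_le _ _
    have h5 := Finset.sum_le_card_nsmul (Zs m0) _ _ h2
    rw [nsmul_eq_mul] at h5
    have h6 : ((Zs m0).card : ℝ) ≤ N := by exact_mod_cast hcardZ
    have h8 : ((Zs m0).card : ℝ) * (T * ρ) ≤ N * (T * ρ) :=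
      mul_le_mul_of_nonneg_right h6 (by positivity)
    have h10 : (N * ρ) * T ≤ K * T := by
      refine mul_le_mul_of_nonneg_right ?_ hT0.le
      rw [hK]
      linarith
    nlinarith
  · intro m hm hmF
    obtain ⟨z, hz, hzβ⟩ := hnF m hm hmF
    have hz' : z ∈ Zs m0 := (Finset.mem_filter.1 hz).1
    have hzT : T < c z := (Finset.mem_filter.1 hz).2
    rw [hx1, hin]
    have h1 : d z * ⟪m0 - m, z⟫_ℝ ≤ ∑ z ∈ Zs m0, d z * ⟪m0 - m, z⟫_ℝ :=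
      Finset.single_le_sum (f := fun z : V n => d z * ⟪m0 - m, z⟫_ℝ)
        (fun z hz => mul_nonneg (hd0 z) (hZ1 z hz m hm)) hz'
    have h2 : d z = T := min_eq_right hzT.le
    rw [h2] at h1
    have h3 : T * β ≤ T * ⟪m0 - m, z⟫_ℝ := mul_le_mul_of_nonneg_left hzβ hT0.le
    linarith [mul_comm β T]
  · intro m hm
    rw [hζ, inner_smul_right, inner_sum, Finset.sum_eq_zero (hF0 m hm), mul_zero]
  · intro m hm hmF
    obtain ⟨z, hz, hzβ⟩ := hnF m hm hmF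
    rw [hζ, inner_smul_right, inner_sum]
    have h1 : ⟪m0 - m, z⟫_ℝ ≤ ∑ z ∈ big, ⟪m0 - m, z⟫_ℝ :=
      Finset.single_le_sum (f := fun z : V n => ⟪m0 - m, z⟫_ℝ)
        (fun z hz => hZ1 z (Finset.mem_filter.1 hz).1 m hm) hz
    have h2 : β⁻¹ * β ≤ β⁻¹ * ∑ z ∈ big, ⟪m0 - m, z⟫_ℝ :=
      mul_le_mul_of_nonneg_left (hzβ.trans h1) hβi.le
    rwa [inv_mul_cancel₀ hβ0.ne'] at h2
  · rw [hζ, norm_smul, Real.norm_of_nonneg hβi.le]
    have h3 : ‖∑ z ∈ big, z‖ ≤ ∑ z ∈ big, ‖z‖ := norm_sum_le _ _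
    have h5 := Finset.sum_le_card_nsmul big (fun z : V n => ‖z‖) ρ
      (fun z hz => hρ z (hsubZ (Finset.mem_filter.1 hz).1))
    rw [nsmul_eq_mul] at h5
    have h6 : (big.card : ℝ) ≤ N := by
      exact_mod_cast (Finset.card_le_card (Finset.filter_subset _ _)).trans hcardZ
    have h7 : (big.card : ℝ) * ρ ≤ N * ρ := mul_le_mul_of_nonneg_right h6 hρ0
    have h8 : β⁻¹ * ‖∑ z ∈ big, z‖ ≤ β⁻¹ * (N * ρ) :=
      mul_le_mul_of_nonneg_left (h3.trans (h5.trans h7)) hβi.le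
    refine h8.trans ?_
    rw [hK]
    linarith

end Pool.Agent.LibTK94
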