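import Pool.Agent.LibTK94.Basic

/-!
# Row A1: a function with positive definite Hessian is strictly convex

Plan.  `φ t = u (x + t • (y - x))`, `φ' t = ⟪G (x + t • (y-x)), y - x⟫`,
`φ'' t = ⟪toEuclideanLin (H _) (y-x), y-x⟫ ≥ 0` (`> 0` for `y ≠ x`), from `hR.grad`, `hR.hess`
composed with the affine line.  `Matrix.PosDef` gives positivity of the quadratic form
(`Matrix.toEuclideanLin_apply`, `EuclideanSpace.inner_eq_star_dotProduct`).  `sub`: convexity of
`φ` (`convexOn_of_deriv2_nonneg'` or monotonicity of `φ'` by `monotone_of_deriv_nonneg`, then the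
mean value theorem: `φ 1 - φ 0 = φ' s ≥ φ' 0`).  Injectivity: if `G x = G y`, `x ≠ y`, then `φ'` is
strictly monotone (`strictMono_of_deriv_pos`) but `φ' 0 = φ' 1`.
-/

set_option autoImplicit false

open MeasureTheory
open scoped InnerProductSpace

namespace Pool.Agent.LibTK94

theorem posDef_inner {n : ℕ} {A : Matrix (Fin n) (Fin n) ℝ} (hA : A.PosDef) {e : V n}
    (he : e ≠ 0) : 0 < ⟪Matrix.toEuclideanLin A e, e⟫_ℝ := by
  have h0 : WithLp.ofLp e ≠ 0 := by
    intro h
    apply he
    ext i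
    exact congrFun h i
  have h := hA.dotProduct_mulVec_pos h0
  rw [EuclideanSpace.inner_eq_star_dotProduct]
  simpa using h

private theorem Sub_line {n : ℕ} (x w : V n) (t : ℝ) :
    HasDerivAt (fun t : ℝ => x + t • w) w t := by
  have h := ((hasDerivAt_id t).smul_const w).const_add x
  rw [one_smul] at h
  exact h

private theorem Sub_mono {n : ℕ} {u : V n → ℝ} {G : V n → V n}
    {H : V n → Matrix (Fin n) (Fin n) ℝ} (hR : Reg u G H) (x : V n) {w : V n} (hw : w ≠ 0) :
    StrictMono fun t : ℝ => ⟪G (x + t • w), w⟫_ℝ := by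
  have hd : ∀ t : ℝ, HasDerivAt (fun t : ℝ => ⟪G (x + t • w), w⟫_ℝ)
      ⟪Matrix.toEuclideanLin (H (x + t • w)) w, w⟫_ℝ t := by
    intro t
    have h1 := (hR.hess (x + t • w)).comp_hasDerivAt t (Sub_line x w t)
    have h2 := h1.inner ℝ (hasDerivAt_const t w)
    rw [inner_zero_right, zero_add] at h2
    exact h2
  refine strictMono_of_deriv_pos fun t => ?_
  rw [(hd t).deriv]
  exact posDef_inner (hR.pos _) hw

theorem sub_of_reg {n : ℕ} {u : V n → ℝ} {G : V n → V n} {H : V n → Matrix (Fin n) (Fin n) ℝ}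
    (hR : Reg u G H) (x y : V n) : u x + ⟪G x, y - x⟫_ℝ ≤ u y := by
  rcases eq_or_ne (y - x) 0 with hw | hw
  · rw [hw, inner_zero_right, add_zero, sub_eq_zero.1 hw]
  have hd : ∀ t : ℝ, HasDerivAt (fun t : ℝ => u (x + t • (y - x)))
      ⟪G (x + t • (y - x)), y - x⟫_ℝ t := by
    intro t
    have h1 := (hR.grad (x + t • (y - x))).comp_hasDerivAt t (Sub_line x (y - x) t)
    rw [innerSL_apply_apply] at h1
    exact h1
  obtain ⟨s, hs, h⟩ := exists_hasDerivAt_eq_slope (fun t : ℝ => u (x + t • (y - x)))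
    (fun t : ℝ => ⟪G (x + t • (y - x)), y - x⟫_ℝ) one_pos
    (fun t _ => (hd t).continuousAt.continuousWithinAt) (fun t _ => hd t)
  have h2 := Sub_mono hR x hw hs.1
  simp only [one_smul, zero_smul, add_zero, sub_zero, div_one, add_sub_cancel] at h h2
  linarith

theorem inj_of_reg {n : ℕ} {u : V n → ℝ} {G : V n → V n} {H : V n → Matrix (Fin n) (Fin n) ℝ}
    (hR : Reg u G H) : Function.Injective G := by
  intro x y hxy
  by_contra hne
  have hw : y - x ≠ 0 := fun h => hne (sub_eq_zero.1 h).symm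
  have h2 := Sub_mono hR x hw one_pos
  simp only [one_smul, zero_smul, add_zero, add_sub_cancel] at h2
  rw [hxy] at h2
  exact lt_irrefl _ h2

end Pool.Agent.LibTK94
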