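import Pool.Agent.LibTK94.Both

/-!
# MP_da7b07_ag: potentials of singular Kähler–Einstein metrics on toric varieties are Hölder

`S` is a finite set of lattice points whose differences span `ℝⁿ`; it gives the projective toric
variety `X_S`, the closure of the image of `w ↦ [exp⟨m, w⟩]_{m ∈ S}`, where `w ∈ ℂⁿ` are the
logarithmic coordinates of the torus.  `Φ` is the potential on the torus of a torus-invariant
Kähler–Einstein metric in the class of `c ω_FS` with bounded potentials.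
-/

set_option autoImplicit false

open MeasureTheory
open scoped InnerProductSpace ComplexOrder

namespace Pool.Agent.Results.MP_da7b07_ag.ToricKE

open Pool.Agent.LibTK94

theorem result (n : ℕ) (S : Finset (Fin n → ℤ))
    (hS : ∀ x : Fin n → ℝ,
      (∀ m ∈ S, ∀ m' ∈ S, ∑ j, ((m j : ℝ) - (m' j : ℝ)) * x j = 0) → x = 0)
    (c : ℝ) (hc : 0 < c) (lam : ℝ) (Φ : (Fin n → ℂ) → ℝ) (hΦ : ContDiff ℝ 4 Φ)
    (hinv : ∀ (w : Fin n → ℂ) (θ : Fin n → ℝ), Φ (fun j => w j + Complex.I * (θ j : ℂ)) = Φ w)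
    (hpos : ∀ w, (levi Φ w).PosDef)
    (hbd : ∃ C0 : ℝ, ∀ w, |rel S c Φ w| ≤ C0)
    (hKE : ∀ w, levi (fun w => Real.log (levi Φ w).det.re) w = (-(lam : ℂ)) • levi Φ w) :
    ∃ C > (0 : ℝ), ∃ α > (0 : ℝ), ∀ w w' : Fin n → ℂ,
      |rel S c Φ w - rel S c Φ w'| ≤ C * fsDist (Zv S w) (Zv S w') ^ α :=
  (toric_both n S hS c hc Φ hinv hpos hbd).1 lam hΦ hKE

end Pool.Agent.Results.MP_da7b07_ag.ToricKE
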